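import Mathlib
import Pool.Agent.Y817.ISO.Stm

/-!
# Isomorphism of finite presentations is a complete c.e. equivalence relation: further parts

Problem MP_3d45c4_lc, frozen statement S14615. Continues `Pool.Agent.Y817.ISO.Stm`.
-/

set_option autoImplicit false

namespace Pool.Agent.Helper739_ISO

open Pool.Agent.Y817.ISO

/-- MHNN2: multiple HNN extensions, with the subgroup lemma. -/
def StmMHNN2 : Prop := ∀ (G : Type) [Group G] (ι : Type) [Finite ι] (Q : ι → Type)
  [∀ i, Group (Q i)] (f g : ∀ i, Q i →* G), (∀ i, Function.Injective (f i)) →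
  (∀ i, Function.Injective (g i)) →
  ∃ (K : Type) (_ : Group K) (of : G →* K) (r : ι → K), Function.Injective of ∧
    (∀ i q, r i * of (f i q) = of (g i q) * r i) ∧ (TF G → TF K) ∧
    Subgroup.closure (Set.range of ∪ Set.range r) = ⊤ ∧
    (∀ (H : Type) [Group H] (φ : G →* H) (s : ι → H),
      (∀ i q, s i * φ (f i q) = φ (g i q) * s i) →
      ∃ Φ : K →* H, (∀ x, Φ (of x) = φ x) ∧ ∀ i, Φ (r i) = s i) ∧
    ∀ H : Subgroup G, (∀ i q, f i q ∈ H ↔ g i q ∈ H) →
      ∀ x : G, of x ∈ Subgroup.closure (of '' (H : Set G) ∪ Set.range r) → x ∈ H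

/-- TFHNN: HNN extensions of torsion-free groups are torsion-free. -/
def StmTFHNN : Prop := ∀ (G : Type) [Group G] (A B : Subgroup G) (φ : A ≃* B), TF G →
  TF (HNNExtension G A B φ)

/-- AMTOR: in `U *_E (E × C₅)` with `U` torsion-free, elements of order 5 are conjugate to powers of
`c`; the centraliser of `c ^ j` is `E × C₅`. -/
def StmAmTor : Prop := ∀ (E U : Type) [Group E] [Group U] (β : E →* U), TF U →
  Function.Injective β →
  (∀ y : Amal β, y ^ 5 = 1 → ∃ (p : Amal β) (j : Multiplicative (ZMod 5)),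
    p * y * p⁻¹ = Monoid.PushoutI.of (φ := famHom β) true ((1 : E), j)) ∧
  (∀ (j : Multiplicative (ZMod 5)), j ≠ 1 → ∀ y : Amal β,
    Commute y (Monoid.PushoutI.of (φ := famHom β) true ((1 : E), j)) →
    ∃ q : E × Multiplicative (ZMod 5), Monoid.PushoutI.of (φ := famHom β) true q = y) ∧
  Function.Injective (Monoid.PushoutI.of (φ := famHom β) true)

/-- BGISO: the groups `B_g × C₅` determine `g`. -/
def StmBgIso : Prop := ∀ a b : ℕ,
  Nonempty ((Bg (2 ^ (a + 1)) × Multiplicative (ZMod 5)) ≃*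
    (Bg (2 ^ (b + 1)) × Multiplicative (ZMod 5))) → a = b

end Pool.Agent.Helper739_ISO
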