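import Mathlib
import Pool.Agent.Y817.ISO.Stm
import Pool.Agent.Helper739_ISO.Stm2
set_option autoImplicit false
/-!
ISO-AMTOR (S14615): the amalgam `U *_E (E × C₅)` (`Monoid.PushoutI`): universal property, torsion and
centralisers. The lemmas on syllables are those of `Pool/Agent/TH103/VD/Syll.lean`.
-/
namespace Pool.Agent.Helper739_ISO.AmTor
open Pool.Agent.Y817.ISO Pool.Agent.Helper739_ISO

open Monoid Function

section

variable {E : Type} [Group E] {G : Bool → Type} [∀ b, Group (G b)] {φ : ∀ b, E →* G b}

/-- product of a list of syllables -/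
def pr (φ : ∀ b, E →* G b) (L : List (Σ b, G b)) : PushoutI φ :=
  (L.map fun s => PushoutI.of (φ := φ) s.1 s.2).prod

theorem pr_nil : pr φ [] = 1 := rfl

theorem pr_cons (s : Σ b, G b) (L : List (Σ b, G b)) :
    pr φ (s :: L) = PushoutI.of s.1 s.2 * pr φ L := by
  simp [pr]

theorem pr_append (L L' : List (Σ b, G b)) : pr φ (L ++ L') = pr φ L * pr φ L' := by
  simp [pr]

theorem exists_pr (z : PushoutI φ) : ∃ L, pr φ L = z := by
  induction z using PushoutI.induction_on with
  | of i g => exact ⟨[⟨i, g⟩], by simp [pr]⟩
  | base h => exact ⟨[⟨true, φ true h⟩], by simp [pr, PushoutI.of_apply_eq_base]⟩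
  | mul x y hx hy =>
    obtain ⟨L, rfl⟩ := hx
    obtain ⟨L', rfl⟩ := hy
    exact ⟨L ++ L', pr_append L L'⟩

/-- reducedness of a list of syllables -/
def Red (φ : ∀ b, E →* G b) (L : List (Σ b, G b)) : Prop :=
  (∀ s ∈ L, s.2 ∉ (φ s.1).range) ∧ L.IsChain (fun s t => Sigma.fst s ≠ Sigma.fst t)

theorem Red.ne_one (hφ : ∀ b, Function.Injective (φ b)) {L : List (Σ b, G b)} (h : Red φ L)
    (hne : L ≠ []) : pr φ L ≠ 1 := by
  intro h1
  let w : CoprodI.Word G := ⟨L, fun s hs h2 => h.1 s hs (by rw [h2]; exact Subgroup.one_mem _), h.2⟩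
  have hw : PushoutI.ofCoprodI (φ := φ) w.prod = pr φ L := by
    change PushoutI.ofCoprodI (φ := φ) (L.map fun s => CoprodI.of s.2).prod = _
    rw [map_list_prod, List.map_map]
    congr 1
  have : w = CoprodI.Word.empty := PushoutI.Reduced.eq_empty_of_mem_range hφ (w := w) h.1 (by
    rw [hw, h1]
    exact Subgroup.one_mem _)
  exact hne (congrArg CoprodI.Word.toList this)

theorem not_chain {α : Type} {R : α → α → Prop} (L : List α) (h : ¬ L.IsChain R) :
    ∃ L1 a b L2, L = L1 ++ a :: b :: L2 ∧ ¬ R a b := by
  induction L with
  | nil => exact absurd List.IsChain.nil h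
  | cons a L ih =>
    cases L with
    | nil => exact absurd (List.IsChain.singleton a) h
    | cons b L =>
      by_cases hab : R a b
      · have : ¬ (b :: L).IsChain R := fun h' => h (List.IsChain.cons_cons hab h')
        obtain ⟨L1, c, d, L2, h1, h2⟩ := ih this
        exact ⟨a :: L1, c, d, L2, by rw [h1]; rfl, h2⟩
      · exact ⟨[], a, b, L, rfl, hab⟩

/-- absorbing an element of the base group -/
theorem absorb (e : E) (L : List (Σ b, G b)) (hL : L ≠ []) :
    ∃ L' : List (Σ b, G b), L'.length = L.length ∧ pr φ L' = PushoutI.base φ e * pr φ L := by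
  cases L with
  | nil => exact absurd rfl hL
  | cons s L =>
    refine ⟨⟨s.1, φ s.1 e * s.2⟩ :: L, rfl, ?_⟩
    rw [pr_cons, pr_cons]
    change PushoutI.of s.1 (φ s.1 e * s.2) * _ = _
    rw [map_mul, PushoutI.of_apply_eq_base, mul_assoc]

theorem absorb' (e : E) (L : List (Σ b, G b)) (hL : L ≠ []) :
    ∃ L' : List (Σ b, G b), L'.length = L.length ∧ pr φ L' = pr φ L * PushoutI.base φ e := by
  rcases List.eq_nil_or_concat L with h | ⟨M, s, rfl⟩
  · exact absurd h hL
  · refine ⟨M ++ [⟨s.1, s.2 * φ s.1 e⟩], by simp, ?_⟩
    rw [List.concat_eq_append, pr_append, pr_append, pr_cons, pr_cons, pr_nil, mul_one, mul_one]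
    change _ * PushoutI.of s.1 (s.2 * φ s.1 e) = _
    rw [map_mul, PushoutI.of_apply_eq_base, mul_assoc]

/-- a shortest decomposition into at least two syllables is reduced -/
theorem red_of_min (L : List (Σ b, G b)) (h2 : 2 ≤ L.length)
    (hmin : ∀ L', pr φ L' = pr φ L → L.length ≤ L'.length) : Red φ L := by
  constructor
  · intro s hs hr
    obtain ⟨e, he⟩ := hr
    obtain ⟨L1, L2, h⟩ := List.append_of_mem hs
    have hb : PushoutI.of s.1 s.2 = PushoutI.base φ e := by
      rw [← he, PushoutI.of_apply_eq_base]
    by_cases hL2 : L2 = []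
    · subst hL2
      have hL1 : L1 ≠ [] := by
        rintro rfl
        rw [h] at h2
        simp at h2
      obtain ⟨L', hl, hp⟩ := absorb' (φ := φ) e L1 hL1
      have := hmin L' (by rw [hp, h, pr_append, pr_cons, pr_nil, mul_one, hb])
      rw [h, hl] at this
      simp at this
    · obtain ⟨L', hl, hp⟩ := absorb (φ := φ) e L2 hL2
      have := hmin (L1 ++ L') (by rw [h, pr_append, pr_append, pr_cons, hp, hb])
      rw [h] at this
      simp only [List.length_append, List.length_cons, hl] at this
      omega
  · by_contra hc
    obtain ⟨L1, a, b, L2, h1, h3⟩ := not_chain _ hc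
    obtain ⟨i, a⟩ := a
    obtain ⟨j, b⟩ := b
    simp only [ne_eq, not_not] at h3
    subst h3
    have := hmin (L1 ++ ⟨i, a * b⟩ :: L2) (by
      rw [h1, pr_append, pr_append, pr_cons, pr_cons, pr_cons]
      change _ * (PushoutI.of i (a * b) * _) = _ * (PushoutI.of i a * (PushoutI.of i b * _))
      rw [map_mul, mul_assoc])
    rw [h1] at this
    simp only [List.length_append, List.length_cons] at this
    omega

/-- repetition of a list -/
def rep (L : List (Σ b, G b)) : ℕ → List (Σ b, G b)
  | 0 => []
  | n + 1 => L ++ rep L n

theorem pr_rep (L : List (Σ b, G b)) (n : ℕ) : pr φ (rep L n) = pr φ L ^ n := by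
  induction n with
  | zero => rw [pow_zero]; rfl
  | succ n ih => rw [rep, pr_append, ih, pow_succ']

theorem mem_rep {L : List (Σ b, G b)} {n : ℕ} {s : Σ b, G b} (h : s ∈ rep L n) : s ∈ L := by
  induction n with
  | zero => exact absurd h List.not_mem_nil
  | succ n ih =>
    rcases List.mem_append.mp h with h | h
    · exact h
    · exact ih h

theorem exists_red_conj (z : PushoutI φ) :
    ∃ (c : PushoutI φ) (L : List (Σ b, G b)), pr φ L = c⁻¹ * z * c ∧
      (L.length ≤ 1 ∨ ∀ n, Red φ (rep L n)) := by
  classical
  have hex : ∃ n, ∃ (c : PushoutI φ) (L : List (Σ b, G b)), L.length = n ∧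
      pr φ L = c⁻¹ * z * c := by
    obtain ⟨L, hL⟩ := exists_pr z
    exact ⟨L.length, 1, L, rfl, by simp [hL]⟩
  obtain ⟨c, L, hn, hL⟩ := Nat.find_spec hex
  have hmin : ∀ (c : PushoutI φ) (L' : List (Σ b, G b)), pr φ L' = c⁻¹ * z * c →
      L.length ≤ L'.length := by
    intro c L' h
    rw [hn]
    exact Nat.find_min' hex ⟨c, L', rfl, h⟩
  refine ⟨c, L, hL, ?_⟩
  by_cases h2 : L.length ≤ 1
  · exact Or.inl h2
  right
  have hred : Red φ L := red_of_min L (by omega) (fun L' h => hmin c L' (by rw [h, hL]))
  -- first and last syllables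
  have hcyc : ∀ u s, u ∈ L.getLast? → s ∈ L.head? → u.1 ≠ s.1 := by
    intro u s hu hs h
    obtain ⟨i, u⟩ := u
    obtain ⟨j, s⟩ := s
    simp only at h
    subst h
    cases L with
    | nil => simp at h2
    | cons s' M =>
      simp only [List.head?_cons, Option.mem_def, Option.some.injEq] at hs
      subst hs
      have hM : M ≠ [] := by
        rintro rfl
        simp at h2
      have hlast : M.getLast? = some ⟨i, u⟩ := by
        rw [List.getLast?_cons_of_ne_nil hM] at hu
        exact hu
      obtain ⟨N, hN⟩ : ∃ N, M = N ++ [⟨i, u⟩] := by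
        refine ⟨M.dropLast, ?_⟩
        have h5 := List.dropLast_append_getLast hM
        have h6 : M.getLast hM = ⟨i, u⟩ := by
          rw [List.getLast?_eq_some_getLast hM] at hlast
          exact Option.some.inj hlast
        rw [h6] at h5
        exact h5.symm
      have := hmin (c * PushoutI.of i s) (N ++ [⟨i, u * s⟩]) (by
        have e1 : pr φ (⟨i, s⟩ :: M) = PushoutI.of i s * (pr φ N * PushoutI.of i u) := by
          rw [pr_cons, hN, pr_append, pr_cons, pr_nil, mul_one]
        rw [hL] at e1
        rw [pr_append, pr_cons, pr_nil, mul_one]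
        change pr φ N * PushoutI.of i (u * s) = _
        rw [map_mul]
        have e2 : (c * PushoutI.of i s)⁻¹ * z * (c * PushoutI.of i s) =
            (PushoutI.of i s)⁻¹ * (c⁻¹ * z * c) * PushoutI.of i s := by group
        rw [e2, e1]
        group)
      rw [hN] at this
      simp only [List.length_append, List.length_cons] at this
      omega
  intro n
  refine ⟨fun s hs => hred.1 s (mem_rep hs), ?_⟩
  induction n with
  | zero => exact List.IsChain.nil
  | succ n ih =>
    rw [rep, List.isChain_append]
    refine ⟨hred.2, ih, ?_⟩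
    intro x hx y hy
    cases n with
    | zero => simp [rep] at hy
    | succ n =>
      refine hcyc x y hx ?_
      have hLne : L ≠ [] := by
        rintro rfl
        simp at h2
      rw [rep, List.head?_append_of_ne_nil _ hLne] at hy
      exact hy


/-- the inverse list -/
def inv (L : List (Σ b, G b)) : List (Σ b, G b) := (L.map fun s => ⟨s.1, s.2⁻¹⟩).reverse

theorem pr_inv (L : List (Σ b, G b)) : pr φ (inv L) = (pr φ L)⁻¹ := by
  induction L with
  | nil => simp [inv, pr]
  | cons s L ih =>
    have h1 : inv (s :: L) = inv L ++ [⟨s.1, s.2⁻¹⟩] := by simp [inv]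
    rw [h1, pr_append, ih, pr_cons, pr_cons, pr_nil, mul_one, mul_inv_rev]
    simp

theorem Red.inv {L : List (Σ b, G b)} (h : Red φ L) : Red φ (inv L) := by
  constructor
  · intro s hs
    rw [AmTor.inv, List.mem_reverse, List.mem_map] at hs
    obtain ⟨t, ht, rfl⟩ := hs
    intro h2
    exact h.1 t ht ((Subgroup.inv_mem_iff _).1 h2)
  · rw [AmTor.inv, List.isChain_reverse, List.isChain_map]
    exact h.2.imp (fun a b hab => Ne.symm hab)

end


/-- the homomorphism from `C₅` given by an element of order dividing `5` -/
theorem exists_c5 {H : Type} [Group H] (c : H) (hc : c ^ 5 = 1) :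
    ∃ κ : Multiplicative (ZMod 5) →* H, κ (Multiplicative.ofAdd 1) = c := by
  let f : ℤ →+ Additive H := zmultiplesHom (Additive H) (Additive.ofMul c)
  have hf : f 5 = 0 := by
    change (5 : ℤ) • (Additive.ofMul c) = 0
    have : (5 : ℤ) • (Additive.ofMul c) = Additive.ofMul (c ^ 5) := by
      rw [ofMul_pow]
      exact natCast_zsmul (Additive.ofMul c) 5
    rw [this, hc, ofMul_one]
  let g : ZMod 5 →+ Additive H := ZMod.lift 5 ⟨f, hf⟩
  refine ⟨AddMonoidHom.toMultiplicativeLeft g, ?_⟩
  change (g 1).toMul = c
  have h1 : g ((1 : ℤ) : ZMod 5) = f 1 := ZMod.lift_coe 5 ⟨f, hf⟩ 1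
  rw [Int.cast_one] at h1
  rw [h1]
  change ((1 : ℤ) • (Additive.ofMul c)).toMul = c
  rw [one_zsmul]
  rfl

theorem amup : StmAmUP := by
  intro E U _ _ β
  let ο : U →* Amal β := PushoutI.of (φ := famHom β) false
  let τ : E × Multiplicative (ZMod 5) →* Amal β := PushoutI.of (φ := famHom β) true
  have hbase : ∀ e, τ (e, 1) = ο (β e) := by
    intro e
    have h1 : PushoutI.of (φ := famHom β) true (famHom β true e) = PushoutI.base _ e :=
      PushoutI.of_apply_eq_base (famHom β) true e
    have h2 : PushoutI.of (φ := famHom β) false (famHom β false e) = PushoutI.base _ e :=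
      PushoutI.of_apply_eq_base (famHom β) false e
    exact h1.trans h2.symm
  refine ⟨ο, τ (1, Multiplicative.ofAdd 1), ?_, ?_, ?_, ?_⟩
  · rw [← map_pow]
    have : ((1, Multiplicative.ofAdd 1) : E × Multiplicative (ZMod 5)) ^ 5 = 1 := by
      apply Prod.ext
      · simp
      · change (Multiplicative.ofAdd (1 : ZMod 5)) ^ 5 = 1
        rw [← ofAdd_nsmul]
        rfl
    rw [this, map_one]
  · intro e
    rw [← hbase]
    change _ * _ = _ * _
    rw [← map_mul, ← map_mul]
    simp
  · rw [eq_top_iff]
    intro x _
    have hο : ∀ u, ο u ∈ Subgroup.closure (Set.range ο ∪ {τ (1, Multiplicative.ofAdd 1)}) :=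
      fun u => Subgroup.subset_closure (Or.inl ⟨u, rfl⟩)
    have hτ : ∀ q, τ q ∈ Subgroup.closure (Set.range ο ∪ {τ (1, Multiplicative.ofAdd 1)}) := by
      rintro ⟨e, j⟩
      have h1 : ((e, j) : E × Multiplicative (ZMod 5)) =
          (e, 1) * (1, Multiplicative.ofAdd 1) ^ (j.toAdd.val) := by
        apply Prod.ext
        · simp
        · change j = 1 * (Multiplicative.ofAdd (1 : ZMod 5)) ^ (j.toAdd.val)
          rw [one_mul, ← ofAdd_nsmul, nsmul_one, ZMod.natCast_zmod_val]
          rfl
      rw [h1, map_mul, map_pow, hbase]
      have hc : τ (1, Multiplicative.ofAdd 1) ∈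
          Subgroup.closure (Set.range ο ∪ {τ (1, Multiplicative.ofAdd 1)}) :=
        Subgroup.subset_closure (Or.inr (Set.mem_singleton _))
      exact Subgroup.mul_mem _ (hο _) (Subgroup.pow_mem _ hc _)
    induction x using PushoutI.induction_on with
    | of i g =>
      cases i with
      | false => exact hο g
      | true => exact hτ g
    | base h =>
      rw [← PushoutI.of_apply_eq_base (famHom β) false h]
      exact hο _
    | mul x y hx hy => exact Subgroup.mul_mem _ (hx trivial) (hy trivial)
  · intro H _ φ c' hc hcomm
    obtain ⟨κ, hκ⟩ := exists_c5 c' hc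
    have hcm : ∀ e j, Commute ((φ.comp β) e) (κ j) := by
      intro e j
      have h1 : j = (Multiplicative.ofAdd (1 : ZMod 5)) ^ (j.toAdd.val) := by
        rw [← ofAdd_nsmul, nsmul_one, ZMod.natCast_zmod_val]
        rfl
      rw [h1, map_pow, hκ]
      exact ((hcomm e).symm).pow_right _
    let F : ∀ b, Fam E U b →* H := fun b => match b with
      | false => φ
      | true => MonoidHom.noncommCoprod (φ.comp β) κ hcm
    have hF : ∀ b, (F b).comp (famHom β b) = φ.comp β := by
      intro b
      cases b with
      | false => rfl
      | true =>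
        ext e
        change MonoidHom.noncommCoprod (φ.comp β) κ hcm (e, 1) = _
        rw [MonoidHom.noncommCoprod_apply, map_one, mul_one]
    refine ⟨PushoutI.lift F (φ.comp β) hF, ?_, ?_⟩
    · intro x
      exact PushoutI.lift_of F (φ.comp β) hF (i := false) x
    · have h1 : PushoutI.lift F (φ.comp β) hF (PushoutI.of (φ := famHom β) true
          ((1, Multiplicative.ofAdd 1) : E × Multiplicative (ZMod 5))) = F true
            ((1, Multiplicative.ofAdd 1) : E × Multiplicative (ZMod 5)) :=
        PushoutI.lift_of F (φ.comp β) hF (i := true)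
          ((1, Multiplicative.ofAdd 1) : E × Multiplicative (ZMod 5))
      refine h1.trans ?_
      change MonoidHom.noncommCoprod (φ.comp β) κ hcm (1, Multiplicative.ofAdd 1) = _
      rw [MonoidHom.noncommCoprod_apply, map_one, one_mul, hκ]

theorem amtor : StmAmTor := by
  intro E U _ _ β hU hβ
  have hφ : ∀ b, Function.Injective (famHom β b) := by
    intro b
    cases b with
    | false => exact hβ
    | true =>
      intro x y h
      exact (Prod.mk.injEq _ _ _ _ ▸ h : _ ∧ _).1
  refine ⟨?_, ?_, PushoutI.of_injective hφ true⟩
  · intro y hy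
    obtain ⟨c, L, hL, h⟩ := exists_red_conj y
    have hLn : pr (famHom β) L ^ 5 = 1 := by
      rw [hL]
      have : (c⁻¹ * y * c) ^ 5 = c⁻¹ * y ^ 5 * c := by
        have := conj_pow (a := c⁻¹) (b := y) (i := 5)
        rw [inv_inv] at this
        exact this
      rw [this, hy]
      group
    by_cases h1 : L.length ≤ 1
    · match L, h1 with
      | [], _ =>
        refine ⟨c⁻¹, 1, ?_⟩
        rw [inv_inv, ← hL, pr_nil]
        exact (map_one _).symm
      | [⟨false, u⟩], _ =>
        rw [pr_cons, pr_nil, mul_one, ← map_pow] at hLn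
        have h1 : (u : U) ^ 5 = 1 := by
          apply PushoutI.of_injective hφ false
          rw [map_one]
          exact hLn
        have h2 : (u : U) = 1 := hU u (isOfFinOrder_iff_pow_eq_one.2 ⟨5, by norm_num, h1⟩)
        refine ⟨c⁻¹, 1, ?_⟩
        rw [inv_inv, ← hL, pr_cons, pr_nil, mul_one]
        have h3 : (⟨false, u⟩ : Σ b, Fam E U b) = ⟨false, (1 : Fam E U false)⟩ := by
          congr 1
        rw [h3]
        simp only [map_one]
        exact (map_one _).symm
      | [⟨true, q⟩], _ =>
        rw [pr_cons, pr_nil, mul_one, ← map_pow] at hLn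
        have h1 : (q : Fam E U true) ^ 5 = 1 := by
          apply PushoutI.of_injective hφ true
          rw [map_one]
          exact hLn
        obtain ⟨e, j⟩ := q
        have h2 : e ^ 5 = 1 := congrArg Prod.fst h1
        have h3 : β e = 1 := hU _ (isOfFinOrder_iff_pow_eq_one.2 ⟨5, by norm_num, by
          rw [← map_pow, h2, map_one]⟩)
        have h4 : e = 1 := hβ (by rw [h3, map_one])
        subst h4
        refine ⟨c⁻¹, j, ?_⟩
        rw [inv_inv, ← hL, pr_cons, pr_nil, mul_one]
    · exfalso
      have h := h.resolve_left h1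
      refine (h 5).ne_one hφ ?_ ?_
      · rw [rep]
        intro h3
        rw [(List.append_eq_nil_iff.mp h3).1] at h1
        simp at h1
      · rw [pr_rep]
        exact hLn
  · intro j hj y hy
    classical
    by_contra hcon
    push Not at hcon
    -- the centraliser of `d` contains the range of `of true`
    have hτd : ∀ q : Fam E U true, Commute (PushoutI.of (φ := famHom β) true q)
        (PushoutI.of (φ := famHom β) true ((1 : E), j)) := by
      intro q
      let q' : Fam E U true := (((1 : E), j) : E × Multiplicative (ZMod 5))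
      have h1 : q * q' = q' * q := by
        obtain ⟨e, k⟩ := q
        apply Prod.ext
        · change e * 1 = 1 * e
          rw [mul_one, one_mul]
        · exact mul_comm _ _
      change _ * _ = _ * _
      refine (map_mul _ _ _).symm.trans ?_
      refine Eq.trans ?_ (map_mul _ _ _)
      exact congrArg _ h1
    have hjr : ∀ j' : Multiplicative (ZMod 5), j' ≠ 1 →
        ((((1 : E), j') : E × Multiplicative (ZMod 5)) : Fam E U true) ∉
          (famHom β true).range := by
      rintro j' hj' ⟨e, he⟩
      exact hj' (congrArg Prod.snd he).symm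
    have hex : ∃ n, ∃ (a b : Fam E U true) (L : List (Σ b, Fam E U b)), L.length = n ∧
        pr (famHom β) L = PushoutI.of (φ := famHom β) true a * y *
          PushoutI.of (φ := famHom β) true b := by
      obtain ⟨L, hL⟩ := exists_pr y
      exact ⟨L.length, 1, 1, L, rfl, by rw [hL, map_one, one_mul, mul_one]⟩
    obtain ⟨a, b, L, hn, hL⟩ := Nat.find_spec hex
    have hmin : ∀ (a b : Fam E U true) (L' : List (Σ b, Fam E U b)),
        pr (famHom β) L' = PushoutI.of (φ := famHom β) true a * y *
          PushoutI.of (φ := famHom β) true b → L.length ≤ L'.length := by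
      intro a b L' h
      rw [hn]
      exact Nat.find_min' hex ⟨a, b, L', rfl, h⟩
    have hyr : ∀ q : Fam E U true, PushoutI.of (φ := famHom β) true q ≠
        PushoutI.of (φ := famHom β) true a * y * PushoutI.of (φ := famHom β) true b := by
      intro q hq
      refine hcon (a⁻¹ * q * b⁻¹) ?_
      have h1 : PushoutI.of (φ := famHom β) true (a⁻¹ * q * b⁻¹) = y := by
        rw [map_mul, map_mul, map_inv, map_inv, hq]
        group
      exact h1
    have hLne : L ≠ [] := by
      rintro rfl
      refine hyr 1 ?_
      rw [← hL, map_one, pr_nil]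
    -- the first syllable
    have hfirst : ∀ s ∈ L.head?, s.1 = false := by
      rintro ⟨i, s⟩ hs
      cases i with
      | false => rfl
      | true =>
        exfalso
        cases L with
        | nil => exact hLne rfl
        | cons s' M =>
          simp only [List.head?_cons, Option.mem_def, Option.some.injEq] at hs
          subst hs
          have := hmin (s⁻¹ * a) b M (by
            rw [pr_cons] at hL
            rw [map_mul, map_inv, mul_assoc, mul_assoc, ← mul_assoc (PushoutI.of true a), ← hL]
            simp)
          simp at this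
    have hlast : ∀ s ∈ L.getLast?, s.1 = false := by
      rintro ⟨i, s⟩ hs
      cases i with
      | false => rfl
      | true =>
        exfalso
        rcases List.eq_nil_or_concat L with h | ⟨M, s', rfl⟩
        · exact hLne h
        · rw [List.concat_eq_append] at hs hL hmin
          simp only [List.getLast?_append, List.getLast?_singleton, Option.some_or,
            Option.mem_def, Option.some.injEq] at hs
          subst hs
          have := hmin a (b * s⁻¹) M (by
            rw [pr_append, pr_cons, pr_nil, mul_one] at hL
            rw [map_mul, map_inv, ← mul_assoc, ← hL]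
            simp)
          simp at this
    have hred : Red (famHom β) L := by
      by_cases h2 : 2 ≤ L.length
      · exact red_of_min L h2 (fun L' h => hmin a b L' (by rw [h, hL]))
      · rcases L with _ | ⟨s, _ | ⟨t, L⟩⟩
        · exact absurd rfl hLne
        · refine ⟨?_, List.IsChain.singleton _⟩
          intro s' hs'
          rw [List.mem_singleton] at hs'
          subst hs'
          rintro ⟨e, he⟩
          refine hyr (famHom β true e) ?_
          rw [← hL, pr_cons, pr_nil, mul_one, ← he, PushoutI.of_apply_eq_base,
            PushoutI.of_apply_eq_base]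
        · exfalso
          simp only [List.length_cons] at h2
          omega
    -- the relation
    set d : Amal β := PushoutI.of (φ := famHom β) true ((1 : E), j) with hd
    have hcd : Commute (pr (famHom β) L) d := by
      rw [hL]
      exact ((hτd a).mul_left hy).mul_left (hτd b)
    have hrel : pr (famHom β) (inv L ++ (⟨true, ((1 : E), j)⟩ ::
        (L ++ [⟨true, ((1 : E), j⁻¹)⟩]))) = 1 := by
      rw [pr_append, pr_cons, pr_append, pr_cons, pr_nil, mul_one, pr_inv]
      have h1 : PushoutI.of (φ := famHom β) true
          ((((1 : E), j⁻¹) : E × Multiplicative (ZMod 5)) : Fam E U true) = d⁻¹ := by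
        let q' : Fam E U true := (((1 : E), j) : E × Multiplicative (ZMod 5))
        have h2 : ((((1 : E), j⁻¹) : E × Multiplicative (ZMod 5)) : Fam E U true) = q'⁻¹ := by
          apply Prod.ext
          · exact inv_one.symm
          · rfl
        refine Eq.trans ?_ (map_inv (PushoutI.of (φ := famHom β) true) q')
        exact congrArg _ h2
      change (pr (famHom β) L)⁻¹ * (d * (pr (famHom β) L * PushoutI.of (φ := famHom β) true
          ((((1 : E), j⁻¹) : E × Multiplicative (ZMod 5)) : Fam E U true))) = 1
      rw [h1, ← mul_assoc d, ← hcd.eq]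
      group
    refine Red.ne_one hφ ?_ ?_ hrel
    · refine ⟨?_, ?_⟩
      · intro s hs
        simp only [List.mem_append, List.mem_cons, List.not_mem_nil, or_false] at hs
        rcases hs with hs | rfl | hs | rfl
        · exact hred.inv.1 s hs
        · exact hjr j hj
        · exact hred.1 s hs
        · exact hjr _ (inv_ne_one.2 hj)
      · rw [List.isChain_append]
        refine ⟨hred.inv.2, ?_, ?_⟩
        · rw [List.isChain_cons]
          refine ⟨?_, ?_⟩
          · intro z hz
            rw [List.head?_append_of_ne_nil _ hLne] at hz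
            rw [hfirst z hz]
            simp
          · rw [List.isChain_append]
            refine ⟨hred.2, List.IsChain.singleton _, ?_⟩
            intro x hx y hy
            simp only [List.head?_cons, Option.mem_def, Option.some.injEq] at hy
            subst hy
            rw [hlast x hx]
            simp
        · intro x hx y hy
          simp only [List.head?_cons, Option.mem_def, Option.some.injEq] at hy
          subst hy
          rw [inv, List.getLast?_reverse, List.head?_map] at hx
          simp only [Option.mem_def, Option.map_eq_some_iff] at hx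
          obtain ⟨z, hz, rfl⟩ := hx
          simp only
          rw [hfirst z hz]
          simp
    · simp

end Pool.Agent.Helper739_ISO.AmTor
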