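import Mathlib
import Pool.Agent.Y817.ISO.Stm
set_option autoImplicit false
/-!
JOB ISO-BASE (helper739, S14615). The base group G0 P J = FreeGroup (P × (J → ℤ)) ⋊ (J → ℤ). Copy
Pool/Agent/Y817/ISO/Stm.lean (and its imports Helper844/*) from the starting tree.

PROOF. Key computation: T (X0 P J) t0 p v = inl (of (p, v))  (inr z * inl n * (inr z)⁻¹ = inl (act z n) and
act v (of (p, n)) = of (p, n - v)).
TF: if (n, z)^k = 1, k > 0, then k•z = 0 in J → ℤ, so z = 0, so n^k = 1 in a free group, so n = 1
(free groups are torsion-free: `FreeGroup` has an instance/theorem, e.g. `FreeGroup.infinite_order` or IsMulTorsionFree).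
Closure: contains all X and, conjugating t0 p, all inl (of (p, v)), so all inl n and all inr z.
Universal property: `SemidirectProduct.lift (FreeGroup.lift (fun pv => T X t pv.1 pv.2)) X _`; the compatibility is
checked on free generators.
Embedding: apply the universal property of G0 Unit (Fin d) to X := X0 P J ∘ μ and t := T (X0 P J) t0 p a to get f. Then
f (inl (of ((), w))) = inl (of (p, a + μ w)), so f (n, z) = (FreeGroup.map ι n, μ z) with ι ((), w) = (p, a + μ w) injective;
FreeGroup.map of an injective map is injective, and μ is injective, so f is injective.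
-/
namespace Pool.Agent.Helper739_ISO.Base
open Pool.Agent.Y817.ISO

theorem T_eq (P J : Type) (p : P) (v : J → ℤ) :
    T (X0 P J) (t0 : P → G0 P J) p v = SemidirectProduct.inl (FreeGroup.of (p, v)) := by
  have h := SemidirectProduct.inl_aut (φ := act P J) (Multiplicative.ofAdd v)⁻¹
    (FreeGroup.of (p, (0 : J → ℤ)))
  have h2 : act P J (Multiplicative.ofAdd v)⁻¹ (FreeGroup.of (p, (0 : J → ℤ))) =
      FreeGroup.of (p, v) := by
    simp [act, tr]
  rw [h2] at h
  rw [h]
  unfold T X0 t0
  simp

theorem tf (P J : Type) : TF (G0 P J) := by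
  intro x hx
  obtain ⟨k, hk, hx⟩ := isOfFinOrder_iff_pow_eq_one.1 hx
  have h1 : x.right = 1 := by
    have h2 : (SemidirectProduct.rightHom x) ^ k = 1 := by
      rw [← map_pow, hx, map_one]
    have h3 : (x.right) ^ k = 1 := h2
    have h4 : k • (Multiplicative.toAdd x.right) = 0 := by
      have := congrArg Multiplicative.toAdd h3
      rw [toAdd_pow] at this
      exact this
    have h5 : Multiplicative.toAdd x.right = 0 := by
      funext j
      have := congrFun h4 j
      simp only [Pi.smul_apply, Pi.zero_apply, smul_eq_zero] at this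
      rcases this with h | h
      · omega
      · exact h
    exact h5
  have h6 : x = SemidirectProduct.inl x.left := by
    apply SemidirectProduct.ext
    · simp
    · simp [h1]
  rw [h6, ← map_pow] at hx
  have h7 : x.left ^ k = 1 := by
    apply SemidirectProduct.inl_injective (φ := act P J)
    rw [hx, map_one]
  have h8 : x.left = 1 := by
    apply IsMulTorsionFree.pow_left_injective (n := k) hk.ne'
    simp only
    rw [h7, one_pow]
  rw [h6, h8, map_one]

theorem clos (P J : Type) :
    Subgroup.closure (Set.range (X0 P J) ∪ Set.range (t0 : P → G0 P J)) = ⊤ := by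
  set K := Subgroup.closure (Set.range (X0 P J) ∪ Set.range (t0 : P → G0 P J)) with hK
  have hX : ∀ v, X0 P J v ∈ K := fun v => Subgroup.subset_closure (Or.inl ⟨v, rfl⟩)
  have ht : ∀ p, (t0 p : G0 P J) ∈ K := fun p => Subgroup.subset_closure (Or.inr ⟨p, rfl⟩)
  have h1 : ∀ n, (SemidirectProduct.inl n : G0 P J) ∈ K := by
    have : Subgroup.comap (SemidirectProduct.inl : FreeGroup (P × (J → ℤ)) →* G0 P J) K = ⊤ := by
      rw [eq_top_iff, ← FreeGroup.closure_range_of, Subgroup.closure_le]
      rintro _ ⟨⟨p, v⟩, rfl⟩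
      simp only [Subgroup.coe_comap, Set.mem_preimage, SetLike.mem_coe]
      rw [← T_eq]
      exact K.mul_mem (K.mul_mem (K.inv_mem (hX _)) (ht _)) (hX _)
    intro n
    have h2 : n ∈ Subgroup.comap (SemidirectProduct.inl : FreeGroup (P × (J → ℤ)) →* G0 P J) K := by
      rw [this]
      trivial
    exact h2
  rw [eq_top_iff]
  intro x _
  rw [← SemidirectProduct.inl_left_mul_inr_right x]
  exact K.mul_mem (h1 _) (hX _)

theorem univ (P J H : Type) [Group H] (X : Multiplicative (J → ℤ) →* H) (t : P → H) :
    ∃ Φ : G0 P J →* H, (∀ v, Φ (X0 P J v) = X v) ∧ ∀ p, Φ (t0 p) = t p := by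
  have key : ∀ g, (FreeGroup.lift (fun pv : P × (J → ℤ) => T X t pv.1 pv.2)).comp
      (act P J g).toMonoidHom = (MulAut.conj (X g)).toMonoidHom.comp
        (FreeGroup.lift (fun pv : P × (J → ℤ) => T X t pv.1 pv.2)) := by
    intro g
    apply FreeGroup.ext_hom
    rintro ⟨p, v⟩
    simp only [MonoidHom.comp_apply, MulEquiv.coe_toMonoidHom, act, MonoidHom.coe_mk, OneHom.coe_mk,
      FreeGroup.freeGroupCongr_apply, FreeGroup.map.of, FreeGroup.lift_apply_of, MulAut.conj_apply,
      tr, Equiv.coe_fn_mk]
    unfold T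
    have : Multiplicative.ofAdd (v - Multiplicative.toAdd g) = Multiplicative.ofAdd v * g⁻¹ := by
      rw [ofAdd_sub, div_eq_mul_inv]
      rfl
    rw [this, map_mul, map_inv]
    rw [mul_inv_rev, inv_inv]
    simp only [mul_assoc]
  refine ⟨SemidirectProduct.lift (FreeGroup.lift (fun pv : P × (J → ℤ) => T X t pv.1 pv.2)) X key,
    ?_, ?_⟩
  · intro v
    exact SemidirectProduct.lift_inr _ _ key v
  · intro p
    unfold t0
    rw [SemidirectProduct.lift_inl, FreeGroup.lift_apply_of]
    unfold T
    simp

theorem emb (P J : Type) (d : ℕ) (μ : (Fin d → ℤ) →+ (J → ℤ)) (hμ : Function.Injective μ) (p : P)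
    (a : J → ℤ) :
    ∃ f : G0 Unit (Fin d) →* G0 P J, Function.Injective f ∧
      (∀ w : Fin d → ℤ, f (X0 Unit (Fin d) (Multiplicative.ofAdd w)) =
        X0 P J (Multiplicative.ofAdd (μ w))) ∧
      f (t0 ()) = T (X0 P J) t0 p a := by
  have hι : Function.Injective (fun q : Unit × (Fin d → ℤ) => (p, a + μ q.2)) := by
    rintro ⟨⟨⟩, w⟩ ⟨⟨⟩, w'⟩ h
    simp only [Prod.mk.injEq, add_right_inj, true_and] at h
    rw [hμ h]
  have key : ∀ g, (FreeGroup.map (fun q : Unit × (Fin d → ℤ) => (p, a + μ q.2))).comp
      (act Unit (Fin d) g).toMonoidHom =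
      (act P J (AddMonoidHom.toMultiplicative μ g)).toMonoidHom.comp
        (FreeGroup.map (fun q : Unit × (Fin d → ℤ) => (p, a + μ q.2))) := by
    intro g
    apply FreeGroup.ext_hom
    rintro ⟨⟨⟩, v⟩
    simp only [MonoidHom.comp_apply, MulEquiv.coe_toMonoidHom, act, MonoidHom.coe_mk, OneHom.coe_mk,
      FreeGroup.freeGroupCongr_apply, FreeGroup.map.of, tr, Equiv.coe_fn_mk]
    rw [map_sub]
    have : Multiplicative.toAdd (AddMonoidHom.toMultiplicative μ g) = μ (Multiplicative.toAdd g) :=
      rfl
    rw [this, add_sub_assoc]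
  refine ⟨SemidirectProduct.map _ _ key, ?_, ?_, ?_⟩
  · intro x y hxy
    have h1 := congrArg SemidirectProduct.left hxy
    have h2 := congrArg SemidirectProduct.right hxy
    simp only [SemidirectProduct.map_left, SemidirectProduct.map_right] at h1 h2
    apply SemidirectProduct.ext
    · exact FreeGroup.map_injective hι h1
    · exact hμ h2
  · intro w
    exact SemidirectProduct.map_inr _ _ key _
  · rw [T_eq]
    unfold t0
    rw [SemidirectProduct.map_inl, FreeGroup.map.of]
    simp

theorem base : StmBase := by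
  intro P J _
  exact ⟨tf P J, clos P J, fun H _ X t => univ P J H X t, fun d μ hμ p a => emb P J d μ hμ p a⟩

end Pool.Agent.Helper739_ISO.Base
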