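import Mathlib
import Pool.Agent.Y817.ISO.Stm
import Pool.Agent.Helper739_ISO.Stm2
set_option autoImplicit false
/-!
# The groups `B_g × C₅` determine `g` (job ISO-BGISO)

Central elements of `B_h` are detected with two homomorphisms to wreath products: `z ↦` shift,
`t ↦` lamp in `ℤ ≀ ℤ/h`, and `z ↦` lamp, `t ↦` shift in `C₂ ≀ ℤ`.
-/
namespace Pool.Agent.Helper739_ISO.BgIso
open Pool.Agent.Y817.ISO Pool.Agent.Helper739_ISO

/-- One lamp on. -/
noncomputable def lamp (D Q : Type) [Group D] [Group Q] (d : D) : RegularWreathProduct D Q :=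
  ⟨fun x => by classical exact if x = 1 then d else 1, 1⟩

theorem right_eq_one {D Q : Type} [CommGroup D] [Group Q] {d : D} (hd : d ≠ 1)
    {q : RegularWreathProduct D Q} (h : Commute q (lamp D Q d)) : q.right = 1 := by
  have h1 : (q * lamp D Q d).left q.right = (lamp D Q d * q).left q.right := by
    rw [h.eq]
  rw [RegularWreathProduct.mul_left, RegularWreathProduct.mul_left] at h1
  simp only [lamp, Pi.mul_apply, inv_mul_cancel, if_true, inv_one, one_mul] at h1
  by_contra hne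
  rw [if_neg hne, one_mul] at h1
  exact hd (mul_eq_left.1 h1)

/-- The generator `z`. -/
def zz (g : ℤ) : Bg g := HNNExtension.of (Multiplicative.ofAdd 1)

/-- The generator `t`. -/
def tt (g : ℤ) : Bg g := HNNExtension.t

theorem bg_ext {g : ℤ} {M : Type} [Monoid M] {F G : Bg g →* M} (h1 : F (zz g) = G (zz g))
    (h2 : F (tt g) = G (tt g)) : F = G := by
  apply HNNExtension.hom_ext
  · exact MonoidHom.ext_mint h1
  · exact h2

/-- Exponent sum of `z`. -/
def θ (g : ℤ) : Bg g →* Multiplicative ℤ :=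
  HNNExtension.lift (MonoidHom.id _) 1 (by intro a; simp)

/-- Exponent sum of `t`. -/
def θ' (g : ℤ) : Bg g →* Multiplicative ℤ :=
  HNNExtension.lift 1 (Multiplicative.ofAdd 1) (by intro a; simp)

theorem θ_z (g : ℤ) : θ g (zz g) = Multiplicative.ofAdd 1 := by simp [θ, zz]
theorem θ_t (g : ℤ) : θ g (tt g) = 1 := by simp [θ, tt]
theorem θ'_z (g : ℤ) : θ' g (zz g) = 1 := by simp [θ', zz]
theorem θ'_t (g : ℤ) : θ' g (tt g) = Multiplicative.ofAdd 1 := by simp [θ', tt]

/-- `z ↦` shift, `t ↦` lamp. -/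
noncomputable def Φ₁ (h : ℕ) : Bg (h : ℤ) →*
    RegularWreathProduct (Multiplicative ℤ) (Multiplicative (ZMod h)) :=
  HNNExtension.lift
    (RegularWreathProduct.inl.comp (AddMonoidHom.toMultiplicative (Int.castAddHom (ZMod h))))
    (lamp _ _ (Multiplicative.ofAdd 1)) (by
      rintro ⟨a, ha⟩
      obtain ⟨k, rfl⟩ := Subgroup.mem_zpowers_iff.1 ha
      have : (AddMonoidHom.toMultiplicative (Int.castAddHom (ZMod h)))
          ((Multiplicative.ofAdd (h : ℤ)) ^ k) = 1 := by
        rw [← ofAdd_zsmul]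
        show Multiplicative.ofAdd (((k • (h : ℤ) : ℤ)) : ZMod h) = 1
        simp
      simp only [MonoidHom.comp_apply, MulEquiv.refl_apply]
      rw [this]
      simp)

theorem dvd_θ {h : ℕ} {y : Bg (h : ℤ)} (hy : Commute y (tt h)) : (h : ℤ) ∣ (θ h y).toAdd := by
  have h1 : Commute (Φ₁ h y) (lamp _ _ (Multiplicative.ofAdd (1 : ℤ))) := by
    have := hy.map (Φ₁ h)
    have e : Φ₁ h (tt h) = lamp _ _ (Multiplicative.ofAdd (1 : ℤ)) := by
      simp [Φ₁, tt]
    rwa [e] at this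
  have h2 := right_eq_one (by decide) h1
  have h3 : RegularWreathProduct.rightHom.comp (Φ₁ h) =
      (AddMonoidHom.toMultiplicative (Int.castAddHom (ZMod h))).comp (θ h) := by
    apply bg_ext
    · simp only [MonoidHom.comp_apply, θ_z]
      simp [Φ₁, zz]
    · simp only [MonoidHom.comp_apply, θ_t]
      simp [Φ₁, tt, lamp]
  have h4 := DFunLike.congr_fun h3 y
  simp only [MonoidHom.comp_apply] at h4
  have h5 : RegularWreathProduct.rightHom (Φ₁ h y) = (1 : Multiplicative (ZMod h)) := h2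
  rw [h5] at h4
  have h6 : (((θ h y).toAdd : ℤ) : ZMod h) = 0 := h4.symm
  exact (ZMod.intCast_zmod_eq_zero_iff_dvd _ _).1 h6

/-- `z ↦` lamp of order two, `t ↦` shift. -/
noncomputable def Φ₂ (h : ℤ) (hh : 2 ∣ h) : Bg h →*
    RegularWreathProduct (Multiplicative (ZMod 2)) (Multiplicative ℤ) :=
  HNNExtension.lift (zpowersHom _ (lamp _ _ (Multiplicative.ofAdd 1)))
    (RegularWreathProduct.inl (Multiplicative.ofAdd 1)) (by
      rintro ⟨a, ha⟩
      obtain ⟨k, rfl⟩ := Subgroup.mem_zpowers_iff.1 ha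
      obtain ⟨m, rfl⟩ := hh
      have e : (lamp (Multiplicative (ZMod 2)) (Multiplicative ℤ) (Multiplicative.ofAdd 1)) ^ (2 : ℤ)
          = 1 := by
        rw [zpow_ofNat, pow_two]
        apply RegularWreathProduct.ext
        · funext x
          rw [RegularWreathProduct.mul_left]
          simp only [lamp, Pi.mul_apply, inv_one, one_mul]
          split_ifs
          · have : Multiplicative.ofAdd (1 : ZMod 2) * Multiplicative.ofAdd 1 = 1 := by decide
            exact this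
          · rfl
        · simp [lamp]
      have : (zpowersHom _ (lamp (Multiplicative (ZMod 2)) (Multiplicative ℤ)
          (Multiplicative.ofAdd 1))) ((Multiplicative.ofAdd (2 * m)) ^ k) = 1 := by
        rw [← ofAdd_zsmul, zpowersHom_apply, toAdd_ofAdd, smul_eq_mul,
          show k * (2 * m) = 2 * (m * k) by ring, zpow_mul, e, one_zpow]
      simp only [MulEquiv.refl_apply]
      rw [this]
      simp)

theorem θ'_eq {h : ℤ} (hh : 2 ∣ h) {y : Bg h} (hy : Commute y (zz h)) : θ' h y = 1 := by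
  have h1 : Commute (Φ₂ h hh y) (lamp _ _ (Multiplicative.ofAdd (1 : ZMod 2))) := by
    have := hy.map (Φ₂ h hh)
    have e : Φ₂ h hh (zz h) = lamp _ _ (Multiplicative.ofAdd (1 : ZMod 2)) := by
      simp [Φ₂, zz]
    rwa [e] at this
  have h2 := right_eq_one (by decide) h1
  have h3 : RegularWreathProduct.rightHom.comp (Φ₂ h hh) = θ' h := by
    apply bg_ext
    · rw [θ'_z]
      simp [Φ₂, zz, lamp]
    · rw [θ'_t]
      simp [Φ₂, tt]
  have h4 := DFunLike.congr_fun h3 y
  rw [← h4]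
  exact h2

/-- `z ^ g` is central. -/
theorem central (g : ℤ) (x : Bg g) : Commute (zz g ^ g) x := by
  have e : zz g ^ g = HNNExtension.of (Multiplicative.ofAdd g) := by
    rw [zz, ← map_zpow, ← ofAdd_zsmul]
    simp
  rw [e]
  induction x using HNNExtension.induction_on with
  | of y => exact (Commute.all _ y).map _
  | t =>
    have := HNNExtension.t_mul_of (G := Multiplicative ℤ)
      (A := Subgroup.zpowers (Multiplicative.ofAdd g))
      (B := Subgroup.zpowers (Multiplicative.ofAdd g)) (φ := MulEquiv.refl _)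
      ⟨Multiplicative.ofAdd g, Subgroup.mem_zpowers _⟩
    exact this.symm
  | mul x y hx hy => exact hx.mul_right hy
  | inv x hx => exact hx.inv_right

/-- A homomorphism from `B_g × C₅` to `ℤ` is determined by its values at `z`, `t`. -/
theorem hom_eq {g : ℤ} (F : Bg g × Multiplicative (ZMod 5) →* Multiplicative ℤ)
    (x : Bg g × Multiplicative (ZMod 5)) :
    (F x).toAdd = (θ g x.1).toAdd * (F (zz g, 1)).toAdd + (θ' g x.1).toAdd * (F (tt g, 1)).toAdd := by
  have h1 : F x = F (x.1, 1) * F (1, x.2) := by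
    rw [← map_mul]
    simp
  have h2 : F (1, x.2) = 1 := by
    have : (F (1, x.2)) ^ 5 = 1 := by
      rw [← map_pow]
      have : ((1 : Bg g), x.2) ^ 5 = 1 := by
        rw [Prod.pow_mk, one_pow]
        have : x.2 ^ 5 = 1 := by
          have h5 : ∀ u : Multiplicative (ZMod 5), u ^ 5 = 1 := by decide
          exact h5 _
        rw [this]; rfl
      rw [this, map_one]
    exact (pow_eq_one_iff_left (by norm_num)).1 this
  rw [h1, h2, mul_one]
  have h3 : F.comp (MonoidHom.inl (Bg g) (Multiplicative (ZMod 5))) =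
      ((zpowersHom _ (F (zz g, 1))).comp (θ g)) * ((zpowersHom _ (F (tt g, 1))).comp (θ' g)) := by
    apply bg_ext
    · simp [θ_z, θ'_z]
    · simp [θ_t, θ'_t]
  have h4 := DFunLike.congr_fun h3 x.1
  simp only [MonoidHom.comp_apply, MonoidHom.inl_apply, MonoidHom.mul_apply, zpowersHom_apply] at h4
  rw [h4, toAdd_mul, toAdd_zpow, toAdd_zpow, smul_eq_mul, smul_eq_mul]

theorem key {g : ℤ} {h : ℕ} (hg : g ≠ 0) (hh : 2 ∣ h)
    (Ψ : (Bg g × Multiplicative (ZMod 5)) ≃* (Bg (h : ℤ) × Multiplicative (ZMod 5))) :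
    (h : ℤ) ∣ g := by
  have hh' : (2 : ℤ) ∣ h := by exact_mod_cast hh
  set P : Bg g × Multiplicative (ZMod 5) →* Multiplicative ℤ :=
    ((θ h).comp (MonoidHom.fst _ _)).comp Ψ.toMonoidHom with hP
  set P' : Bg g × Multiplicative (ZMod 5) →* Multiplicative ℤ :=
    ((θ' h).comp (MonoidHom.fst _ _)).comp Ψ.toMonoidHom with hP'
  have ePx : ∀ x, P x = θ h (Ψ x).1 := fun x => rfl
  have ePx' : ∀ x, P' x = θ' h (Ψ x).1 := fun x => rfl
  -- the image of `z ^ g` is central
  have hc : ∀ w : Bg (h : ℤ), Commute (Ψ (zz g ^ g, 1)).1 w := by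
    intro w
    have h1 : ∀ x : Bg g × Multiplicative (ZMod 5), Commute ((zz g ^ g, 1) :
        Bg g × Multiplicative (ZMod 5)) x := by
      intro x
      exact Prod.ext (central g x.1) (Commute.all _ _)
    have h2 := (h1 (Ψ.symm (w, 1))).map Ψ.toMonoidHom
    have h3 : Commute (Ψ (zz g ^ g, 1)) (w, 1) := by
      have e : Ψ.toMonoidHom (Ψ.symm (w, 1)) = (w, 1) := Ψ.apply_symm_apply _
      rw [e] at h2
      exact h2
    exact congrArg Prod.fst h3
  have h1 : (h : ℤ) ∣ (P (zz g ^ g, 1)).toAdd := dvd_θ (hc _)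
  have h2 : P' (zz g ^ g, 1) = 1 := θ'_eq hh' (hc _)
  have e0 : ((zz g ^ g, 1) : Bg g × Multiplicative (ZMod 5)) = (zz g, 1) ^ g := by
    rw [Prod.pow_mk]
    simp
  rw [e0, map_zpow] at h1 h2
  have h3 : (P' (zz g, 1)).toAdd = 0 := by
    have : ((P' (zz g, 1)) ^ g).toAdd = 0 := by rw [h2]; rfl
    rw [toAdd_zpow, smul_eq_mul] at this
    exact (mul_eq_zero.1 this).resolve_left hg
  rw [toAdd_zpow, smul_eq_mul] at h1
  -- preimages of the generators
  have s1 := hom_eq P (Ψ.symm (zz h, 1))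
  have s2 := hom_eq P' (Ψ.symm (zz h, 1))
  have s4 := hom_eq P' (Ψ.symm (tt h, 1))
  rw [ePx, Ψ.apply_symm_apply, θ_z, toAdd_ofAdd] at s1
  rw [ePx', Ψ.apply_symm_apply, θ'_z, toAdd_one, h3, mul_zero, zero_add] at s2
  rw [ePx', Ψ.apply_symm_apply, θ'_t, toAdd_ofAdd, h3, mul_zero, zero_add] at s4
  have hd : (P' (tt g, 1)).toAdd ≠ 0 := by
    intro h0
    rw [h0, mul_zero] at s4
    exact one_ne_zero s4
  have hz : (θ' g (Ψ.symm (zz h, 1)).1).toAdd = 0 := (mul_eq_zero.1 s2.symm).resolve_right hd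
  rw [hz, zero_mul, add_zero] at s1
  have : g = g * (P (zz g, 1)).toAdd * (θ g (Ψ.symm (zz h, 1)).1).toAdd := by
    rw [mul_assoc, mul_comm (P (zz g, 1)).toAdd, ← s1, mul_one]
  rw [this]
  exact Dvd.dvd.mul_right h1 _

theorem bgiso : StmBgIso := by
  rintro a b ⟨Ψ⟩
  have c1 : ((2 : ℤ) ^ (b + 1)) = ((2 ^ (b + 1) : ℕ) : ℤ) := by push_cast; rfl
  have c2 : ((2 : ℤ) ^ (a + 1)) = ((2 ^ (a + 1) : ℕ) : ℤ) := by push_cast; rfl
  have d1 : ((2 ^ (b + 1) : ℕ) : ℤ) ∣ ((2 ^ (a + 1) : ℕ) : ℤ) := by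
    rw [c1, c2] at Ψ
    exact key (by positivity) (Dvd.intro_left (2 ^ b) rfl) Ψ
  have d2 : ((2 ^ (a + 1) : ℕ) : ℤ) ∣ ((2 ^ (b + 1) : ℕ) : ℤ) := by
    rw [c1, c2] at Ψ
    exact key (by positivity) (Dvd.intro_left (2 ^ a) rfl) Ψ.symm
  have d3 := Nat.dvd_antisymm (Int.natCast_dvd_natCast.1 d1) (Int.natCast_dvd_natCast.1 d2)
  have := Nat.pow_right_injective (le_refl 2) d3
  omega

end Pool.Agent.Helper739_ISO.BgIso
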