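import Mathlib
import Pool.Agent.Y817.ISO.Stm
set_option autoImplicit false
/-!
ISO-CODE (helper739, S14615), by helper538: the computable code of the presentations of the family.
-/
namespace Pool.Agent.Helper739_ISO.Code
open Pool.Agent.Y817.ISO

/-- `n ↦ y ^ n` as a list is primitive recursive. -/
theorem prim_replicate {α : Type} [Primcodable α] (y : α) :
    Primrec (fun n : ℕ => List.replicate n y) := by
  have h : Primrec (fun n : ℕ => (List.range n).map (fun _ => y)) :=
    Primrec.list_map Primrec.list_range (Primrec₂.const y)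
  refine h.of_eq ?_
  intro n
  simp [List.map_const']

theorem prim_W (c x t τ : ℕ) : Primrec (fun n : ℕ => W c x t τ n) := by
  have hx0 := prim_replicate ((x, false) : ℕ × Bool)
  have hx1 := prim_replicate ((x, true) : ℕ × Bool)
  have hc : ∀ (a : ℕ × Bool) {g : ℕ → List (ℕ × Bool)}, Primrec g →
      Primrec (fun n => a :: g n) := fun a g hg =>
    Primrec.list_cons.comp (Primrec.const a) hg
  have ha : ∀ {f g : ℕ → List (ℕ × Bool)}, Primrec f → Primrec g →
      Primrec (fun n => f n ++ g n) := fun hf hg => Primrec.list_append.comp hf hg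
  unfold W
  exact hc _ (ha hx0 (hc _ (ha hx1 (hc _ (ha hx0 (hc _ (ha hx1 (hc _ (ha hx0 (hc _ (ha hx1
    (hc _ (ha hx0 (hc _ hx1))))))))))))))

/-- The numbering of the letters. -/
noncomputable def num {A : Type} [Fintype A] (q : A × Bool) : ℕ × Bool :=
  (((Fintype.equivFin A) q.1).val, q.2)

theorem W_num {A : Type} [Fintype A] (c x t τ : A) (n : ℕ) :
    (W c x t τ n).map num = W (num (c, true)).1 (num (x, true)).1 (num (t, true)).1
      (num (τ, true)).1 n := by
  simp [W, num, List.map_replicate]

theorem filterMap_num {A : Type} [Fintype A] (w : List (A × Bool)) :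
    (w.map num).filterMap (fun q => if h : q.1 < Fintype.card A then
      some ((⟨q.1, h⟩ : Fin (Fintype.card A)), q.2) else none) =
    w.map (fun q => ((Fintype.equivFin A) q.1, q.2)) := by
  induction w with
  | nil => rfl
  | cons a w ih =>
    rw [List.map_cons, List.map_cons, List.filterMap_cons, ih]
    simp [num]

theorem relSet_eq {A : Type} [Fintype A] (M : List (List (A × Bool))) :
    relSet (Fintype.card A, M.map (fun w => w.map num)) =
      FreeGroup.freeGroupCongr (Fintype.equivFin A) ''
        {g : FreeGroup A | ∃ w ∈ M, g = FreeGroup.mk w} := by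
  ext g
  constructor
  · rintro ⟨w, hw, rfl⟩
    simp only [List.mem_map] at hw
    obtain ⟨w', hw', rfl⟩ := hw
    refine ⟨FreeGroup.mk w', ⟨w', hw', rfl⟩, ?_⟩
    rw [FreeGroup.freeGroupCongr_apply, FreeGroup.map.mk]
    exact congrArg FreeGroup.mk (filterMap_num w').symm
  · rintro ⟨g', ⟨w', hw', rfl⟩, rfl⟩
    refine ⟨w'.map num, List.mem_map.2 ⟨w', hw', rfl⟩, ?_⟩
    rw [FreeGroup.freeGroupCongr_apply, FreeGroup.map.mk]
    exact congrArg FreeGroup.mk (filterMap_num w').symm

/-- Equal sets of relators give isomorphic groups. -/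
theorem congr_rels {α : Type} {r s : Set (FreeGroup α)} (h : r = s) :
    Nonempty (PresentedGroup r ≃* PresentedGroup s) := by
  subst h
  exact ⟨MulEquiv.refl _⟩

theorem code : StmCode := by
  intro A _ c x t τ L
  refine ⟨fun n => (Fintype.card A, (W c x t τ n :: L).map (fun w => w.map num)), ?_, ?_⟩
  · have h : Primrec (fun n : ℕ => (Fintype.card A,
        W (num (c, true)).1 (num (x, true)).1 (num (t, true)).1 (num (τ, true)).1 n ::
          L.map (fun w => w.map num))) :=
      Primrec.pair (Primrec.const _) (Primrec.list_cons.comp (prim_W _ _ _ _) (Primrec.const _))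
    refine (h.of_eq ?_).to_comp
    intro n
    rw [← W_num]
    rfl
  · intro n
    obtain ⟨a⟩ := congr_rels (relSet_eq (W c x t τ n :: L))
    exact ⟨a.trans (PresentedGroup.equivPresentedGroup
      {g : FreeGroup A | ∃ w ∈ W c x t τ n :: L, g = FreeGroup.mk w} (Fintype.equivFin A)).symm⟩

end Pool.Agent.Helper739_ISO.Code
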