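import Mathlib
import Pool.Agent.Y817.ISO.Stm
set_option autoImplicit false
/-!
JOB ISO-PRES: a finite list of relators expressing `GenRel`.
-/
namespace Pool.Agent.Helper739_ISO.Pres
open Pool.Agent.Y817.ISO

/-- Finitely expressible. -/
def FE {A : Type} (Φ : (H : Type) → [Group H] → (A → H) → Prop) : Prop :=
  ∃ L : List (FreeGroup A), ∀ (H : Type) [Group H] (h : A → H),
    (∀ w ∈ L, FreeGroup.lift h w = 1) ↔ Φ H h

theorem FE.and {A : Type} {Φ Ψ : (H : Type) → [Group H] → (A → H) → Prop} (h₁ : FE Φ)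
    (h₂ : FE Ψ) : FE (fun H _ h => Φ H h ∧ Ψ H h) := by
  obtain ⟨L₁, h₁⟩ := h₁
  obtain ⟨L₂, h₂⟩ := h₂
  refine ⟨L₁ ++ L₂, fun H _ h => ?_⟩
  change (∀ w ∈ L₁ ++ L₂, FreeGroup.lift h w = 1) ↔ (Φ H h ∧ Ψ H h)
  rw [← h₁ H h, ← h₂ H h]
  constructor
  · intro hw
    exact ⟨fun w hw' => hw w (List.mem_append_left _ hw'),
      fun w hw' => hw w (List.mem_append_right _ hw')⟩
  · rintro ⟨hw₁, hw₂⟩ w hw
    rcases List.mem_append.1 hw with hw | hw
    · exact hw₁ w hw
    · exact hw₂ w hw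

theorem FE.eq {A : Type} (u v : FreeGroup A) :
    FE (fun H _ h => FreeGroup.lift h u = FreeGroup.lift h v) := by
  refine ⟨[u * v⁻¹], fun H _ h => ?_⟩
  simp only [List.mem_singleton, forall_eq, map_mul, map_inv, mul_inv_eq_one]

theorem FE.comm {A : Type} (u v : FreeGroup A) :
    FE (fun H _ h => Commute (FreeGroup.lift h u) (FreeGroup.lift h v)) := by
  obtain ⟨L, hL⟩ := FE.eq (u * v) (v * u)
  refine ⟨L, fun H _ h => (hL H h).trans ?_⟩
  change (FreeGroup.lift h (u * v) = FreeGroup.lift h (v * u)) ↔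
    Commute (FreeGroup.lift h u) (FreeGroup.lift h v)
  rw [map_mul, map_mul]
  exact Iff.rfl

theorem FE.all {A ι : Type} [Fintype ι] {Φ : ι → (H : Type) → [Group H] → (A → H) → Prop}
    (h : ∀ i, FE (Φ i)) : FE (fun H _ h => ∀ i, Φ i H h) := by
  choose L hL using h
  refine ⟨(Finset.univ : Finset ι).toList.flatMap L, fun H _ h => ?_⟩
  constructor
  · intro hw i
    rw [← hL i H h]
    intro w hw'
    exact hw w (List.mem_flatMap.2 ⟨i, by simp, hw'⟩)
  · intro hi w hw
    obtain ⟨i, _, hw'⟩ := List.mem_flatMap.1 hw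
    exact (hL i H h).2 (hi i) w hw'

/-! ### Homomorphisms on free abelian groups -/

section ab

variable {I : Type} [Fintype I] [DecidableEq I] {H : Type} [Group H]

theorem hom_eq_prod (X : Multiplicative (I → ℤ) →* H) (v : I → ℤ) :
    X (Multiplicative.ofAdd v) = ((Finset.univ : Finset I).toList.map
      (fun k => X (Multiplicative.ofAdd (Pi.single k 1)) ^ (v k))).prod := by
  have h1 : Multiplicative.ofAdd v = ((Finset.univ : Finset I).toList.map
      (fun k => (Multiplicative.ofAdd (Pi.single k 1 : I → ℤ)) ^ (v k))).prod := by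
    rw [Finset.prod_map_toList]
    apply Multiplicative.toAdd.injective
    rw [toAdd_prod, toAdd_ofAdd]
    simp only [toAdd_zpow, toAdd_ofAdd]
    funext i
    rw [Finset.sum_apply]
    simp [Pi.single_apply]
  conv_lhs => rw [h1]
  rw [map_list_prod, List.map_map]
  congr 1
  apply List.map_congr_left
  intro k _
  simp only [Function.comp_apply, map_zpow]

theorem hom_ext {X Y : Multiplicative (I → ℤ) →* H}
    (h : ∀ k, X (Multiplicative.ofAdd (Pi.single k 1)) = Y (Multiplicative.ofAdd (Pi.single k 1)))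
    (v : I → ℤ) : X (Multiplicative.ofAdd v) = Y (Multiplicative.ofAdd v) := by
  rw [hom_eq_prod X, hom_eq_prod Y]
  simp only [h]

theorem exists_hom (g : I → H) (hg : ∀ i j, Commute (g i) (g j)) :
    ∃ X : Multiplicative (I → ℤ) →* H,
      ∀ k, X (Multiplicative.ofAdd (Pi.single k 1)) = g k := by
  have hc : Pairwise fun i j => ∀ x y : Multiplicative ℤ,
      Commute (zpowersHom H (g i) x) (zpowersHom H (g j) y) := by
    intro i j _ x y
    rw [zpowersHom_apply, zpowersHom_apply]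
    exact (hg i j).zpow_zpow _ _
  refine ⟨(MonoidHom.noncommPiCoprod (fun i => zpowersHom H (g i)) hc).comp
    (MulEquiv.piMultiplicative (fun _ : I => ℤ)).toMonoidHom, ?_⟩
  · intro k
    rw [MonoidHom.comp_apply]
    have h1 : (MulEquiv.piMultiplicative (fun _ : I => ℤ)).toMonoidHom
        (Multiplicative.ofAdd (Pi.single k 1)) =
        Pi.mulSingle k (Multiplicative.ofAdd (1 : ℤ)) := by
      funext i
      by_cases hi : i = k
      · subst hi
        simp
      · simp [hi]
    rw [h1, MonoidHom.noncommPiCoprod_mulSingle]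
    simp

theorem commute_all {X : Multiplicative (I → ℤ) →* H} {g : I → H}
    (hX : ∀ k, X (Multiplicative.ofAdd (Pi.single k 1)) = g k) (y : H) :
    (∀ w, Commute y (X w)) ↔ ∀ k, Commute y (g k) := by
  constructor
  · intro h k
    rw [← hX k]
    exact h _
  · intro h w
    have h1 : X w = X (Multiplicative.ofAdd (Multiplicative.toAdd w)) := rfl
    rw [h1, hom_eq_prod]
    apply Commute.list_prod_right
    intro x hx
    obtain ⟨k, _, rfl⟩ := List.mem_map.1 hx
    rw [hX k]
    exact (h k).zpow_right _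

end ab

theorem comm_conj {H : Type} [Group H] (a v g : H) :
    Commute a (v * g * v⁻¹) ↔ Commute (v⁻¹ * a * v) g := by
  unfold Commute SemiconjBy
  constructor
  · intro h
    calc v⁻¹ * a * v * g = v⁻¹ * (a * (v * g * v⁻¹)) * v := by group
      _ = v⁻¹ * (v * g * v⁻¹ * a) * v := by rw [h]
      _ = g * (v⁻¹ * a * v) := by group
  · intro h
    calc a * (v * g * v⁻¹) = v * (v⁻¹ * a * v * g) * v⁻¹ := by group
      _ = v * (g * (v⁻¹ * a * v)) * v⁻¹ := by rw [h]
      _ = v * g * v⁻¹ * a := by group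

section main

variable {P ι J : Type} [Fintype P] [Fintype ι] [Fintype J] [DecidableEq J]

/-- the word of a vector -/
noncomputable def xw (P ι : Type) {J : Type} [Fintype J] (v : J → ℤ) : FreeGroup (Gen P ι J) :=
  ((Finset.univ : Finset J).toList.map
    (fun j => (FreeGroup.of (Sum.inl j : Gen P ι J)) ^ (v j))).prod

theorem lift_xw {H : Type} [Group H] (h : Gen P ι J → H) {X : Multiplicative (J → ℤ) →* H}
    (hX : ∀ j, X (Multiplicative.ofAdd (Pi.single j 1)) = h (Sum.inl j)) (v : J → ℤ) :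
    FreeGroup.lift h (xw P ι v) = X (Multiplicative.ofAdd v) := by
  unfold xw
  rw [hom_eq_prod, map_list_prod, List.map_map]
  congr 1
  apply List.map_congr_left
  intro k _
  simp only [Function.comp_apply, map_zpow, FreeGroup.lift_apply_of, hX]

/-- the words of the letters `t`, `r` and of the last five letters -/
def gt (ι J : Type) {P : Type} (p : P) : FreeGroup (Gen P ι J) := FreeGroup.of (Sum.inr (Sum.inl p))
def gr (P J : Type) {ι : Type} (i : ι) : FreeGroup (Gen P ι J) :=
  FreeGroup.of (Sum.inr (Sum.inr (Sum.inl i)))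
def g5 (P ι J : Type) (k : Fin 5) : FreeGroup (Gen P ι J) :=
  FreeGroup.of (Sum.inr (Sum.inr (Sum.inr k)))
def gx (P ι : Type) {J : Type} (j : J) : FreeGroup (Gen P ι J) := FreeGroup.of (Sum.inl j)

/-- the word of `T p v` -/
noncomputable def Tw (ι : Type) {P J : Type} [Fintype J] (p : P) (v : J → ℤ) :
    FreeGroup (Gen P ι J) := (xw P ι v)⁻¹ * gt ι J p * xw P ι v

theorem main_FE (D : Rules P ι J) (B : P) (e : J) :
    FE (A := Gen P ι J) (fun H _ h => ∃ X : Multiplicative (J → ℤ) →* H,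
        (∀ j, X (Multiplicative.ofAdd (Pi.single j 1)) = h (Sum.inl j)) ∧
        GenRel D B e H X (fun p => h (Sum.inr (Sum.inl p)))
          (fun i => h (Sum.inr (Sum.inr (Sum.inl i)))) (h (Sum.inr (Sum.inr (Sum.inr 0))))
          (h (Sum.inr (Sum.inr (Sum.inr 1)))) (h (Sum.inr (Sum.inr (Sum.inr 2))))
          (h (Sum.inr (Sum.inr (Sum.inr 3)))) (h (Sum.inr (Sum.inr (Sum.inr 4))))) := by
  have e1 := FE.all (ι := J) fun j => FE.all (ι := J) fun j' =>
    FE.comm (gx P ι j) (gx P ι j')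
  have e2 := FE.all (ι := ι) fun i => FE.all (ι := Fin (D.dim i)) fun k =>
    FE.eq (gr P J i * xw P ι (D.μ i (Pi.single k 1))) (xw P ι (D.ν i (Pi.single k 1)) * gr P J i)
  have e3 := FE.all (ι := ι) fun i => FE.eq (gr P J i * Tw ι (D.src i) (D.a i))
    (Tw ι (D.tgt i) (D.b i) * gr P J i)
  have e4 := FE.all (ι := J) fun j => FE.comm (g5 P ι J 0) (gx P ι j)
  have e5 := FE.all (ι := ι) fun i => FE.comm (g5 P ι J 0) (gr P J i)
  have e6 := FE.all (ι := J) fun j => FE.comm (g5 P ι J 1) (gx P ι j)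
  have e7 := FE.all (ι := P) fun p => FE.comm (g5 P ι J 1) (gt ι J p)
  have e8 := FE.all (ι := ι) fun i => FE.comm (g5 P ι J 1) (gr P J i)
  have e9 := FE.eq ((g5 P ι J 1)⁻¹ * g5 P ι J 0 * g5 P ι J 1) (g5 P ι J 0 ^ 2)
  have e10 := FE.comm (g5 P ι J 2) (gx P ι e * g5 P ι J 1)
  have e11 := FE.comm (g5 P ι J 2) ((gt ι J B)⁻¹ * g5 P ι J 0 ^ 2 * gt ι J B)
  have e12 := FE.all (ι := J) fun j => FE.comm (g5 P ι J 3) (g5 P ι J 2 * gx P ι j * (g5 P ι J 2)⁻¹)
  have e13 := FE.all (ι := P) fun p => FE.comm (g5 P ι J 3) (g5 P ι J 2 * gt ι J p * (g5 P ι J 2)⁻¹)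
  have e14 := FE.all (ι := ι) fun i => FE.comm (g5 P ι J 3) (g5 P ι J 2 * gr P J i * (g5 P ι J 2)⁻¹)
  have e15 := FE.comm (g5 P ι J 3) (g5 P ι J 2 * g5 P ι J 0 * (g5 P ι J 2)⁻¹)
  have e16 := FE.all (ι := ι) fun i => FE.comm (g5 P ι J 3) (gr P J i)
  have e17 := FE.eq (g5 P ι J 4 ^ 5) 1
  have e18 := FE.comm (g5 P ι J 4) (g5 P ι J 0)
  obtain ⟨L, hL⟩ := e1.and (e2.and (e3.and (e4.and (e5.and (e6.and (e7.and (e8.and (e9.and
    (e10.and (e11.and (e12.and (e13.and (e14.and (e15.and (e16.and (e17.and e18))))))))))))))))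
  refine ⟨L, fun H _ h => ?_⟩
  rw [hL H h]
  simp only [map_mul, map_inv, map_pow, map_one, gt, gr, g5, gx, FreeGroup.lift_apply_of]
  constructor
  · rintro ⟨c1, c2, c3, c4, c5, c6, c7, c8, c9, c10, c11, c12, c13, c14, c15, c16, c17, c18⟩
    obtain ⟨X, hX⟩ := exists_hom (fun j : J => h (Sum.inl j)) c1
    have hl := lift_xw h hX
    refine ⟨X, hX, ⟨?_, ?_⟩, ?_, c5, ?_, c7, c8, c9, ?_, c11, ?_, c13, c14, c15, c16, c17, c18⟩
    · intro i w
      have key := hom_ext (X := (MulAut.conj (h (Sum.inr (Sum.inr (Sum.inl i))))).toMonoidHom.comp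
        (X.comp (AddMonoidHom.toMultiplicative (D.μ i))))
        (Y := X.comp (AddMonoidHom.toMultiplicative (D.ν i))) ?_ w
      · simp only [MonoidHom.comp_apply, MulEquiv.toMonoidHom_eq_coe, MonoidHom.coe_coe,
          MulAut.conj_apply, AddMonoidHom.toMultiplicative_apply_apply, toAdd_ofAdd] at key
        rw [← key]
        group
      · intro k
        have h2 := c2 i k
        rw [hl, hl] at h2
        simp only [MonoidHom.comp_apply, MulEquiv.toMonoidHom_eq_coe, MonoidHom.coe_coe,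
          MulAut.conj_apply, AddMonoidHom.toMultiplicative_apply_apply, toAdd_ofAdd]
        rw [h2]
        group
    · intro i
      have h2 := c3 i
      simp only [Tw, map_mul, map_inv, gt, FreeGroup.lift_apply_of, hl] at h2
      exact h2
    · exact (commute_all hX _).2 c4
    · exact (commute_all hX _).2 c6
    · rw [hX e]
      exact c10
    · intro w
      rw [comm_conj]
      revert w
      rw [commute_all hX]
      intro j
      rw [← comm_conj]
      exact c12 j
  · rintro ⟨X, hX, hG⟩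
    have hl := lift_xw h hX
    refine ⟨?_, ?_, ?_, ?_, hG.zr, ?_, hG.ut, hG.ur, hG.uz, ?_, hG.vt, ?_, hG.τt, hG.τr', hG.τz,
      hG.τr, hG.c5, hG.cz⟩
    · intro j j'
      rw [← hX j, ← hX j']
      unfold Commute SemiconjBy
      rw [← map_mul X, ← map_mul X, mul_comm]
    · intro i k
      rw [hl, hl]
      exact hG.rel.shift i _
    · intro i
      simp only [Tw, map_mul, map_inv, gt, FreeGroup.lift_apply_of, hl]
      exact hG.rel.rule i
    · exact (commute_all hX _).1 hG.zx
    · exact (commute_all hX _).1 hG.ux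
    · rw [← hX e]
      exact hG.vx
    · intro j
      rw [← hX j]
      exact hG.τx _

end main

theorem pres : StmPres := by
  intro P ι J _ _ _ _ D B e
  obtain ⟨L, hL⟩ := main_FE D B e
  have hrep : ∀ w : FreeGroup (Gen P ι J), ∃ l : List (Gen P ι J × Bool), FreeGroup.mk l = w :=
    fun w => Quot.exists_rep w
  choose f hf using hrep
  refine ⟨L.map f, fun H _ h => Iff.trans ?_ (hL H h)⟩
  constructor
  · intro hw w hw'
    have := hw (f w) (List.mem_map.2 ⟨w, hw', rfl⟩)
    rwa [hf] at this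
  · intro hw w hw'
    obtain ⟨w', hw'', rfl⟩ := List.mem_map.1 hw'
    rw [hf]
    exact hw w' hw''

end Pool.Agent.Helper739_ISO.Pres
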