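import Mathlib
import Pool.Agent.Y817.ISO.Stm
import Pool.Agent.Helper739_ISO.Stm2
import Pool.Agent.Helper694.CS.J_hnn_tf

set_option autoImplicit false

/-!
The tower of HNN extensions over the group `K`.
-/

namespace Pool.Agent.Helper739_ISO.Tower

open Pool.Agent.Y817.ISO Pool.Agent.Helper739_ISO

theorem tfhnn : StmTFHNN := by
  intro G _ A B φ h x hx
  by_contra hne
  refine Pool.CS.hnn_tf φ ?_ x hne hx
  intro k hk hf
  exact hk (h k hf)

theorem hnn_closure {G : Type} [Group G] (A B : Subgroup G) (φ : A ≃* B) :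
    Subgroup.closure (Set.range (HNNExtension.of : G →* HNNExtension G A B φ) ∪
      {HNNExtension.t}) = ⊤ := by
  rw [eq_top_iff]
  rintro x -
  induction x using HNNExtension.induction_on with
  | of g => exact Subgroup.subset_closure (Or.inl ⟨g, rfl⟩)
  | t => exact Subgroup.subset_closure (Or.inr rfl)
  | mul a b ha hb => exact mul_mem ha hb
  | inv a ha => exact inv_mem ha

section ce

variable {G : Type} [Group G] (S : Subgroup G)

theorem ce_comm {g : G} (h : g ∈ S) :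
    Commute (HNNExtension.t : CE G S) (HNNExtension.of g) := by
  have := HNNExtension.t_mul_of (φ := MulEquiv.refl S) ⟨g, h⟩
  exact this

theorem ce_lift (H : Type) [Group H] (φ : G →* H) (s : H) (h : ∀ g ∈ S, Commute s (φ g)) :
    ∃ Φ : CE G S →* H, (∀ x, Φ (HNNExtension.of x) = φ x) ∧ Φ HNNExtension.t = s :=
  ⟨HNNExtension.lift φ s (fun a => h a.1 a.2), fun _ => HNNExtension.lift_of _ _ _ _,
    HNNExtension.lift_t _ _ _⟩

end ce

/-- Ascending HNN extensions. -/
theorem asc (U : Type) [Group U] (ψ : U →* U) (hψ : Function.Injective ψ) (hU : TF U) :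
    ∃ (V : Type) (_ : Group V) (ο : U →* V) (u : V), Function.Injective ο ∧
      (∀ y, u⁻¹ * ο y * u = ο (ψ y)) ∧ TF V ∧ Subgroup.closure (Set.range ο ∪ {u}) = ⊤ ∧
      ∀ (H : Type) [Group H] (φ : U →* H) (s : H), (∀ y, s⁻¹ * φ y * s = φ (ψ y)) →
        ∃ Φ : V →* H, (∀ y, Φ (ο y) = φ y) ∧ Φ u = s := by
  obtain ⟨e, he⟩ : ∃ e : ψ.range ≃* (⊤ : Subgroup U), ∀ y (h : ψ y ∈ ψ.range),
      ((e ⟨ψ y, h⟩ : (⊤ : Subgroup U)) : U) = y := by
    refine ⟨(MonoidHom.ofInjective hψ).symm.trans Subgroup.topEquiv.symm, ?_⟩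
    intro y h
    have h3 : (MonoidHom.ofInjective hψ).symm ⟨ψ y, h⟩ = y := by
      rw [MulEquiv.symm_apply_eq]
      rfl
    simp only [MulEquiv.trans_apply, h3]
    rfl
  refine ⟨HNNExtension U ψ.range ⊤ e, inferInstance, HNNExtension.of, HNNExtension.t,
    HNNExtension.of_injective _, ?_, tfhnn U _ _ _ hU, hnn_closure _ _ _, ?_⟩
  · intro y
    have hy : ψ y ∈ ψ.range := MonoidHom.mem_range.2 ⟨y, rfl⟩
    have h1 := HNNExtension.t_mul_of (φ := e) ⟨ψ y, hy⟩
    rw [he y hy] at h1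
    rw [mul_assoc, ← h1, inv_mul_cancel_left]
  · intro H _ φ s hs
    refine ⟨HNNExtension.lift φ s ?_, fun y => HNNExtension.lift_of _ _ _ _,
      HNNExtension.lift_t _ _ _⟩
    rintro ⟨y', hy'⟩
    obtain ⟨y, rfl⟩ := MonoidHom.mem_range.1 hy'
    rw [he y hy', ← hs y]
    show s * (s⁻¹ * φ y * s) = φ y * s
    rw [mul_assoc, mul_inv_cancel_left]

/-- The group `U₂`. -/
theorem exists_U2 (hQ : StmSquare) (K : Type) [Group K] (Q : Subgroup K) (hK : TF K) :
    ∃ (V : Type) (_ : Group V) (i : K →* V) (z u : V), Function.Injective i ∧ TF V ∧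
      (∀ q ∈ Q, Commute z (i q)) ∧ (∀ k, Commute u (i k)) ∧ u⁻¹ * z * u = z ^ 2 ∧
      Subgroup.closure (Set.range i ∪ {z, u}) = ⊤ ∧ (∀ a : ℤ, z ^ a = 1 → a = 0) ∧
      ∀ (H : Type) [Group H] (φ : K →* H) (z' u' : H), (∀ q ∈ Q, Commute z' (φ q)) →
        (∀ k, Commute u' (φ k)) → u'⁻¹ * z' * u' = z' ^ 2 →
        ∃ Φ : V →* H, (∀ k, Φ (i k) = φ k) ∧ Φ z = z' ∧ Φ u = u' := by
  obtain ⟨ψ, hψ, hψ1, hψ2⟩ := hQ K Q
  have htf1 : TF (CE K Q) := tfhnn K _ _ _ hK
  obtain ⟨U2, _, ο, u, hο, hou, htf2, hcl2, hlift2⟩ := asc (CE K Q) ψ hψ htf1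
  refine ⟨U2, inferInstance, ο.comp HNNExtension.of, ο HNNExtension.t, u,
    hο.comp (HNNExtension.of_injective _), htf2, ?_, ?_, ?_, ?_, ?_, ?_⟩
  · intro q hq
    exact (ce_comm Q hq).map ο
  · intro k
    have h1 := hou (HNNExtension.of k)
    rw [hψ1, mul_assoc, inv_mul_eq_iff_eq_mul] at h1
    exact h1.symm
  · rw [hou, hψ2, map_pow]
  · rw [eq_top_iff, ← hcl2, Subgroup.closure_le]
    rintro _ (⟨y, rfl⟩ | hy)
    · have h1 : y ∈ Subgroup.closure (Set.range (HNNExtension.of : K →* CE K Q) ∪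
          {HNNExtension.t}) := by
        rw [hnn_closure]; trivial
      induction h1 using Subgroup.closure_induction with
      | mem y hy =>
        rcases hy with ⟨k, rfl⟩ | hy
        · exact Subgroup.subset_closure (Or.inl ⟨k, rfl⟩)
        · rw [Set.mem_singleton_iff] at hy
          rw [hy]
          exact Subgroup.subset_closure (Or.inr (Or.inl rfl))
      | one => rw [map_one]; exact one_mem _
      | mul a b _ _ ha hb => rw [map_mul]; exact mul_mem ha hb
      | inv a _ ha => rw [map_inv]; exact inv_mem ha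
    · rw [Set.mem_singleton_iff] at hy
      rw [hy]
      exact Subgroup.subset_closure (Or.inr (Or.inr rfl))
  · intro a ha
    obtain ⟨Φ, -, h2⟩ := ce_lift Q (Multiplicative ℤ) 1 (Multiplicative.ofAdd 1)
      (fun g _ => Commute.all _ _)
    rw [← map_zpow] at ha
    have h3 := hο (ha.trans (map_one ο).symm)
    have h4 := congrArg (fun y => (Φ y).toAdd) h3
    simp only [map_zpow, h2] at h4
    rw [map_one Φ, toAdd_zpow, toAdd_ofAdd, toAdd_one, smul_eq_mul, mul_one] at h4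
    exact h4
  · intro H _ φ z' u' h1 h2 h3
    obtain ⟨Φ1, h4, h5⟩ := ce_lift Q H φ z' h1
    obtain ⟨Φ, h6, h7⟩ := hlift2 H Φ1 u' (by
      intro y
      have h8 : ((MulAut.conj u'⁻¹).toMonoidHom.comp Φ1) = Φ1.comp ψ := by
        apply HNNExtension.hom_ext
        · ext k
          show u'⁻¹ * Φ1 (HNNExtension.of k) * u'⁻¹⁻¹ = Φ1 (ψ (HNNExtension.of k))
          rw [hψ1, h4, inv_inv, mul_assoc, ← (h2 k).eq, inv_mul_cancel_left]
        · show u'⁻¹ * Φ1 HNNExtension.t * u'⁻¹⁻¹ = Φ1 (ψ HNNExtension.t)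
          rw [hψ2, map_pow, h5, inv_inv, h3]
      have h9 := DFunLike.congr_fun h8 y
      simpa using h9)
    refine ⟨Φ, fun k => ?_, ?_, h7⟩
    · show Φ (ο (HNNExtension.of k)) = φ k
      rw [h6, h4]
    · rw [h6, h5]

/-- `(x u)⁻ᵐ (t⁻¹ z² t) (x u)ᵐ`. -/
theorem conj_pow {V : Type} [Group V] (X T z u : V) (h1 : Commute z X) (h2 : Commute u X)
    (h3 : Commute u T) (h4 : u⁻¹ * z * u = z ^ 2) (S : Subgroup V) (hS1 : X * u ∈ S)
    (hS2 : T⁻¹ * z ^ 2 * T ∈ S) (m : ℕ) :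
    (s X T m)⁻¹ * z ^ (2 ^ (m + 1)) * s X T m ∈ S := by
  have key : ∀ m : ℕ, X ^ (-(m : ℤ)) * T⁻¹ * z ^ (2 ^ (m + 1)) * T * X ^ (m : ℤ) ∈ S := by
    intro m
    induction m with
    | zero => simpa using hS2
    | succ m ih =>
      have h5 := mul_mem (mul_mem (inv_mem hS1) ih) hS1
      have h6 : ∀ k : ℕ, u⁻¹ * z ^ k * u = z ^ (2 * k) := by
        intro k
        have := _root_.conj_pow (a := u⁻¹) (b := z) (i := k)
        rw [inv_inv, h4, ← pow_mul] at this
        exact this.symm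
      have h7 : (X * u)⁻¹ * (X ^ (-(m : ℤ)) * T⁻¹ * z ^ (2 ^ (m + 1)) * T * X ^ (m : ℤ)) * (X * u) =
          X ^ (-((m + 1 : ℕ) : ℤ)) * T⁻¹ * z ^ (2 ^ (m + 1 + 1)) * T * X ^ ((m + 1 : ℕ) : ℤ) := by
        have e1 : u⁻¹ * (X ^ (-((m + 1 : ℕ) : ℤ)) * T⁻¹) = X ^ (-((m + 1 : ℕ) : ℤ)) * T⁻¹ * u⁻¹ := by
          have := ((h2.zpow_right (-((m + 1 : ℕ) : ℤ))).mul_right h3.inv_right).inv_left
          exact this
        have e2 : T * X ^ ((m + 1 : ℕ) : ℤ) * u = u * (T * X ^ ((m + 1 : ℕ) : ℤ)) := by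
          have := h3.mul_right (h2.zpow_right ((m + 1 : ℕ) : ℤ))
          exact this.eq.symm
        calc (X * u)⁻¹ * (X ^ (-(m : ℤ)) * T⁻¹ * z ^ (2 ^ (m + 1)) * T * X ^ (m : ℤ)) * (X * u)
            = u⁻¹ * (X ^ (-((m + 1 : ℕ) : ℤ)) * T⁻¹) * z ^ (2 ^ (m + 1)) *
              (T * X ^ ((m + 1 : ℕ) : ℤ) * u) := by
              push_cast
              have a1 : X ^ (-((m : ℤ) + 1)) = X⁻¹ * X ^ (-(m : ℤ)) := by
                rw [neg_add_rev, zpow_add, zpow_neg_one]
              have a2 : X ^ ((m : ℤ) + 1) = X ^ (m : ℤ) * X := by rw [zpow_add, zpow_one]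
              rw [a1, a2]
              simp only [mul_inv_rev, mul_assoc]
          _ = X ^ (-((m + 1 : ℕ) : ℤ)) * T⁻¹ * (u⁻¹ * z ^ (2 ^ (m + 1)) * u) *
              (T * X ^ ((m + 1 : ℕ) : ℤ)) := by
              rw [e1, e2]; simp only [mul_assoc]
          _ = _ := by
              rw [h6]
              have : 2 * 2 ^ (m + 1) = 2 ^ (m + 1 + 1) := by ring
              rw [this]; simp only [mul_assoc]
      rw [h7] at h5
      exact h5
  have h8 : (s X T m)⁻¹ * z ^ (2 ^ (m + 1)) * s X T m =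
      X ^ (-(m : ℤ)) * T⁻¹ * z ^ (2 ^ (m + 1)) * T * X ^ (m : ℤ) := by
    have e1 : X ^ (m : ℤ) * z ^ (2 ^ (m + 1)) * X ^ (-(m : ℤ)) = z ^ (2 ^ (m + 1)) := by
      have := (h1.pow_left (2 ^ (m + 1))).zpow_right (m : ℤ)
      rw [← this.eq, mul_assoc, ← zpow_add, add_neg_cancel, zpow_zero, mul_one]
    have e2 : (s X T m)⁻¹ = X ^ (-(m : ℤ)) * T⁻¹ * X ^ (m : ℤ) := by
      simp only [s, mul_inv_rev, ← zpow_neg, neg_neg, mul_assoc]
    rw [e2]
    show X ^ (-(m : ℤ)) * T⁻¹ * X ^ (m : ℤ) * z ^ (2 ^ (m + 1)) * (X ^ (-(m : ℤ)) * T * X ^ (m : ℤ)) = _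
    calc _ = X ^ (-(m : ℤ)) * T⁻¹ * (X ^ (m : ℤ) * z ^ (2 ^ (m + 1)) * X ^ (-(m : ℤ))) * T *
          X ^ (m : ℤ) := by simp only [mul_assoc]
      _ = _ := by rw [e1]
  rw [h8]
  exact key m

theorem map_s {K V : Type} [Group K] [Group V] (i : K →* V) (x t : K) (n : ℤ) :
    i (s x t n) = s (i x) (i t) n := by
  simp [s]

theorem commute_closure {G H : Type} [Group G] [Group H] (Φ : G →* H) (v : H) (A : Set G)
    (h : ∀ g ∈ A, Commute v (Φ g)) : ∀ g ∈ Subgroup.closure A, Commute v (Φ g) := by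
  intro g hg
  induction hg using Subgroup.closure_induction with
  | mem y hy => exact h y hy
  | one => rw [map_one]; exact Commute.one_right _
  | mul a b _ _ ha hb => rw [map_mul]; exact ha.mul_right hb
  | inv a _ ha => rw [map_inv]; exact ha.inv_right

theorem tower (hA : StmLemA) (hS : StmSubHNN) (hQ : StmSquare) (hG : StmGModel) : StmTower := by
  intro K _ Q Rr π x t hb
  obtain ⟨V, _, i, z, u, hi, htfV, hzq, hui, huz, hclV, hzo, hliftV⟩ := exists_U2 hQ K Q hb.tf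
  obtain ⟨S, hSdef⟩ : ∃ S : Subgroup V, S = Subgroup.closure {i x * u, (i t)⁻¹ * z ^ 2 * i t} :=
    ⟨_, rfl⟩
  obtain ⟨M, hM⟩ : ∃ M : Subgroup V, M = Subgroup.closure (Set.range i ∪ {z}) := ⟨_, rfl⟩
  obtain ⟨L, hL⟩ : ∃ L : Subgroup V, L = Subgroup.closure (((S ⊓ M : Subgroup V) : Set V) ∪
    i '' (Rr : Set K)) := ⟨_, rfl⟩
  have hS1 : i x * u ∈ S := by
    rw [hSdef]; exact Subgroup.subset_closure (Or.inl rfl)
  have hS2 : (i t)⁻¹ * z ^ 2 * i t ∈ S := by
    rw [hSdef]; exact Subgroup.subset_closure (Or.inr rfl)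
  have hMi : ∀ k, i k ∈ M := fun k => by
    rw [hM]; exact Subgroup.subset_closure (Or.inl ⟨k, rfl⟩)
  have hMz : z ∈ M := by
    rw [hM]; exact Subgroup.subset_closure (Or.inr rfl)
  have hSM : S ⊓ M ≤ L := by
    intro y hy
    rw [hL]; exact Subgroup.subset_closure (Or.inl hy)
  have hRL : ∀ ρ ∈ Rr, i ρ ∈ L := by
    intro ρ hρ
    rw [hL]; exact Subgroup.subset_closure (Or.inr ⟨ρ, hρ, rfl⟩)
  have hLM : L ≤ M := by
    rw [hL, Subgroup.closure_le]
    rintro y (hy | ⟨ρ, _, rfl⟩)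
    · exact hy.2
    · exact hMi ρ
  obtain ⟨o3, ho3⟩ : ∃ o3 : V →* CE V S, o3 = HNNExtension.of := ⟨_, rfl⟩
  obtain ⟨v3, hv3⟩ : ∃ v3 : CE V S, v3 = HNNExtension.t := ⟨_, rfl⟩
  have hv3c : ∀ y ∈ S, Commute v3 (o3 y) := by
    intro y hy
    rw [ho3, hv3]; exact ce_comm S hy
  obtain ⟨Sτ, hSτ⟩ : ∃ Sτ : Subgroup (CE V S), Sτ = Subgroup.closure
      ((fun g : V => v3 * o3 g * v3⁻¹) '' (M : Set V) ∪ (fun k : K => o3 (i k)) '' (Rr : Set K)) :=
    ⟨_, rfl⟩
  have hSτM : ∀ y ∈ M, v3 * o3 y * v3⁻¹ ∈ Sτ := by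
    intro y hy
    rw [hSτ]; exact Subgroup.subset_closure (Or.inl ⟨y, hy, rfl⟩)
  have hSτR : ∀ ρ ∈ Rr, o3 (i ρ) ∈ Sτ := by
    intro y hy
    rw [hSτ]; exact Subgroup.subset_closure (Or.inr ⟨y, hy, rfl⟩)
  have ho3inj : Function.Injective o3 := by rw [ho3]; exact HNNExtension.of_injective _
  obtain ⟨o4, ho4⟩ : ∃ o4 : CE V S →* CE (CE V S) Sτ, o4 = HNNExtension.of := ⟨_, rfl⟩
  obtain ⟨τ, hτ⟩ : ∃ τ : CE (CE V S) Sτ, τ = HNNExtension.t := ⟨_, rfl⟩
  have hτc : ∀ y ∈ Sτ, Commute τ (o4 y) := by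
    intro y hy
    rw [ho4, hτ]; exact ce_comm Sτ hy
  refine ⟨CE (CE V S) Sτ, inferInstance, o4.comp (o3.comp i), o4 (o3 z), o4 (o3 u), o4 v3, τ,
    tfhnn _ _ _ _ (tfhnn _ _ _ _ htfV), ?_, ?_, ?_, ?_⟩
  · refine ⟨?_, ?_, ?_, ?_, ?_, ?_, ?_, ?_⟩
    · intro q hq
      exact ((hzq q hq).map o3).map o4
    · intro k
      exact ((hui k).map o3).map o4
    · rw [← map_inv, ← map_inv, ← map_mul, ← map_mul, ← map_mul, ← map_mul, huz, map_pow, map_pow]
    · have := (hv3c _ hS1).map o4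
      rw [map_mul, map_mul] at this
      exact this
    · have := (hv3c _ hS2).map o4
      simp only [map_mul, map_inv, map_pow] at this
      exact this
    · intro k
      have := hτc _ (hSτM _ (hMi k))
      rw [map_mul, map_mul, map_inv] at this
      exact this
    · have := hτc _ (hSτM _ hMz)
      rw [map_mul, map_mul, map_inv] at this
      exact this
    · intro ρ hρ
      exact hτc _ (hSτR ρ hρ)
  · rw [eq_top_iff]
    rintro y -
    have h1 : ∀ y : V, o4 (o3 y) ∈ Subgroup.closure (Set.range (o4.comp (o3.comp i)) ∪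
        {o4 (o3 z), o4 (o3 u), o4 v3, τ}) := by
      intro y
      have hy : y ∈ Subgroup.closure (Set.range i ∪ {z, u}) := by rw [hclV]; trivial
      induction hy using Subgroup.closure_induction with
      | mem y hy =>
        rcases hy with ⟨k, rfl⟩ | rfl | hy
        · exact Subgroup.subset_closure (Or.inl ⟨k, rfl⟩)
        · exact Subgroup.subset_closure (Or.inr (Or.inl rfl))
        · rw [Set.mem_singleton_iff] at hy
          rw [hy]
          exact Subgroup.subset_closure (Or.inr (Or.inr (Or.inl rfl)))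
      | one => rw [map_one, map_one]; exact one_mem _
      | mul a b _ _ ha hb => rw [map_mul, map_mul]; exact mul_mem ha hb
      | inv a _ ha => rw [map_inv, map_inv]; exact inv_mem ha
    have h2 : ∀ y : CE V S, o4 y ∈ Subgroup.closure (Set.range (o4.comp (o3.comp i)) ∪
        {o4 (o3 z), o4 (o3 u), o4 v3, τ}) := by
      intro y
      have hy : y ∈ Subgroup.closure (Set.range o3 ∪ {v3}) := by
        rw [ho3, hv3, hnn_closure]; trivial
      induction hy using Subgroup.closure_induction with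
      | mem y hy =>
        rcases hy with ⟨k, rfl⟩ | hy
        · exact h1 k
        · rw [Set.mem_singleton_iff] at hy
          rw [hy]
          exact Subgroup.subset_closure (Or.inr (Or.inr (Or.inr (Or.inl rfl))))
      | one => rw [map_one]; exact one_mem _
      | mul a b _ _ ha hb => rw [map_mul]; exact mul_mem ha hb
      | inv a _ ha => rw [map_inv]; exact inv_mem ha
    have hy : y ∈ Subgroup.closure (Set.range o4 ∪ {τ}) := by
      rw [ho4, hτ, hnn_closure]; trivial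
    induction hy using Subgroup.closure_induction with
    | mem y hy =>
      rcases hy with ⟨k, rfl⟩ | hy
      · exact h2 k
      · rw [Set.mem_singleton_iff] at hy
        rw [hy]
        exact Subgroup.subset_closure (Or.inr (Or.inr (Or.inr (Or.inr rfl))))
    | one => exact one_mem _
    | mul a b _ _ ha hb => exact mul_mem ha hb
    | inv a _ ha => exact inv_mem ha
  · intro H _ φ' z' u' v' τ' hr
    obtain ⟨Φ2, h1, h2, h3⟩ := hliftV H φ' z' u' hr.zq hr.uk hr.uz
    have h4 : ∀ g ∈ S, Commute v' (Φ2 g) := by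
      rw [hSdef]
      apply commute_closure
      rintro g (rfl | hg)
      · rw [map_mul, h1, h3]; exact hr.vx
      · rw [Set.mem_singleton_iff] at hg
        rw [hg, map_mul, map_mul, map_inv, map_pow, h1, h2]; exact hr.vt
    obtain ⟨Φ3, h5, h6⟩ := ce_lift S H Φ2 v' h4
    rw [← ho3] at h5
    rw [← hv3] at h6
    have h7 : ∀ g ∈ Sτ, Commute τ' (Φ3 g) := by
      rw [hSτ]
      apply commute_closure
      rintro g (⟨y, hy, rfl⟩ | ⟨ρ, hρ, rfl⟩)
      · show Commute τ' (Φ3 (v3 * o3 y * v3⁻¹))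
        rw [map_mul, map_mul, map_inv, h5, h6]
        have h8 : Commute (v'⁻¹ * τ' * v') (Φ2 y) := by
          rw [SetLike.mem_coe, hM] at hy
          refine commute_closure Φ2 (v'⁻¹ * τ' * v') _ ?_ y hy
          rintro w (⟨k, rfl⟩ | hw)
          · rw [h1]
            have h9 := (hr.τk k).eq
            show v'⁻¹ * τ' * v' * φ' k = φ' k * (v'⁻¹ * τ' * v')
            calc v'⁻¹ * τ' * v' * φ' k = v'⁻¹ * (τ' * (v' * φ' k * v'⁻¹)) * v' := by
                  simp [mul_assoc]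
              _ = _ := by rw [h9]; simp [mul_assoc]
          · rw [Set.mem_singleton_iff] at hw
            rw [hw, h2]
            have h9 := hr.τz.eq
            show v'⁻¹ * τ' * v' * z' = z' * (v'⁻¹ * τ' * v')
            calc v'⁻¹ * τ' * v' * z' = v'⁻¹ * (τ' * (v' * z' * v'⁻¹)) * v' := by
                  simp [mul_assoc]
              _ = _ := by rw [h9]; simp [mul_assoc]
        have h10 := h8.eq
        show τ' * (v' * Φ2 y * v'⁻¹) = v' * Φ2 y * v'⁻¹ * τ'
        calc τ' * (v' * Φ2 y * v'⁻¹) = v' * (v'⁻¹ * τ' * v' * Φ2 y) * v'⁻¹ := by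
              simp [mul_assoc]
          _ = _ := by rw [h10]; simp [mul_assoc]
      · show Commute τ' (Φ3 (o3 (i ρ)))
        rw [h5, h1]; exact hr.τr ρ hρ
    obtain ⟨Φ4, h8, h9⟩ := ce_lift Sτ H Φ3 τ' h7
    rw [← ho4] at h8
    rw [← hτ] at h9
    refine ⟨Φ4, fun k => ?_, ?_, ?_, ?_, h9⟩
    · show Φ4 (o4 (o3 (i k))) = φ' k
      rw [h8, h5, h1]
    · rw [h8, h5, h2]
    · rw [h8, h5, h3]
    · rw [h8, h6]
  · intro n hn hpos g hg1 hg2
    obtain ⟨m, hm, hgm⟩ := hg2
    have hm0 : 0 ≤ m := hpos m hm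
    obtain ⟨m', rfl⟩ : ∃ m' : ℕ, m = m' := ⟨m.toNat, (Int.toNat_of_nonneg hm0).symm⟩
    rw [Int.toNat_natCast] at hgm
    obtain ⟨sn, hsn⟩ : ∃ sn : K, sn = s x t n := ⟨_, rfl⟩
    let α : Multiplicative ℤ →* CE V S :=
      (MulAut.conj (o3 (i sn))⁻¹).toMonoidHom.comp (zpowersHom _ (o3 z))
    have hα : ∀ a : ℤ, α (Multiplicative.ofAdd a) = o3 ((i sn)⁻¹ * z ^ a * i sn) := by
      intro a
      show (o3 (i sn))⁻¹ * (o3 z) ^ a * (o3 (i sn))⁻¹⁻¹ = _
      rw [inv_inv, map_mul, map_mul, map_inv, map_zpow]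
    have hαinj : Function.Injective α := by
      rw [injective_iff_map_eq_one]
      intro a ha
      have h1 := hα a.toAdd
      rw [ofAdd_toAdd, ha] at h1
      have h2 := ho3inj ((map_one o3).trans h1)
      have h3 : z ^ a.toAdd = 1 := by
        have : i sn * (1 : V) * (i sn)⁻¹ = z ^ a.toAdd := by
          rw [h2]; group
        rw [← this]; group
      exact toAdd_eq_zero.1 (hzo _ h3)
    have hmem : α (Multiplicative.ofAdd g) ∈ Sτ := by
      rw [hα, hgm]
      obtain ⟨ρ, hρ, he⟩ := hm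
      obtain ⟨e, hedef⟩ : ∃ e : V, e = (s (i x) (i t) m')⁻¹ * z ^ (2 ^ (m' + 1)) * s (i x) (i t) m' :=
        ⟨_, rfl⟩
      have heS : e ∈ S := by
        rw [hedef]
        exact conj_pow (i x) (i t) z u (hzq x hb.x_mem) (hui x) (hui t) huz S hS1 hS2 m'
      have heM : e ∈ M := by
        rw [hedef, ← map_s]
        exact mul_mem (mul_mem (inv_mem (hMi _)) (pow_mem hMz _)) (hMi _)
      have h1 : o3 e ∈ Sτ := by
        have h2 := (hv3c e heS).eq
        have h3 : v3 * o3 e * v3⁻¹ = o3 e := by rw [h2, mul_assoc, mul_inv_cancel, mul_one]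
        rw [← h3]
        exact hSτM e heM
      have h4 : (i sn)⁻¹ * z ^ ((2 : ℤ) ^ (m' + 1)) * i sn = i ρ * e * (i ρ)⁻¹ := by
        have h5 : (i ρ)⁻¹ * z ^ ((2 : ℤ) ^ (m' + 1)) * i ρ = z ^ (2 ^ (m' + 1)) := by
          have h6 := ((hzq ρ (hb.le hρ)).pow_left (2 ^ (m' + 1))).eq
          have h7 : z ^ ((2 : ℤ) ^ (m' + 1)) = z ^ (2 ^ (m' + 1)) := by
            rw [← zpow_natCast]; push_cast; rfl
          rw [h7, mul_assoc, h6, inv_mul_cancel_left]
        rw [hedef, ← map_s, hsn, he, map_mul, map_mul, map_inv]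
        calc (i ρ * i (s x t m') * (i ρ)⁻¹)⁻¹ * z ^ ((2 : ℤ) ^ (m' + 1)) *
              (i ρ * i (s x t m') * (i ρ)⁻¹)
            = i ρ * ((i (s x t m'))⁻¹ * ((i ρ)⁻¹ * z ^ ((2 : ℤ) ^ (m' + 1)) * i ρ) *
              i (s x t m')) * (i ρ)⁻¹ := by
              simp only [mul_inv_rev, inv_inv, mul_assoc]
          _ = _ := by rw [h5]
      rw [h4, map_mul, map_mul, map_inv]
      exact mul_mem (mul_mem (hSτR ρ hρ) h1) (inv_mem (hSτR ρ hρ))
    have hiff : ∀ a, α a ∈ Sτ ↔ a ∈ Subgroup.zpowers (Multiplicative.ofAdd g) := by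
      intro a
      constructor
      · intro ha
        have h1 : (HNNExtension.of ((i sn)⁻¹ * z ^ a.toAdd * i sn) : CE V S) ∈ Subgroup.closure
            ((fun g : V => (HNNExtension.t * HNNExtension.of g * HNNExtension.t⁻¹ : CE V S)) '' M ∪
            (fun g : V => (HNNExtension.of g : CE V S)) '' L) := by
          rw [← ho3, ← hv3, ← hα, ofAdd_toAdd]
          rw [hSτ] at ha
          refine Subgroup.closure_mono ?_ ha
          rintro y (hy | ⟨ρ, hρ, rfl⟩)
          · exact Or.inl hy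
          · exact Or.inr ⟨i ρ, hRL ρ hρ, rfl⟩
        have h2 := hA V S M L hSM hLM _ h1
        obtain ⟨M', _, φm, zm, um, g1, g2, g3, g4⟩ := hG K Q Rr π x t hb
        obtain ⟨Θ, f1, f2, f3⟩ := hliftV M' φm zm um g1 g2 g3
        have h3 : L ≤ (Subgroup.closure
          (((Subgroup.closure {φm x * um, (φm t)⁻¹ * zm ^ 2 * φm t} ⊓
            Subgroup.closure (Set.range φm ∪ {zm}) : Subgroup M') : Set M') ∪
            φm '' (Rr : Set K))).comap Θ := by
          rw [hL, Subgroup.closure_le]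
          rintro y (⟨hy1, hy2⟩ | ⟨ρ, hρ, rfl⟩)
          · refine Subgroup.subset_closure (Or.inl ⟨?_, ?_⟩)
            · have : S ≤ (Subgroup.closure {φm x * um, (φm t)⁻¹ * zm ^ 2 * φm t}).comap Θ := by
                rw [hSdef, Subgroup.closure_le]
                rintro w (rfl | hw)
                · refine Subgroup.subset_closure (Or.inl ?_)
                  rw [map_mul, f1, f3]
                · rw [Set.mem_singleton_iff] at hw
                  refine Subgroup.subset_closure (Or.inr ?_)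
                  rw [hw, map_mul, map_mul, map_inv, map_pow, f1, f2]
                  rfl
              exact this hy1
            · have : M ≤ (Subgroup.closure (Set.range φm ∪ {zm})).comap Θ := by
                rw [hM, Subgroup.closure_le]
                rintro w (⟨k, rfl⟩ | hw)
                · refine Subgroup.subset_closure (Or.inl ⟨k, ?_⟩)
                  rw [f1]
                · rw [Set.mem_singleton_iff] at hw
                  refine Subgroup.subset_closure (Or.inr ?_)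
                  rw [hw, f2]
                  rfl
              exact this hy2
          · refine Subgroup.subset_closure (Or.inr ⟨ρ, hρ, ?_⟩)
            rw [f1]
        have h4 := h3 h2
        rw [Subgroup.mem_comap, map_mul, map_mul, map_inv, map_zpow, f1, f2] at h4
        have h5 : (φm sn)⁻¹ * zm ^ a.toAdd * φm sn = ((φm sn)⁻¹ * zm * φm sn) ^ a.toAdd := by
          have := conj_zpow (a := (φm sn)⁻¹) (b := zm) (i := a.toAdd)
          rw [inv_inv] at this
          exact this.symm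
        rw [h5, hsn] at h4
        have h6 := g4 n hpos a.toAdd h4 g hg1
        obtain ⟨b, hb'⟩ := h6
        refine Subgroup.mem_zpowers_iff.2 ⟨b, ?_⟩
        rw [← ofAdd_zsmul, smul_eq_mul, mul_comm, ← hb', ofAdd_toAdd]
      · intro ha
        obtain ⟨b, rfl⟩ := Subgroup.mem_zpowers_iff.1 ha
        rw [map_zpow]
        exact zpow_mem hmem b
    obtain ⟨Φ, hΦ, hΦ1, hΦ2⟩ := hS (Multiplicative ℤ) (CE V S) α
      (Subgroup.zpowers (Multiplicative.ofAdd g)) Sτ hαinj hiff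
    refine ⟨(MulAut.conj (o4 (o3 (i sn)))).toMonoidHom.comp Φ, ?_, ?_, ?_⟩
    · exact (MulAut.conj (o4 (o3 (i sn)))).injective.comp hΦ
    · show o4 (o3 (i sn)) * Φ (HNNExtension.of (Multiplicative.ofAdd 1)) *
        (o4 (o3 (i sn)))⁻¹ = o4 (o3 z)
      rw [hΦ1, ← ho4, hα, zpow_one]
      simp only [map_mul, map_inv]
      group
    · show o4 (o3 (i sn)) * Φ HNNExtension.t * (o4 (o3 (i sn)))⁻¹ =
        (o4.comp (o3.comp i)) (s x t n) * τ * ((o4.comp (o3.comp i)) (s x t n))⁻¹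
      rw [hΦ2, ← hτ, hsn]
      rfl

end Pool.Agent.Helper739_ISO.Tower
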