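import Mathlib
import Pool.Agent.Y817.ISO.Stm
import Pool.Agent.Helper739_ISO.Stm2
import Pool.Agent.Helper739_ISO.Tower
import Pool.Agent.Helper739_ISO.Pres

set_option autoImplicit false

/-!
Assembly: isomorphism of finite presentations is a complete c.e. equivalence relation.
-/

namespace Pool.Agent.Helper739_ISO.Final

open Pool.Agent.Y817.ISO Pool.Agent.Helper739_ISO Pool.Agent.Helper739_ISO.Tower

/-- Two homomorphisms which agree on generators are equal. -/
theorem hom_eq {G H : Type} [Group G] [Group H] {A : Set G} (hA : Subgroup.closure A = ⊤)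
    (f g : G →* H) (h : ∀ a ∈ A, f a = g a) : f = g :=
  MonoidHom.eq_of_eqOn_dense hA h

theorem W_eval {A H : Type} [Group H] (h : A → H) (c x t τ : A) (n : ℕ) :
    FreeGroup.lift h (FreeGroup.mk (W c x t τ n)) = 1 ↔
      Commute (h c) (s (h x) (h t) n * h τ * (s (h x) (h t) n)⁻¹) := by
  have e : FreeGroup.lift h (FreeGroup.mk (W c x t τ n)) =
      h c * (s (h x) (h t) n * h τ * (s (h x) (h t) n)⁻¹) * (h c)⁻¹ *
        (s (h x) (h t) n * h τ * (s (h x) (h t) n)⁻¹)⁻¹ := by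
    simp only [W, FreeGroup.lift_mk, List.map_cons, List.map_append, List.map_replicate,
      List.prod_cons, List.prod_append, List.prod_replicate, cond_true, cond_false, s,
      mul_inv_rev, inv_inv, zpow_neg, zpow_natCast, inv_pow, mul_assoc]
  rw [e, mul_inv_eq_one, mul_inv_eq_iff_eq_mul]
  rfl

/-- Commuting with the image of a group of type `Bg g`. -/
theorem commute_bg {g : ℤ} {H : Type} [Group H] (φ : Bg g →* H) (c : H)
    (h1 : Commute c (φ (HNNExtension.of (Multiplicative.ofAdd 1))))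
    (h2 : Commute c (φ HNNExtension.t)) (y : Bg g) : Commute c (φ y) := by
  have hy : y ∈ Subgroup.closure (Set.range (HNNExtension.of : Multiplicative ℤ →* Bg g) ∪
      {HNNExtension.t}) := by
    rw [hnn_closure]; trivial
  refine commute_closure φ c _ ?_ y hy
  rintro w (⟨k, rfl⟩ | hw)
  · have : (HNNExtension.of k : Bg g) = (HNNExtension.of (Multiplicative.ofAdd 1)) ^ k.toAdd := by
      rw [← map_zpow, ← ofAdd_zsmul, smul_eq_mul, mul_one, ofAdd_toAdd]
    rw [this, map_zpow]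
    exact h1.zpow_right _
  · rw [Set.mem_singleton_iff] at hw
    rw [hw]; exact h2

/-- Everything about the group `K`. -/
structure KData {P ι J : Type} [DecidableEq J] (D : Rules P ι J) (K : Type) [Group K]
    (X : Multiplicative (J → ℤ) →* K) (t : P → K) (r : ι → K) (Q Rr : Subgroup K) : Prop where
  rel : Rel D K X t r
  cl : Subgroup.closure (Set.range X ∪ Set.range t ∪ Set.range r) = ⊤
  lift : ∀ (H : Type) [Group H] (X' : Multiplicative (J → ℤ) →* H) (t' : P → H) (r' : ι → H),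
      Rel D H X' t' r' → ∃ Φ : K →* H, (∀ v, Φ (X v) = X' v) ∧ (∀ p, Φ (t p) = t' p) ∧
        ∀ i, Φ (r i) = r' i
  hQ : Q = Subgroup.closure (Set.range X ∪ Set.range r)
  hR : Rr = Subgroup.closure (Set.range r)

theorem s_eq {K J : Type} [Group K] [DecidableEq J] (X : Multiplicative (J → ℤ) →* K) {P : Type}
    (t : P → K) (B : P) (e : J) (n : ℤ) :
    s (X (Multiplicative.ofAdd (Pi.single e 1))) (t B) n = T X t B (Pi.single e n) := by
  have h : X (Multiplicative.ofAdd (Pi.single e n)) =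
      X (Multiplicative.ofAdd (Pi.single e 1)) ^ n := by
    rw [← map_zpow, ← ofAdd_zsmul]
    congr 2
    rw [← Pi.single_smul]
    simp
  rw [s, T, h, zpow_neg]

/-- The generating family of the amalgam. -/
def gens {P ι J A : Type} [DecidableEq J] [Group A] (X : Multiplicative (J → ℤ) →* A) (t : P → A)
    (r : ι → A) (z u v τ c : A) : Gen P ι J → A :=
  Sum.elim (fun j => X (Multiplicative.ofAdd (Pi.single j 1)))
    (Sum.elim t (Sum.elim r ![z, u, v, τ, c]))

theorem relU_map {K U H : Type} [Group K] [Group U] [Group H] (Q Rr : Subgroup K) (φ : K →* U)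
    (z u v τ : U) (f : U →* H) (x₀ t₀ : K) (hr : RelU Q Rr x₀ t₀ U φ z u v τ) :
    RelU Q Rr x₀ t₀ H (f.comp φ) (f z) (f u) (f v) (f τ) where
  zq := fun q hq => (hr.zq q hq).map f
  uk := fun k => (hr.uk k).map f
  uz := by rw [← map_inv, ← map_mul, ← map_mul, hr.uz, map_pow]
  vx := by
    have := hr.vx.map f
    rw [map_mul] at this
    exact this
  vt := by
    have := hr.vt.map f
    simp only [map_mul, map_inv, map_pow] at this
    exact this
  τk := fun k => by
    have := (hr.τk k).map f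
    simp only [map_mul, map_inv] at this
    exact this
  τz := by
    have := hr.τz.map f
    simp only [map_mul, map_inv] at this
    exact this
  τr := fun ρ hρ => (hr.τr ρ hρ).map f

theorem lift_of_eq {A : Type} (rels : Set (FreeGroup A)) (w : FreeGroup A) :
    FreeGroup.lift (PresentedGroup.of (rels := rels)) w = PresentedGroup.mk rels w := by
  have : FreeGroup.lift (PresentedGroup.of (rels := rels)) = PresentedGroup.mk rels := by
    ext x
    simp [PresentedGroup.of]
  rw [this]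

section pres

variable {P ι J : Type} [Fintype P] [Fintype ι] [Fintype J] [DecidableEq J] (D : Rules P ι J)
  (B : P) (e : J) {K : Type} [Group K] (X : Multiplicative (J → ℤ) →* K) (t : P → K) (r : ι → K)
  (Q Rr : Subgroup K) (hK : KData D K X t r Q Rr)
  {U : Type} [Group U] (φ : K →* U) (z u v τ : U)

include hK

/-- `RelU` from `GenRel`. -/
theorem relU_of_gen (H : Type) [Group H] (X' : Multiplicative (J → ℤ) →* H) (t' : P → H)
    (r' : ι → H) (z' u' v' τ' c' : H) (hg : GenRel D B e H X' t' r' z' u' v' τ' c')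
    (φ' : K →* H) (h1 : ∀ v, φ' (X v) = X' v) (h2 : ∀ p, φ' (t p) = t' p)
    (h3 : ∀ i, φ' (r i) = r' i) :
    RelU Q Rr (X (Multiplicative.ofAdd (Pi.single e 1))) (t B) H φ' z' u' v' τ' where
  zq := by
    rw [hK.hQ]
    apply commute_closure
    rintro g (⟨w, rfl⟩ | ⟨i, rfl⟩)
    · rw [h1]; exact hg.zx w
    · rw [h3]; exact hg.zr i
  uk := by
    intro k
    have hk : k ∈ Subgroup.closure (Set.range X ∪ Set.range t ∪ Set.range r) := by
      rw [hK.cl]; trivial
    refine commute_closure φ' u' _ ?_ k hk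
    rintro g ((⟨w, rfl⟩ | ⟨p, rfl⟩) | ⟨i, rfl⟩)
    · rw [h1]; exact hg.ux w
    · rw [h2]; exact hg.ut p
    · rw [h3]; exact hg.ur i
  uz := hg.uz
  vx := by rw [h1]; exact hg.vx
  vt := by rw [h2]; exact hg.vt
  τk := by
    intro k
    have hk : k ∈ Subgroup.closure (Set.range X ∪ Set.range t ∪ Set.range r) := by
      rw [hK.cl]; trivial
    refine commute_closure ((MulAut.conj v').toMonoidHom.comp φ') τ' _ ?_ k hk
    rintro g ((⟨w, rfl⟩ | ⟨p, rfl⟩) | ⟨i, rfl⟩)
    · show Commute τ' (v' * φ' (X w) * v'⁻¹)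
      rw [h1]; exact hg.τx w
    · show Commute τ' (v' * φ' (t p) * v'⁻¹)
      rw [h2]; exact hg.τt p
    · show Commute τ' (v' * φ' (r i) * v'⁻¹)
      rw [h3]; exact hg.τr' i
  τz := hg.τz
  τr := by
    rw [hK.hR]
    apply commute_closure
    rintro g ⟨i, rfl⟩
    rw [h3]; exact hg.τr i

/-- `GenRel` from `RelU`. -/
theorem gen_of_relU (H : Type) [Group H] (φ' : K →* H) (z' u' v' τ' c' : H)
    (hr : RelU Q Rr (X (Multiplicative.ofAdd (Pi.single e 1))) (t B) H φ' z' u' v' τ')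
    (hc : c' ^ 5 = 1) (hcz : Commute c' z') :
    GenRel D B e H (φ'.comp X) (fun p => φ' (t p)) (fun i => φ' (r i)) z' u' v' τ' c' where
  rel :=
    { shift := fun i w => by
        have := congrArg φ' (hK.rel.shift i w)
        rw [map_mul, map_mul] at this
        exact this
      rule := fun i => by
        have := congrArg φ' (hK.rel.rule i)
        simp only [T, map_mul, map_inv] at this ⊢
        exact this }
  zx := fun w => hr.zq _ (by
    rw [hK.hQ]; exact Subgroup.subset_closure (Or.inl ⟨_, rfl⟩))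
  zr := fun i => hr.zq _ (by
    rw [hK.hQ]; exact Subgroup.subset_closure (Or.inr ⟨_, rfl⟩))
  ux := fun w => hr.uk _
  ut := fun p => hr.uk _
  ur := fun i => hr.uk _
  uz := hr.uz
  vx := hr.vx
  vt := hr.vt
  τx := fun w => hr.τk _
  τt := fun p => hr.τk _
  τr' := fun i => hr.τk _
  τz := hr.τz
  τr := fun i => hr.τr _ (by rw [hK.hR]; exact Subgroup.subset_closure ⟨_, rfl⟩)
  c5 := hc
  cz := hcz

theorem pres_iso (L : List (List (Gen P ι J × Bool)))
    (hL : ∀ (H : Type) [Group H] (h : Gen P ι J → H),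
      (∀ w ∈ L, FreeGroup.lift h (FreeGroup.mk w) = 1) ↔
      ∃ X : Multiplicative (J → ℤ) →* H,
        (∀ j, X (Multiplicative.ofAdd (Pi.single j 1)) = h (Sum.inl j)) ∧
        GenRel D B e H X (fun p => h (Sum.inr (Sum.inl p)))
          (fun i => h (Sum.inr (Sum.inr (Sum.inl i)))) (h (Sum.inr (Sum.inr (Sum.inr 0))))
          (h (Sum.inr (Sum.inr (Sum.inr 1)))) (h (Sum.inr (Sum.inr (Sum.inr 2))))
          (h (Sum.inr (Sum.inr (Sum.inr 3)))) (h (Sum.inr (Sum.inr (Sum.inr 4)))))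
    (hr : RelU Q Rr (X (Multiplicative.ofAdd (Pi.single e 1))) (t B) U φ z u v τ)
    (hcl : Subgroup.closure (Set.range φ ∪ {z, u, v, τ}) = ⊤)
    (hlift : ∀ (H : Type) [Group H] (φ' : K →* H) (z' u' v' τ' : H),
      RelU Q Rr (X (Multiplicative.ofAdd (Pi.single e 1))) (t B) H φ' z' u' v' τ' →
      ∃ Φ : U →* H, (∀ k, Φ (φ k) = φ' k) ∧ Φ z = z' ∧ Φ u = u' ∧ Φ v = v' ∧ Φ τ = τ')
    (amup : StmAmUP) (n : ℕ) (g : ℤ) (β : Bg g →* U)
    (hβ1 : β (HNNExtension.of (Multiplicative.ofAdd 1)) = z)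
    (hβ2 : β HNNExtension.t = φ (s (X (Multiplicative.ofAdd (Pi.single e 1))) (t B) n) * τ *
      (φ (s (X (Multiplicative.ofAdd (Pi.single e 1))) (t B) n))⁻¹) :
    Nonempty (PresentedGroup {g : FreeGroup (Gen P ι J) | ∃ w ∈ W (Sum.inr (Sum.inr (Sum.inr 4)))
      (Sum.inl e) (Sum.inr (Sum.inl B)) (Sum.inr (Sum.inr (Sum.inr 3))) n :: L,
        g = FreeGroup.mk w} ≃* Amal β) := by
  obtain ⟨ο, c, hc5, hcc, hclA, hliftA⟩ := amup (Bg g) U β
  obtain ⟨rels, hrels⟩ : ∃ rels : Set (FreeGroup (Gen P ι J)), rels = {g : FreeGroup (Gen P ι J) |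
      ∃ w ∈ W (Sum.inr (Sum.inr (Sum.inr 4)))
      (Sum.inl e) (Sum.inr (Sum.inl B)) (Sum.inr (Sum.inr (Sum.inr 3))) n :: L,
        g = FreeGroup.mk w} := ⟨_, rfl⟩
  rw [← hrels]
  have hcz : Commute c (ο z) := by rw [← hβ1]; exact hcc _
  -- forward
  obtain ⟨h, hh⟩ : ∃ h : Gen P ι J → Amal β, h = gens ((ο.comp φ).comp X)
      (fun p => ο (φ (t p))) (fun i => ο (φ (r i))) (ο z) (ο u) (ο v) (ο τ) c := ⟨_, rfl⟩
  have hrelA := relU_map Q Rr φ z u v τ ο _ _ hr
  have hgenA := gen_of_relU D B e X t r Q Rr hK (Amal β) (ο.comp φ) (ο z) (ο u) (ο v) (ο τ) c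
    hrelA hc5 hcz
  have hwA : ∀ w ∈ L, FreeGroup.lift h (FreeGroup.mk w) = 1 := by
    rw [hL, hh]
    exact ⟨_, fun j => rfl, hgenA⟩
  have hWA : FreeGroup.lift h (FreeGroup.mk (W (Sum.inr (Sum.inr (Sum.inr 4)))
      (Sum.inl e) (Sum.inr (Sum.inl B)) (Sum.inr (Sum.inr (Sum.inr 3))) n)) = 1 := by
    rw [W_eval, hh]
    have h1 := hcc HNNExtension.t
    rw [hβ2, map_mul, map_mul, map_inv] at h1
    have h2 : ο (φ (s (X (Multiplicative.ofAdd (Pi.single e 1))) (t B) n)) =
        s (ο (φ (X (Multiplicative.ofAdd (Pi.single e 1))))) (ο (φ (t B))) n := by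
      rw [map_s, map_s]
    rw [h2] at h1
    exact h1
  have hrel1 : ∀ w ∈ rels, FreeGroup.lift h w = 1 := by
    rw [hrels]
    rintro _ ⟨w, hw, rfl⟩
    rcases List.mem_cons.1 hw with rfl | hw
    · exact hWA
    · exact hwA w hw
  let F : PresentedGroup rels →* Amal β := PresentedGroup.toGroup hrel1
  have hF : ∀ a, F (PresentedGroup.of a) = h a := fun a => PresentedGroup.toGroup.of hrel1
  -- backward
  have hrel2 : ∀ w ∈ W (Sum.inr (Sum.inr (Sum.inr 4)))
      (Sum.inl e) (Sum.inr (Sum.inl B)) (Sum.inr (Sum.inr (Sum.inr 3))) n :: L,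
      FreeGroup.lift (PresentedGroup.of (rels := rels)) (FreeGroup.mk w) = 1 := by
    intro w hw
    rw [lift_of_eq]
    apply PresentedGroup.one_of_mem
    rw [hrels]
    exact ⟨w, hw, rfl⟩
  obtain ⟨X', hX', hgen⟩ := (hL (PresentedGroup rels) PresentedGroup.of).1
    (fun w hw => hrel2 w (List.mem_cons_of_mem _ hw))
  have hW' := hrel2 _ List.mem_cons_self
  rw [W_eval] at hW'
  obtain ⟨φ', f1, f2, f3⟩ := hK.lift (PresentedGroup rels) X'
    (fun p => PresentedGroup.of (Sum.inr (Sum.inl p)))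
    (fun i => PresentedGroup.of (Sum.inr (Sum.inr (Sum.inl i)))) hgen.rel
  have hru := relU_of_gen D B e X t r Q Rr hK (PresentedGroup rels) X' _ _ _ _ _ _ _ hgen φ' f1 f2 f3
  obtain ⟨Φ, k1, k2, k3, k4, k5⟩ := hlift (PresentedGroup rels) φ' _ _ _ _ hru
  obtain ⟨G, m1, m2⟩ := hliftA (PresentedGroup rels) Φ (PresentedGroup.of (Sum.inr (Sum.inr (Sum.inr 4))))
    hgen.c5 (by
      intro y
      refine commute_bg (Φ.comp β) _ ?_ ?_ y
      · show Commute _ (Φ (β _))
        rw [hβ1, k2]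
        exact hgen.cz
      · show Commute _ (Φ (β _))
        rw [hβ2, map_mul, map_mul, map_inv, k1, k5, map_s, f1, f2, hX']
        exact hW')
  -- the compositions
  have hXX : ∀ w : J → ℤ, F (X' (Multiplicative.ofAdd w)) = ο (φ (X (Multiplicative.ofAdd w))) := by
    intro w
    refine Pres.hom_ext (X := F.comp X') (Y := (ο.comp φ).comp X) ?_ w
    intro k
    show F (X' _) = ο (φ (X _))
    rw [hX', hF, hh]
    rfl
  refine ⟨MonoidHom.toMulEquiv F G ?_ ?_⟩
  · apply PresentedGroup.ext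
    intro a
    show G (F (PresentedGroup.of a)) = PresentedGroup.of a
    rw [hF, hh]
    rcases a with j | p | i | k
    · show G (ο (φ (X (Multiplicative.ofAdd (Pi.single j 1))))) = _
      rw [m1, k1, f1, hX']
    · show G (ο (φ (t p))) = _
      rw [m1, k1, f2]
    · show G (ο (φ (r i))) = _
      rw [m1, k1, f3]
    · fin_cases k
      · show G (ο z) = _
        rw [m1, k2]
        rfl
      · show G (ο u) = _
        rw [m1, k3]
        rfl
      · show G (ο v) = _
        rw [m1, k4]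
        rfl
      · show G (ο τ) = _
        rw [m1, k5]
        rfl
      · show G c = _
        rw [m2]
        rfl
  · refine hom_eq hclA _ _ ?_
    rintro a (⟨y, rfl⟩ | ha)
    · show F (G (ο y)) = ο y
      rw [m1]
      have e1 : F.comp Φ = ο := by
        refine hom_eq hcl _ _ ?_
        rintro a (⟨k, rfl⟩ | ha)
        · show F (Φ (φ k)) = ο (φ k)
          rw [k1]
          have e2 : F.comp φ' = ο.comp φ := by
            refine hom_eq hK.cl _ _ ?_
            rintro a ((⟨w, rfl⟩ | ⟨p, rfl⟩) | ⟨i, rfl⟩)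
            · show F (φ' (X w)) = ο (φ (X w))
              rw [f1]
              exact hXX w.toAdd
            · show F (φ' (t p)) = ο (φ (t p))
              rw [f2, hF, hh]
              rfl
            · show F (φ' (r i)) = ο (φ (r i))
              rw [f3, hF, hh]
              rfl
          exact DFunLike.congr_fun e2 k
        · rcases ha with rfl | rfl | rfl | ha
          · show F (Φ a) = ο a
            rw [k2, hF, hh]
            rfl
          · show F (Φ a) = ο a
            rw [k3, hF, hh]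
            rfl
          · show F (Φ a) = ο a
            rw [k4, hF, hh]
            rfl
          · rw [Set.mem_singleton_iff] at ha
            rw [ha]
            show F (Φ τ) = ο τ
            rw [k5, hF, hh]
            rfl
      exact DFunLike.congr_fun e1 y
    · rw [Set.mem_singleton_iff] at ha
      rw [ha]
      show F (G c) = c
      rw [m2, hF, hh]
      rfl

end pres

theorem conj_comm {H : Type} [Group H] (ρ c y : H) (h : Commute c y) :
    Commute (ρ * c * ρ⁻¹) (ρ * y * ρ⁻¹) :=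
  h.map (MulAut.conj ρ).toMonoidHom

theorem amal_hom {U : Type} [Group U] (g g' : ℤ) (β : Bg g →* U) (β' : Bg g' →* U)
    (ρ : U) (h1 : Commute ρ (β (HNNExtension.of (Multiplicative.ofAdd 1))))
    (hz : β (HNNExtension.of (Multiplicative.ofAdd 1)) =
      β' (HNNExtension.of (Multiplicative.ofAdd 1)))
    (ht : β HNNExtension.t = ρ * β' HNNExtension.t * ρ⁻¹)
    (H : Type) [Group H] (φ : U →* H) (c : H) (hc : c ^ 5 = 1)
    (hcc : ∀ e, Commute c (φ (β' e))) :
    (φ ρ * c * (φ ρ)⁻¹) ^ 5 = 1 ∧ ∀ e, Commute (φ ρ * c * (φ ρ)⁻¹) (φ (β e)) := by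
  refine ⟨?_, fun y => ?_⟩
  · rw [_root_.conj_pow, hc, mul_one, mul_inv_cancel]
  · refine commute_bg (φ.comp β) _ ?_ ?_ y
    · show Commute _ (φ (β _))
      have h2 : φ ρ * φ (β (HNNExtension.of (Multiplicative.ofAdd 1))) * (φ ρ)⁻¹ =
          φ (β (HNNExtension.of (Multiplicative.ofAdd 1))) := by
        rw [(h1.map φ).eq, mul_assoc, mul_inv_cancel, mul_one]
      rw [← h2]
      apply conj_comm
      rw [hz]
      exact hcc _
    · show Commute _ (φ (β _))
      rw [ht, map_mul, map_mul, map_inv]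
      exact conj_comm _ _ _ (hcc _)

theorem amal_iso (amup : StmAmUP) {U : Type} [Group U] (g g' : ℤ) (β : Bg g →* U) (β' : Bg g' →* U)
    (ρ : U) (h1 : Commute ρ (β (HNNExtension.of (Multiplicative.ofAdd 1))))
    (hz : β (HNNExtension.of (Multiplicative.ofAdd 1)) =
      β' (HNNExtension.of (Multiplicative.ofAdd 1)))
    (ht : β HNNExtension.t = ρ * β' HNNExtension.t * ρ⁻¹) :
    Nonempty (Amal β ≃* Amal β') := by
  obtain ⟨ο, c, hc5, hcc, hcl, hlift⟩ := amup (Bg g) U β
  obtain ⟨ο', c', hc5', hcc', hcl', hlift'⟩ := amup (Bg g') U β'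
  obtain ⟨a1, a2⟩ := amal_hom g g' β β' ρ h1 hz ht (Amal β') ο' c' hc5' hcc'
  obtain ⟨F, F1, F2⟩ := hlift (Amal β') ο' _ a1 a2
  obtain ⟨b1, b2⟩ := amal_hom g' g β' β ρ⁻¹ (by rw [← hz]; exact h1.inv_left) hz.symm
    (by rw [ht]; group) (Amal β) ο c hc5 hcc
  obtain ⟨G, G1, G2⟩ := hlift' (Amal β) ο _ b1 b2
  refine ⟨MonoidHom.toMulEquiv F G ?_ ?_⟩
  · refine hom_eq hcl _ _ ?_
    rintro a (⟨y, rfl⟩ | ha)
    · show G (F (ο y)) = ο y
      rw [F1, G1]
    · rw [Set.mem_singleton_iff] at ha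
      rw [ha]
      show G (F c) = c
      rw [F2, map_mul, map_mul, map_inv, G1, G2, map_inv]
      group
  · refine hom_eq hcl' _ _ ?_
    rintro a (⟨y, rfl⟩ | ha)
    · show F (G (ο' y)) = ο' y
      rw [G1, F1]
    · rw [Set.mem_singleton_iff] at ha
      rw [ha]
      show F (G c') = c'
      rw [G2]
      simp only [map_mul, map_inv, F1, F2]
      group

theorem main (arith : StmArith) (graph : StmGraph) (kk : StmK) (tower : StmTower) (amup : StmAmUP)
    (inv : StmInv) (code : StmCode) (pres : StmPres) (R : ℕ → ℕ → Prop) (hR : Equivalence R)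
    (hre : REPred (fun p : ℕ × ℕ => R p.1 p.2)) :
    ∃ f : ℕ → ℕ × List (List (ℕ × Bool)), Computable f ∧
      ∀ x y, R x y ↔ Nonempty (PG (f x) ≃* PG (f y)) := by
  classical
  obtain ⟨Xu, _, n, m, L, hnm, hdef⟩ := arith R hre
  obtain ⟨P, ι, J, _, _, _, _, D, B, e, hgraph⟩ := graph R hR Xu n m L hnm hdef
  obtain ⟨K, _, X, t, r, hrel, htf, hcl, hlift, hconj⟩ := kk P ι J D
  obtain ⟨Q, hQ⟩ : ∃ Q : Subgroup K, Q = Subgroup.closure (Set.range X ∪ Set.range r) := ⟨_, rfl⟩
  obtain ⟨Rr, hRr⟩ : ∃ Rr : Subgroup K, Rr = Subgroup.closure (Set.range r) := ⟨_, rfl⟩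
  have hK : KData D K X t r Q Rr := ⟨hrel, hcl, hlift, hQ, hRr⟩
  obtain ⟨π, p1, p2, p3⟩ := hlift K X (fun _ => 1) r
    { shift := hrel.shift
      rule := fun i => by simp [T] }
  obtain ⟨x, hx⟩ : ∃ x : K, x = X (Multiplicative.ofAdd (Pi.single e 1)) := ⟨_, rfl⟩
  have hbot : Bot K Q Rr π x (t B) :=
    { tf := htf
      mem := by
        intro k
        have hk : k ∈ Subgroup.closure (Set.range X ∪ Set.range t ∪ Set.range r) := by
          rw [hcl]; trivial
        have h1 : Subgroup.closure (Set.range X ∪ Set.range t ∪ Set.range r) ≤ Q.comap π := by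
          rw [Subgroup.closure_le]
          rintro a ((⟨w, rfl⟩ | ⟨p, rfl⟩) | ⟨i, rfl⟩)
          · show π (X w) ∈ Q
            rw [p1, hQ]; exact Subgroup.subset_closure (Or.inl ⟨_, rfl⟩)
          · show π (t p) ∈ Q
            rw [p2]; exact one_mem _
          · show π (r i) ∈ Q
            rw [p3, hQ]; exact Subgroup.subset_closure (Or.inr ⟨_, rfl⟩)
        exact h1 hk
      fix := by
        intro q hq
        rw [hQ] at hq
        induction hq using Subgroup.closure_induction with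
        | mem y hy =>
          rcases hy with ⟨w, rfl⟩ | ⟨i, rfl⟩
          · exact p1 w
          · exact p3 i
        | one => exact map_one _
        | mul a b _ _ ha hb => rw [map_mul, ha, hb]
        | inv a _ ha => rw [map_inv, ha]
      le := by
        rw [hQ, hRr]
        exact Subgroup.closure_mono Set.subset_union_right
      x_mem := by
        rw [hx, hQ]; exact Subgroup.subset_closure (Or.inl ⟨_, rfl⟩)
      t_one := p2 B }
  have hC : ∀ k k' : ℤ, Conn Rr x (t B) k k' ↔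
      (k = k' ∨ ∃ a b : ℕ, k = a ∧ k' = b ∧ R a b) := by
    intro k k'
    rw [← hgraph k k', ← hconj, Conn, hRr, hx, s_eq, s_eq]
  obtain ⟨U, _, φ, z, u, v, τ, tfU, hr, hclU, hliftU, hβ⟩ := tower K Q Rr π x (t B) hbot
  -- the smallest element of the class
  have hex : ∀ n : ℕ, ∃ a, R n a := fun n => ⟨n, hR.refl n⟩
  obtain ⟨a, ha⟩ : ∃ a : ℕ → ℕ, ∀ n, R n (a n) ∧ ∀ b, R n b → a n ≤ b :=
    ⟨fun n => Nat.find (hex n), fun n => ⟨Nat.find_spec (hex n), fun b hb => Nat.find_min' _ hb⟩⟩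
  have hpos : ∀ n : ℕ, ∀ m : ℤ, Conn Rr x (t B) n m → ∃ b : ℕ, m = b ∧ R n b := by
    intro n m hm
    rcases (hC _ _).1 hm with rfl | ⟨a, b, h1, rfl, h3⟩
    · exact ⟨n, rfl, hR.refl n⟩
    · have : n = a := by exact_mod_cast h1
      subst this
      exact ⟨b, rfl, h3⟩
  have hβ' : ∀ n : ℕ, ∃ β : Bg ((2 : ℤ) ^ (a n + 1)) →* U, Function.Injective β ∧
      β (HNNExtension.of (Multiplicative.ofAdd 1)) = z ∧
      β HNNExtension.t = φ (s x (t B) n) * τ * (φ (s x (t B) n))⁻¹ := by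
    intro n
    refine hβ n (by positivity) ?_ _ ?_ ?_
    · intro m hm
      obtain ⟨b, rfl, -⟩ := hpos n m hm
      positivity
    · intro m hm
      obtain ⟨b, rfl, hb⟩ := hpos n m hm
      rw [Int.toNat_natCast]
      exact pow_dvd_pow _ (by have := (ha n).2 b hb; omega)
    · refine ⟨a n, (hC _ _).2 (Or.inr ⟨n, a n, rfl, rfl, (ha n).1⟩), ?_⟩
      rw [Int.toNat_natCast]
  choose β hβinj hβ1 hβ2 using hβ'
  obtain ⟨Lw, hLw⟩ := pres P ι J D B e
  obtain ⟨f, hfc, hf⟩ := code (Gen P ι J) (Sum.inr (Sum.inr (Sum.inr 4)))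
      (Sum.inl e) (Sum.inr (Sum.inl B)) (Sum.inr (Sum.inr (Sum.inr 3))) Lw
  have hiso : ∀ n, Nonempty (PG (f n) ≃* Amal (β n)) := by
    intro n
    obtain ⟨e1⟩ := hf n
    subst hx
    obtain ⟨e2⟩ := pres_iso D B e X t r Q Rr hK φ z u v τ Lw hLw hr hclU hliftU amup n _ (β n)
      (hβ1 n) (hβ2 n)
    exact ⟨e1.trans e2⟩
  refine ⟨f, hfc, fun n m => ⟨fun hnm => ?_, fun hnm => ?_⟩⟩
  · obtain ⟨e1⟩ := hiso n
    obtain ⟨e2⟩ := hiso m
    have hc : Conn Rr x (t B) n m := (hC _ _).2 (Or.inr ⟨n, m, rfl, rfl, hnm⟩)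
    obtain ⟨ρ, hρ, hs⟩ := hc
    obtain ⟨e3⟩ := amal_iso amup _ _ (β n) (β m) (φ ρ)
      (by rw [hβ1]; exact (hr.zq ρ (hbot.le hρ)).symm) (by rw [hβ1, hβ1]) (by
        have h1 := (hr.τr ρ hρ).eq
        rw [hβ2, hβ2, hs]
        simp only [map_mul, map_inv, mul_inv_rev, inv_inv]
        have h2 : (φ ρ)⁻¹ * τ * φ ρ = τ := by
          rw [mul_assoc, h1, inv_mul_cancel_left]
        calc φ ρ * φ (s x (t B) m) * (φ ρ)⁻¹ * τ * (φ ρ * ((φ (s x (t B) m))⁻¹ * (φ ρ)⁻¹))
            = φ ρ * φ (s x (t B) m) * ((φ ρ)⁻¹ * τ * φ ρ) * ((φ (s x (t B) m))⁻¹ * (φ ρ)⁻¹) := by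
              simp only [mul_assoc]
          _ = _ := by rw [h2]; simp only [mul_assoc])
    exact ⟨e1.trans (e3.trans e2.symm)⟩
  · obtain ⟨e0⟩ := hnm
    obtain ⟨e1⟩ := hiso n
    obtain ⟨e2⟩ := hiso m
    have h1 := inv U (a n) (a m) (β n) (β m) tfU (hβinj n) (hβinj m)
      ⟨e1.symm.trans (e0.trans e2)⟩
    have h2 := (ha n).1
    have h3 := (ha m).1
    rw [← h1] at h3
    exact hR.trans h2 (hR.symm h3)

end Pool.Agent.Helper739_ISO.Final
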