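import Mathlib
import Pool.Agent.Y817.ISO.Stm
set_option autoImplicit false

namespace Pool.Agent.Helper739_ISO.GModel
open Pool.Agent.Y817.ISO

section

variable {K : Type} [Group K] (Q : Subgroup K)

/-- permutation of functions induced by the action on cosets -/
def phiE (k : K) : Equiv.Perm (K ⧸ Q → ℚ) where
  toFun F c := F (k⁻¹ • c)
  invFun F c := F (k • c)
  left_inv F := by funext c; simp
  right_inv F := by funext c; simp

/-- the action -/
def phi : K →* Equiv.Perm (K ⧸ Q → ℚ) where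
  toFun := phiE Q
  map_one' := by
    ext F c; simp [phiE]
  map_mul' a b := by
    ext F c
    change F ((a * b)⁻¹ • c) = F (b⁻¹ • a⁻¹ • c)
    rw [smul_smul, mul_inv_rev]

theorem phi_apply (k : K) (F : K ⧸ Q → ℚ) (c : K ⧸ Q) : phi Q k F c = F (k⁻¹ • c) := rfl

theorem phi_inv_apply (k : K) (F : K ⧸ Q → ℚ) (c : K ⧸ Q) : (phi Q k)⁻¹ F c = F (k • c) := by
  rw [← map_inv, phi_apply, inv_inv]

/-- translations -/
def trl : Multiplicative (K ⧸ Q → ℚ) →* Equiv.Perm (K ⧸ Q → ℚ) where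
  toFun v := Equiv.addRight v.toAdd
  map_one' := by ext F c; simp
  map_mul' a b := by
    ext F c
    simp only [Equiv.coe_addRight, Equiv.Perm.coe_mul, Function.comp, toAdd_mul, Pi.add_apply]
    ring

theorem trl_apply (v : Multiplicative (K ⧸ Q → ℚ)) (F : K ⧸ Q → ℚ) :
    trl Q v F = F + v.toAdd := rfl

open Classical in
/-- indicator of a coset -/
noncomputable def ind (q : K ⧸ Q) : K ⧸ Q → ℚ := fun c => if c = q then 1 else 0

/-- `z` -/
noncomputable def zz : Equiv.Perm (K ⧸ Q → ℚ) := trl Q (Multiplicative.ofAdd (ind Q (1 : K)))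

/-- `u` -/
def uu : Equiv.Perm (K ⧸ Q → ℚ) where
  toFun F c := F c / 2
  invFun F c := F c * 2
  left_inv F := by funext c; simp
  right_inv F := by funext c; simp

theorem conj_trl (k : K) (v : K ⧸ Q → ℚ) (a : ℤ) (F : K ⧸ Q → ℚ) (c : K ⧸ Q) :
    (((phi Q k)⁻¹ * (trl Q (Multiplicative.ofAdd v)) * phi Q k) ^ a) F c =
      F c + a * v (k • c) := by
  have h : ((phi Q k)⁻¹ * (trl Q (Multiplicative.ofAdd v)) * phi Q k) ^ a =
      (phi Q k)⁻¹ * (trl Q (Multiplicative.ofAdd v)) ^ a * phi Q k := by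
    have := conj_zpow (a := (phi Q k)⁻¹) (b := trl Q (Multiplicative.ofAdd v)) (i := a)
    rwa [inv_inv] at this
  rw [h, ← map_zpow, ← ofAdd_zsmul]
  change (phi Q k)⁻¹ (trl Q _ (phi Q k F)) c = _
  rw [phi_inv_apply, trl_apply]
  simp only [Pi.add_apply, toAdd_ofAdd, zsmul_eq_mul, phi_apply]
  rw [smul_smul, inv_mul_cancel, one_smul]
  rfl

/-- the groups of values -/
def AA (x t : K) (c : K ⧸ Q) : AddSubgroup ℚ :=
  AddSubgroup.closure {q | ∃ i : ℤ, ((x ^ (-i) * t⁻¹ : K) : K ⧸ Q) = c ∧ q = 2 ^ (i + 1)}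

theorem AA_shift (x t : K) (c : K ⧸ Q) (j : ℤ) {v : ℚ} (hv : v ∈ AA Q x t (x ^ (-j) • c)) :
    (2 : ℚ) ^ (-j) * v ∈ AA Q x t c := by
  refine AddSubgroup.closure_induction (p := fun v _ => (2 : ℚ) ^ (-j) * v ∈ AA Q x t c)
    ?_ ?_ ?_ ?_ hv
  · rintro q ⟨i, hi, rfl⟩
    apply AddSubgroup.subset_closure
    refine ⟨i - j, ?_, ?_⟩
    · have h1 : c = x ^ j • ((x ^ (-i) * t⁻¹ : K) : K ⧸ Q) := by
        rw [hi, smul_smul, ← zpow_add]; simp
      rw [h1, MulAction.Quotient.smul_coe, smul_eq_mul, ← mul_assoc, ← zpow_add]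
      congr 3; ring
    · rw [← zpow_add₀ (by norm_num)]
      congr 1; ring
  · simp [AddSubgroup.zero_mem]
  · intro a b _ _ ha hb; rw [mul_add]; exact AddSubgroup.add_mem _ ha hb
  · intro a _ ha; rw [mul_neg]; exact AddSubgroup.neg_mem _ ha

/-- the first form -/
def form1 (x t : K) : Subgroup (Equiv.Perm (K ⧸ Q → ℚ)) where
  carrier := {y | ∃ (j : ℤ) (h : K ⧸ Q → ℚ), (∀ c, h c ∈ AA Q x t c) ∧
    ∀ F c, y F c = h c + 2 ^ (-j) * F (x ^ (-j) • c)}
  one_mem' := ⟨0, 0, fun c => AddSubgroup.zero_mem _, fun F c => by simp⟩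
  mul_mem' := by
    rintro y1 y2 ⟨j1, h1, a1, b1⟩ ⟨j2, h2, a2, b2⟩
    refine ⟨j1 + j2, fun c => h1 c + 2 ^ (-j1) * h2 (x ^ (-j1) • c), fun c => ?_, fun F c => ?_⟩
    · exact AddSubgroup.add_mem _ (a1 c) (AA_shift Q x t c j1 (a2 _))
    · change y1 (y2 F) c = _
      rw [b1, b2, smul_smul, ← zpow_add]
      have e : (2 : ℚ) ^ (-(j1 + j2)) = 2 ^ (-j1) * 2 ^ (-j2) := by
        rw [← zpow_add₀ (by norm_num)]; congr 1; ring
      have e2 : -j2 + -j1 = -(j1 + j2) := by ring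
      rw [e, e2]; ring
  inv_mem' := by
    rintro y ⟨j, h, a, b⟩
    refine ⟨-j, fun c => -(2 ^ j * h (x ^ j • c)), fun c => ?_, fun F c => ?_⟩
    · apply AddSubgroup.neg_mem
      have := AA_shift Q x t c (-j) (v := h (x ^ j • c)) (by simpa using a _)
      simpa using this
    · have h1 := b (y⁻¹ F) (x ^ j • c)
      have h2 : y (y⁻¹ F) = F := by simp
      rw [h2, smul_smul, ← zpow_add] at h1
      simp only [neg_add_cancel, zpow_zero, one_smul] at h1
      rw [neg_neg, h1]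
      have h3 : (2 : ℚ) ^ j * 2 ^ (-j) = 1 := by
        rw [← zpow_add₀ (by norm_num)]; simp
      linear_combination (-(y⁻¹ F c)) * h3

/-- the second form -/
def form2 : Subgroup (Equiv.Perm (K ⧸ Q → ℚ)) where
  carrier := {y | ∃ (k : K) (h : K ⧸ Q → ℚ), ∀ F c, y F c = h c + F (k⁻¹ • c)}
  one_mem' := ⟨1, 0, fun F c => by simp⟩
  mul_mem' := by
    rintro y1 y2 ⟨k1, h1, b1⟩ ⟨k2, h2, b2⟩
    refine ⟨k1 * k2, fun c => h1 c + h2 (k1⁻¹ • c), fun F c => ?_⟩
    change y1 (y2 F) c = _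
    rw [b1, b2, smul_smul, mul_inv_rev]; ring
  inv_mem' := by
    rintro y ⟨k, h, b⟩
    refine ⟨k⁻¹, fun c => -h (k • c), fun F c => ?_⟩
    have h1 := b (y⁻¹ F) (k • c)
    have h2 : y (y⁻¹ F) = F := by simp
    rw [h2, smul_smul, inv_mul_cancel, one_smul] at h1
    rw [inv_inv, h1]; ring

/-- the final form -/
def form3 (Rr : Subgroup K) (s : K) (g : ℤ) : Subgroup (Equiv.Perm (K ⧸ Q → ℚ)) where
  carrier := {y | ∃ ρ ∈ Rr, ∃ h : K ⧸ Q → ℚ, (∀ F c, y F c = h c + F (ρ⁻¹ • c)) ∧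
    ∀ σ ∈ Rr, ∃ c : ℤ, h ((σ * s⁻¹ : K) : K ⧸ Q) = g * c}
  one_mem' := ⟨1, Rr.one_mem, 0, fun F c => by simp, fun σ _ => ⟨0, by simp⟩⟩
  mul_mem' := by
    rintro y1 y2 ⟨ρ1, r1, h1, b1, d1⟩ ⟨ρ2, r2, h2, b2, d2⟩
    refine ⟨ρ1 * ρ2, Rr.mul_mem r1 r2, fun c => h1 c + h2 (ρ1⁻¹ • c), fun F c => ?_,
      fun σ hσ => ?_⟩
    · change y1 (y2 F) c = _
      rw [b1, b2, smul_smul, mul_inv_rev]; ring
    · obtain ⟨c1, e1⟩ := d1 σ hσ
      obtain ⟨c2, e2⟩ := d2 (ρ1⁻¹ * σ) (Rr.mul_mem (Rr.inv_mem r1) hσ)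
      refine ⟨c1 + c2, ?_⟩
      rw [mul_assoc] at e2
      simp only
      rw [e1, MulAction.Quotient.smul_coe, smul_eq_mul, e2]
      push_cast; ring
  inv_mem' := by
    rintro y ⟨ρ, r, h, b, d⟩
    refine ⟨ρ⁻¹, Rr.inv_mem r, fun c => -h (ρ • c), fun F c => ?_, fun σ hσ => ?_⟩
    · have h1 := b (y⁻¹ F) (ρ • c)
      have h2 : y (y⁻¹ F) = F := by simp
      rw [h2, smul_smul, inv_mul_cancel, one_smul] at h1
      rw [inv_inv, h1]; ring
    · obtain ⟨c1, e1⟩ := d (ρ * σ) (Rr.mul_mem r hσ)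
      refine ⟨-c1, ?_⟩
      rw [mul_assoc] at e1
      change -h (ρ • ((σ * s⁻¹ : K) : K ⧸ Q)) = _
      rw [MulAction.Quotient.smul_coe, smul_eq_mul, e1]
      push_cast; ring

end

theorem gmodel : StmGModel := by
  intro K _ Q Rr π x t hB
  refine ⟨Equiv.Perm (K ⧸ Q → ℚ), inferInstance, phi Q, zz Q, uu Q, ?_, ?_, ?_, ?_⟩
  · intro q hq
    ext F c
    change F (q⁻¹ • c) + ind Q (1 : K) c = F (q⁻¹ • c) + ind Q (1 : K) (q⁻¹ • c)
    congr 1
    have h1 : (q⁻¹ • c = ((1 : K) : K ⧸ Q)) ↔ c = ((1 : K) : K ⧸ Q) := by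
      rw [inv_smul_eq_iff, MulAction.Quotient.smul_coe, smul_eq_mul, mul_one]
      have : ((q : K) : K ⧸ Q) = ((1 : K) : K ⧸ Q) := by
        rw [QuotientGroup.eq]; simpa using hq
      rw [this]
    unfold ind
    by_cases hc : c = ((1 : K) : K ⧸ Q)
    · rw [if_pos hc, if_pos (h1.mpr hc)]
    · rw [if_neg hc, if_neg (fun h => hc (h1.mp h))]
  · intro k
    ext F c
    rfl
  · ext F c
    change ((uu Q)⁻¹ (zz Q (uu Q F))) c = (zz Q ^ 2) F c
    rw [zz, ← map_pow, ← ofAdd_nsmul, trl_apply, trl_apply]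
    change ((uu Q F) c + _) * 2 = _
    change (F c / 2 + _) * 2 = _
    simp
    ring
  · intro n hn a ha g hg
    have hs : s x t n = x ^ (-n) * t * x ^ n := rfl
    -- the first closure
    have hA : Subgroup.closure {phi Q x * uu Q, (phi Q t)⁻¹ * (zz Q) ^ 2 * phi Q t} ≤
        form1 Q x t := by
      rw [Subgroup.closure_le]
      rintro y (rfl | rfl)
      · refine ⟨1, 0, fun c => AddSubgroup.zero_mem _, fun F c => ?_⟩
        change (F (x⁻¹ • c)) / 2 = _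
        simp; ring
      · refine ⟨0, fun c => 2 * ind Q (1 : K) (t • c), fun c => ?_, fun F c => ?_⟩
        · by_cases h : t • c = ((1 : K) : K ⧸ Q)
          · apply AddSubgroup.subset_closure
            refine ⟨0, ?_, by simp [ind, h]⟩
            rw [smul_eq_iff_eq_inv_smul, MulAction.Quotient.smul_coe, smul_eq_mul, mul_one] at h
            rw [h]; simp
          · simp only [ind, if_neg h]
            rw [mul_zero]; exact AddSubgroup.zero_mem _
        · have h1 := conj_trl Q t ((2 : ℕ) • ind Q (1 : K)) 1 F c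
          rw [zpow_one, ofAdd_nsmul, map_pow] at h1
          rw [zz, h1]
          simp
          ring
    have hBq : Subgroup.closure (Set.range (phi Q) ∪ {zz Q}) ≤ form2 Q := by
      rw [Subgroup.closure_le]
      rintro y (⟨k, rfl⟩ | rfl)
      · exact ⟨k, 0, fun F c => by rw [phi_apply]; simp⟩
      · exact ⟨1, ind Q (1 : K), fun F c => by
          rw [zz, trl_apply]; simp; ring⟩
    -- the key computation
    have hkey : ∀ σ ∈ Rr, ∀ q ∈ AA Q x t ((σ * (s x t n)⁻¹ : K) : K ⧸ Q), ∃ c : ℤ, q = g * c := by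
      intro σ hσ q hq
      unfold AA at hq
      refine AddSubgroup.closure_induction (p := fun (q : ℚ) _ => ∃ c : ℤ, q = g * c) ?_ ?_ ?_ ?_ hq
      · rintro q ⟨i, hi, rfl⟩
        have hσQ : σ ∈ Q := hB.le hσ
        have hxQ : ∀ j : ℤ, x ^ j ∈ Q := fun j => Q.zpow_mem hB.x_mem j
        have h1 : s x t i * σ * (s x t n)⁻¹ * σ⁻¹ ∈ Q := by
          rw [QuotientGroup.eq] at hi
          -- hi : (x ^ (-i) * t⁻¹)⁻¹ * (σ * s⁻¹) ∈ Q
          have h2 := Q.mul_mem (Q.mul_mem (hxQ (-i)) hi) (Q.inv_mem hσQ)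
          convert h2 using 1
          simp only [s]
          group
        have hπs : ∀ m : ℤ, π (s x t m) = 1 := by
          intro m
          simp only [s]
          rw [map_mul, map_mul, hB.t_one, mul_one, ← map_mul, ← zpow_add]
          simp
        have h3 := hB.fix _ h1
        have h4 : π (s x t i * σ * (s x t n)⁻¹ * σ⁻¹) = 1 := by
          rw [map_mul, map_mul, map_mul, map_inv, hπs, hπs, map_inv]; simp
        rw [h4] at h3
        have h5 : s x t n = σ⁻¹ * s x t i * σ⁻¹⁻¹ := by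
          have h6 : s x t i * σ * (s x t n)⁻¹ * σ⁻¹ = 1 := h3.symm
          have h7 : s x t i * σ = σ * s x t n := by
            have := congrArg (fun y => y * σ * s x t n) h6
            simpa [mul_assoc] using this
          rw [inv_inv, mul_assoc, h7, ← mul_assoc, inv_mul_cancel, one_mul]
        have hC : Conn Rr x t n i := ⟨σ⁻¹, Rr.inv_mem hσ, h5⟩
        have h0 := hn i hC
        obtain ⟨d, hd⟩ := hg i hC
        refine ⟨d, ?_⟩
        have h8 : (2 : ℚ) ^ (i + 1) = ((2 ^ (i.toNat + 1) : ℤ) : ℚ) := by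
          have : i + 1 = ((i.toNat + 1 : ℕ) : ℤ) := by omega
          rw [this, zpow_natCast]; push_cast; rfl
        rw [h8, hd]; push_cast; ring
      · exact ⟨0, by simp⟩
      · rintro a b _ _ ⟨c, rfl⟩ ⟨d, rfl⟩; exact ⟨c + d, by push_cast; ring⟩
      · rintro a _ ⟨c, rfl⟩; exact ⟨-c, by push_cast; ring⟩
    have hAB : Subgroup.closure {phi Q x * uu Q, (phi Q t)⁻¹ * (zz Q) ^ 2 * phi Q t} ⊓
        Subgroup.closure (Set.range (phi Q) ∪ {zz Q}) ≤ form3 Q Rr (s x t n) g := by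
      intro y hy
      obtain ⟨j, h, h1, h2⟩ := hA hy.1
      obtain ⟨k, h', h3⟩ := hBq hy.2
      have e1 : ∀ c, h c = h' c := by
        intro c
        have h4 := h2 0 c
        rw [h3 0 c] at h4
        simpa using h4.symm
      have e2 : (2 : ℚ) ^ (-j) = 1 := by
        have h4 := h2 (fun _ => 1) ((1 : K) : K ⧸ Q)
        rw [h3 (fun _ => 1), e1] at h4
        simpa using h4.symm
      have e3 : j = 0 := by
        have : (2 : ℚ) ^ (-j) = 2 ^ (0 : ℤ) := by rw [e2, zpow_zero]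
        have := zpow_right_injective₀ (by norm_num : (0 : ℚ) < 2) (by norm_num) this
        omega
      subst e3
      refine ⟨1, Rr.one_mem, h, fun F c => ?_, fun σ hσ => hkey σ hσ _ (h1 _)⟩
      rw [h2]; simp
    have hW : Subgroup.closure
        (((Subgroup.closure {phi Q x * uu Q, (phi Q t)⁻¹ * (zz Q) ^ 2 * phi Q t} ⊓
          Subgroup.closure (Set.range (phi Q) ∪ {zz Q}) :
            Subgroup (Equiv.Perm (K ⧸ Q → ℚ))) : Set (Equiv.Perm (K ⧸ Q → ℚ))) ∪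
          phi Q '' Rr) ≤ form3 Q Rr (s x t n) g := by
      rw [Subgroup.closure_le]
      rintro y (hy | ⟨ρ, hρ, rfl⟩)
      · exact hAB hy
      · exact ⟨ρ, hρ, 0, fun F c => by rw [phi_apply]; simp, fun σ _ => ⟨0, by simp⟩⟩
    obtain ⟨ρ, hρ, h, h1, h2⟩ := hW ha
    obtain ⟨c, hc⟩ := h2 1 Rr.one_mem
    have h3 := h1 0 ((1 * (s x t n)⁻¹ : K) : K ⧸ Q)
    rw [zz, conj_trl, hc] at h3
    have h4 : ind Q (1 : K) (s x t n • ((1 * (s x t n)⁻¹ : K) : K ⧸ Q)) = 1 := by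
      rw [MulAction.Quotient.smul_coe, smul_eq_mul, one_mul, mul_inv_cancel]
      simp [ind]
    rw [h4] at h3
    simp only [Pi.zero_apply, zero_add, mul_one, add_zero] at h3
    exact ⟨c, by exact_mod_cast h3⟩

end Pool.Agent.Helper739_ISO.GModel
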