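import Mathlib
import Pool.Agent.Y817.ISO.Stm
set_option autoImplicit false

namespace Pool.Agent.Helper739_ISO.Graph
open Pool.Agent.Y817.ISO Pool.Agent.Helper844.Sys

/-! ### rules over arbitrary finite index types -/

/-- re-indexing -/
noncomputable def rdx (W : Type) [Fintype W] : (Fin (Fintype.card W) → ℤ) →+ (W → ℤ) where
  toFun w x := w (Fintype.equivFin W x)
  map_zero' := rfl
  map_add' _ _ := rfl

theorem rdx_inj (W : Type) [Fintype W] : Function.Injective (rdx W) := by
  intro v w h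
  funext i
  have := congrFun h ((Fintype.equivFin W).symm i)
  simpa [rdx] using this

theorem rdx_surj (W : Type) [Fintype W] : Function.Surjective (rdx W) := by
  intro v
  refine ⟨fun i => v ((Fintype.equivFin W).symm i), ?_⟩
  funext x
  simp [rdx]

/-- a rule over an arbitrary finite index type -/
structure GR (P J : Type) where
  W : Type
  fW : Fintype W
  src : P
  tgt : P
  μ : (W → ℤ) →+ (J → ℤ)
  ν : (W → ℤ) →+ (J → ℤ)
  a : J → ℤ
  b : J → ℤ
  μ_inj : Function.Injective μ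
  ν_inj : Function.Injective ν

/-- the rules of a family -/
noncomputable def toRules {P ι J : Type} (G : ι → GR P J) : Rules P ι J where
  dim i := @Fintype.card (G i).W (G i).fW
  src i := (G i).src
  tgt i := (G i).tgt
  μ i := (G i).μ.comp (@rdx (G i).W (G i).fW)
  ν i := (G i).ν.comp (@rdx (G i).W (G i).fW)
  a i := (G i).a
  b i := (G i).b
  μ_inj i := (G i).μ_inj.comp (@rdx_inj (G i).W (G i).fW)
  ν_inj i := (G i).ν_inj.comp (@rdx_inj (G i).W (G i).fW)

theorem step_iff {P ι J : Type} (G : ι → GR P J) (x y : P × (J → ℤ)) :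
    Step (toRules G) x y ↔ ∃ (i : ι) (w : (G i).W → ℤ),
      x = ((G i).src, (G i).μ w + (G i).a) ∧ y = ((G i).tgt, (G i).ν w + (G i).b) := by
  constructor
  · rintro ⟨i, w⟩
    exact ⟨i, @rdx (G i).W (G i).fW w, rfl, rfl⟩
  · rintro ⟨i, w, rfl, rfl⟩
    obtain ⟨w', rfl⟩ := @rdx_surj (G i).W (G i).fW w
    exact Step.mk (D := toRules G) i w'

/-! ### vectors -/

variable {X : Type}

/-- the vector `(v, α, β)` -/
def vec (v : X → ℤ) (α β : ℤ) : X ⊕ Bool → ℤ := Sum.elim v fun t => if t then β else α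

@[simp] theorem vec_inl (v : X → ℤ) (α β : ℤ) (x : X) : vec v α β (Sum.inl x) = v x := rfl
@[simp] theorem vec_f (v : X → ℤ) (α β : ℤ) : vec v α β (Sum.inr false) = α := rfl
@[simp] theorem vec_t (v : X → ℤ) (α β : ℤ) : vec v α β (Sum.inr true) = β := rfl

theorem vec_ext {y y' : X ⊕ Bool → ℤ} (h : ∀ x, y (Sum.inl x) = y' (Sum.inl x))
    (h1 : y (Sum.inr false) = y' (Sum.inr false)) (h2 : y (Sum.inr true) = y' (Sum.inr true)) :
    y = y' := by
  funext j
  rcases j with x | t
  · exact h x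
  · cases t
    · exact h1
    · exact h2

/-- a vector of additive maps -/
def lin {W : Type} (f : (W → ℤ) →+ (X → ℤ)) (g h : (W → ℤ) →+ ℤ) :
    (W → ℤ) →+ (X ⊕ Bool → ℤ) where
  toFun w := vec (f w) (g w) (h w)
  map_zero' := vec_ext (fun x => by simp) (by simp) (by simp)
  map_add' v w := vec_ext (fun x => by simp) (by simp) (by simp)

@[simp] theorem lin_apply {W : Type} (f : (W → ℤ) →+ (X → ℤ)) (g h : (W → ℤ) →+ ℤ) (w : W → ℤ) :
    lin f g h w = vec (f w) (g w) (h w) := rfl

theorem lin_inj {W : Type} {f : (W → ℤ) →+ (X → ℤ)} (g h : (W → ℤ) →+ ℤ)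
    (hf : Function.Injective f) : Function.Injective (lin f g h) := by
  intro v w e
  apply hf
  funext x
  exact congrFun e (Sum.inl x)

/-- evaluation -/
def ev {W : Type} (x : W) : (W → ℤ) →+ ℤ := Pi.evalAddMonoidHom (fun _ => ℤ) x

@[simp] theorem ev_apply {W : Type} (x : W) (v : W → ℤ) : ev x v = v x := rfl

/-- restriction -/
def res : ((X ⊕ Bool) → ℤ) →+ (X → ℤ) where
  toFun v x := v (Sum.inl x)
  map_zero' := rfl
  map_add' _ _ := rfl

@[simp] theorem res_apply (v : X ⊕ Bool → ℤ) (x : X) : res v x = v (Sum.inl x) := rfl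

theorem res_vec (v : X → ℤ) (α β : ℤ) : res (vec v α β) = v := rfl

/-- the loop map -/
def shear (e : ℤ) (j : X) : ((X ⊕ Bool) → ℤ) →+ (X ⊕ Bool → ℤ) :=
  lin res (ev (Sum.inr false)) (ev (Sum.inr true) + (e • ev (Sum.inl j)))

theorem shear_inj (e : ℤ) (j : X) : Function.Injective (shear e j) := by
  intro v w h
  have h1 : ∀ x, v (Sum.inl x) = w (Sum.inl x) := fun x => congrFun h (Sum.inl x)
  refine vec_ext h1 (congrFun h (Sum.inr false)) ?_
  have h2 := congrFun h (Sum.inr true)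
  simp only [shear, lin_apply, vec_t, AddMonoidHom.add_apply, ev_apply, AddMonoidHom.smul_apply,
    h1] at h2
  linarith

/-- one coordinate -/
def sgl [DecidableEq X] (x : X) : (Unit → ℤ) →+ (X → ℤ) where
  toFun w := Pi.single x (w ())
  map_zero' := by simp
  map_add' v w := by simp [Pi.single_add]

@[simp] theorem sgl_apply [DecidableEq X] (x : X) (w : Unit → ℤ) :
    sgl x w = Pi.single x (w ()) := rfl

theorem sgl_inj [DecidableEq X] (x : X) : Function.Injective (sgl x) := by
  intro v w h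
  funext u
  have := congrFun h x
  simpa [sgl] using this

/-! ### the graph -/

/-- states -/
inductive PP (N : ℕ) : Type
  | B : PP N
  | F : PP N
  | S (j : Fin (N + 1)) : PP N
  | V (j : Fin N) : PP N
  deriving Fintype

/-- indices of the rules -/
inductive II (X : Type) (N : ℕ) : Type
  | rb : II X N
  | rs (x : X) : II X N
  | ent (j : Fin N) : II X N
  | loop (j : Fin N) : II X N
  | ex (j : Fin N) : II X N
  | sf : II X N
  | rf (x : X) : II X N
  | fb : II X N
  deriving Fintype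

variable [DecidableEq X] {N : ℕ}

/-- the step relation, spelled out -/
inductive GS (n m : X) (q : Fin N → Eqn X) : PP N × (X ⊕ Bool → ℤ) → PP N × (X ⊕ Bool → ℤ) → Prop
  | rb (k : ℤ) : GS n m q (PP.B, vec (Pi.single n k) 0 0) (PP.S 0, vec (Pi.single n k) 0 0)
  | rs (x : X) (hx : x ≠ n) (v : X → ℤ) :
      GS n m q (PP.S 0, vec v 0 0) (PP.S 0, vec (v + Pi.single x 1) 0 0)
  | ent (j : Fin N) (v : X → ℤ) : GS n m q (PP.S j.castSucc, vec v 0 0) (PP.V j, vec v 0 0)
  | loop (j : Fin N) (v : X → ℤ) (α β : ℤ) :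
      GS n m q (PP.V j, vec v α β) (PP.V j, vec v (α + 1) (β + (q j).e * v (q j).j))
  | ex (j : Fin N) (v : X → ℤ) :
      GS n m q (PP.V j, vec v (v (q j).i)
        (-((q j).a * v (q j).k + (q j).b * v (q j).l + (q j).c * v (q j).m) - (q j).d))
        (PP.S j.succ, vec v 0 0)
  | sf (v : X → ℤ) : GS n m q (PP.S (Fin.last N), vec v 0 0) (PP.F, vec v 0 0)
  | rf (x : X) (hx : x ≠ m) (v : X → ℤ) :
      GS n m q (PP.F, vec v 0 0) (PP.F, vec (v + Pi.single x 1) 0 0)
  | fb (k : ℤ) : GS n m q (PP.F, vec (Pi.single m k) 0 0) (PP.B, vec (Pi.single n k) 0 0)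

/-- the family of rules -/
noncomputable def fam [Fintype X] (n m : X) (q : Fin N → Eqn X) : II X N → GR (PP N) (X ⊕ Bool)
  | II.rb => ⟨Unit, inferInstance, PP.B, PP.S 0, lin (sgl n) 0 0, lin (sgl n) 0 0, 0, 0,
      lin_inj _ _ (sgl_inj n), lin_inj _ _ (sgl_inj n)⟩
  | II.rs x => ⟨X, inferInstance, PP.S 0, PP.S 0, lin (AddMonoidHom.id _) 0 0,
      lin (AddMonoidHom.id _) 0 0, 0, if x = n then 0 else vec (Pi.single x 1) 0 0,
      lin_inj _ _ Function.injective_id, lin_inj _ _ Function.injective_id⟩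
  | II.ent j => ⟨X, inferInstance, PP.S j.castSucc, PP.V j, lin (AddMonoidHom.id _) 0 0,
      lin (AddMonoidHom.id _) 0 0, 0, 0,
      lin_inj _ _ Function.injective_id, lin_inj _ _ Function.injective_id⟩
  | II.loop j => ⟨X ⊕ Bool, inferInstance, PP.V j, PP.V j, AddMonoidHom.id _,
      shear (q j).e (q j).j, 0, vec 0 1 0, Function.injective_id, shear_inj _ _⟩
  | II.ex j => ⟨X, inferInstance, PP.V j, PP.S j.succ,
      lin (AddMonoidHom.id _) (ev (q j).i)
        (-((q j).a • ev (q j).k + (q j).b • ev (q j).l + (q j).c • ev (q j).m)),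
      lin (AddMonoidHom.id _) 0 0, vec 0 0 (-(q j).d), 0,
      lin_inj _ _ Function.injective_id, lin_inj _ _ Function.injective_id⟩
  | II.sf => ⟨X, inferInstance, PP.S (Fin.last N), PP.F, lin (AddMonoidHom.id _) 0 0,
      lin (AddMonoidHom.id _) 0 0, 0, 0,
      lin_inj _ _ Function.injective_id, lin_inj _ _ Function.injective_id⟩
  | II.rf x => ⟨X, inferInstance, PP.F, PP.F, lin (AddMonoidHom.id _) 0 0,
      lin (AddMonoidHom.id _) 0 0, 0, if x = m then 0 else vec (Pi.single x 1) 0 0,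
      lin_inj _ _ Function.injective_id, lin_inj _ _ Function.injective_id⟩
  | II.fb => ⟨Unit, inferInstance, PP.F, PP.B, lin (sgl m) 0 0, lin (sgl n) 0 0, 0, 0,
      lin_inj _ _ (sgl_inj m), lin_inj _ _ (sgl_inj n)⟩

theorem vec_add (v v' : X → ℤ) (α α' β β' : ℤ) :
    vec v α β + vec v' α' β' = vec (v + v') (α + α') (β + β') :=
  vec_ext (fun x => by simp) (by simp) (by simp)

theorem vec_surj (y : X ⊕ Bool → ℤ) : ∃ v α β, y = vec v α β :=
  ⟨res y, y (Sum.inr false), y (Sum.inr true), vec_ext (fun x => rfl) rfl rfl⟩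

theorem gstep_of {n m : X} [Fintype X] {q : Fin N → Eqn X} {x y : PP N × (X ⊕ Bool → ℤ)}
    (h : GS n m q x y) : Step (toRules (fam n m q)) x y := by
  rw [step_iff]
  cases h with
  | rb k =>
    refine ⟨II.rb, fun _ => k, ?_, ?_⟩
    · show (PP.B, vec (Pi.single n k) 0 0) = (PP.B, vec (Pi.single n k) 0 0 + 0)
      rw [add_zero]
    · show (PP.S 0, vec (Pi.single n k) 0 0) = (PP.S 0, vec (Pi.single n k) 0 0 + 0)
      rw [add_zero]
  | rs x hx v =>
    refine ⟨II.rs x, v, ?_, ?_⟩
    · show (PP.S 0, vec v 0 0) = (PP.S 0, vec v 0 0 + 0)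
      rw [add_zero]
    · show (PP.S 0, vec (v + Pi.single x 1) 0 0) =
        (PP.S 0, vec v 0 0 + if x = n then 0 else vec (Pi.single x 1) 0 0)
      rw [if_neg hx, vec_add, add_zero]
  | ent j v =>
    refine ⟨II.ent j, v, ?_, ?_⟩
    · show (PP.S j.castSucc, vec v 0 0) = (PP.S j.castSucc, vec v 0 0 + 0)
      rw [add_zero]
    · show (PP.V j, vec v 0 0) = (PP.V j, vec v 0 0 + 0)
      rw [add_zero]
  | loop j v α β =>
    refine ⟨II.loop j, vec v α β, ?_, ?_⟩
    · show (PP.V j, vec v α β) = (PP.V j, vec v α β + 0)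
      rw [add_zero]
    · show (PP.V j, vec v (α + 1) (β + (q j).e * v (q j).j)) =
        (PP.V j, vec v α (β + (q j).e • v (q j).j) + vec 0 1 0)
      rw [vec_add, add_zero, add_zero, smul_eq_mul]
  | ex j v =>
    refine ⟨II.ex j, v, ?_, ?_⟩
    · show (PP.V j, vec v (v (q j).i)
        (-((q j).a * v (q j).k + (q j).b * v (q j).l + (q j).c * v (q j).m) - (q j).d)) =
        (PP.V j, vec v (v (q j).i)
        (-((q j).a • v (q j).k + (q j).b • v (q j).l + (q j).c • v (q j).m)) +
          vec 0 0 (-(q j).d))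
      rw [vec_add, add_zero, add_zero, smul_eq_mul, smul_eq_mul, smul_eq_mul, ← sub_eq_add_neg]
    · show (PP.S j.succ, vec v 0 0) = (PP.S j.succ, vec v 0 0 + 0)
      rw [add_zero]
  | sf v =>
    refine ⟨II.sf, v, ?_, ?_⟩
    · show (PP.S (Fin.last N), vec v 0 0) = (PP.S (Fin.last N), vec v 0 0 + 0)
      rw [add_zero]
    · show (PP.F, vec v 0 0) = (PP.F, vec v 0 0 + 0)
      rw [add_zero]
  | rf x hx v =>
    refine ⟨II.rf x, v, ?_, ?_⟩
    · show (PP.F, vec v 0 0) = (PP.F, vec v 0 0 + 0)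
      rw [add_zero]
    · show (PP.F, vec (v + Pi.single x 1) 0 0) =
        (PP.F, vec v 0 0 + if x = m then 0 else vec (Pi.single x 1) 0 0)
      rw [if_neg hx, vec_add, add_zero]
  | fb k =>
    refine ⟨II.fb, fun _ => k, ?_, ?_⟩
    · show (PP.F, vec (Pi.single m k) 0 0) = (PP.F, vec (Pi.single m k) 0 0 + 0)
      rw [add_zero]
    · show (PP.B, vec (Pi.single n k) 0 0) = (PP.B, vec (Pi.single n k) 0 0 + 0)
      rw [add_zero]

theorem of_gstep {n m : X} [Fintype X] {q : Fin N → Eqn X} {x y : PP N × (X ⊕ Bool → ℤ)}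
    (h : Step (toRules (fam n m q)) x y) : x = y ∨ GS n m q x y := by
  rw [step_iff] at h
  obtain ⟨i, w, rfl, rfl⟩ := h
  cases i with
  | rb =>
    right
    show GS n m q (PP.B, vec (Pi.single n (w ())) 0 0 + 0) (PP.S 0, vec (Pi.single n (w ())) 0 0 + 0)
    rw [add_zero]
    exact GS.rb _
  | rs x =>
    change X → ℤ at w
    show ((PP.S 0 : PP N), vec w 0 0 + 0) =
      (PP.S 0, vec w 0 0 + if x = n then 0 else vec (Pi.single x 1) 0 0) ∨
      GS n m q (PP.S 0, vec w 0 0 + 0)
        (PP.S 0, vec w 0 0 + if x = n then 0 else vec (Pi.single x 1) 0 0)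
    by_cases hx : x = n
    · left
      rw [if_pos hx]
    · right
      rw [if_neg hx, vec_add, add_zero, add_zero]
      exact GS.rs x hx w
  | ent j =>
    right
    change X → ℤ at w
    show GS n m q (PP.S j.castSucc, vec w 0 0 + 0) (PP.V j, vec w 0 0 + 0)
    rw [add_zero]
    exact GS.ent j w
  | loop j =>
    right
    obtain ⟨v, α, β, hw⟩ := vec_surj w
    subst hw
    show GS n m q (PP.V j, vec v α β + 0)
      (PP.V j, vec v α (β + (q j).e • v (q j).j) + vec 0 1 0)
    rw [vec_add, add_zero, add_zero, add_zero, smul_eq_mul]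
    exact GS.loop j v α β
  | ex j =>
    right
    change X → ℤ at w
    show GS n m q (PP.V j, vec w (w (q j).i)
        (-((q j).a • w (q j).k + (q j).b • w (q j).l + (q j).c • w (q j).m)) +
          vec 0 0 (-(q j).d)) (PP.S j.succ, vec w 0 0 + 0)
    have := GS.ex (n := n) (m := m) (q := q) j w
    rw [vec_add, add_zero, add_zero, add_zero, smul_eq_mul, smul_eq_mul, smul_eq_mul,
      ← sub_eq_add_neg]
    exact this
  | sf =>
    right
    change X → ℤ at w
    show GS n m q (PP.S (Fin.last N), vec w 0 0 + 0) (PP.F, vec w 0 0 + 0)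
    rw [add_zero]
    exact GS.sf w
  | rf x =>
    change X → ℤ at w
    show ((PP.F : PP N), vec w 0 0 + 0) =
      (PP.F, vec w 0 0 + if x = m then 0 else vec (Pi.single x 1) 0 0) ∨
      GS n m q (PP.F, vec w 0 0 + 0)
        (PP.F, vec w 0 0 + if x = m then 0 else vec (Pi.single x 1) 0 0)
    by_cases hx : x = m
    · left
      rw [if_pos hx]
    · right
      rw [if_neg hx, vec_add, add_zero, add_zero]
      exact GS.rf x hx w
  | fb =>
    right
    show GS n m q (PP.F, vec (Pi.single m (w ())) 0 0 + 0) (PP.B, vec (Pi.single n (w ())) 0 0 + 0)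
    rw [add_zero, add_zero]
    exact GS.fb _

/-! ### walking -/

theorem walk1 (r : (X → ℤ) → (X → ℤ) → Prop) (hr : Equivalence r) {x : X}
    (h : ∀ u, r u (u + Pi.single x 1)) (t : ℤ) (u : X → ℤ) : r u (u + Pi.single x t) := by
  induction t using Int.induction_on with
  | zero => simpa using hr.refl u
  | succ i ih =>
    refine hr.trans ih ?_
    have := h (u + Pi.single x (i : ℤ))
    rwa [add_assoc, ← Pi.single_add] at this
  | pred i ih =>
    refine hr.trans ih (hr.symm ?_)
    have := h (u + Pi.single x (-(i : ℤ) - 1))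
    rwa [add_assoc, ← Pi.single_add, sub_add_cancel] at this

theorem walk [Fintype X] (r : (X → ℤ) → (X → ℤ) → Prop) (hr : Equivalence r) (n : X)
    (h : ∀ x ≠ n, ∀ u, r u (u + Pi.single x 1)) (u u' : X → ℤ) (hn : u n = u' n) : r u u' := by
  have key : ∀ s : Finset X, ∀ u u' : X → ℤ, (∀ x ∉ s, u x = u' x) → u n = u' n → r u u' := by
    intro s
    induction s using Finset.induction_on with
    | empty =>
      intro u u' h1 _
      have : u = u' := funext fun x => h1 x (by simp)
      rw [this]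
      exact hr.refl _
    | insert x s hx ih =>
      intro u u' h1 h2
      have e : r u (u + Pi.single x (u' x - u x)) := by
        by_cases hxn : x = n
        · subst hxn
          rw [h2]
          simpa using hr.refl u
        · exact walk1 r hr (h x hxn) _ u
      refine hr.trans e (ih _ _ ?_ ?_)
      · intro y hy
        by_cases hyx : y = x
        · subst hyx
          simp
        · rw [Pi.add_apply, Pi.single_eq_of_ne hyx, add_zero]
          exact h1 y (by simp [hyx, hy])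
      · by_cases hnx : n = x
        · subst hnx
          simp
        · rw [Pi.add_apply, Pi.single_eq_of_ne hnx, add_zero]
          exact h2
  exact key Finset.univ u u' (fun x hx => absurd (Finset.mem_univ x) hx) hn

/-- connectedness -/
abbrev Cn (n m : X) (q : Fin N → Eqn X) : PP N × (X ⊕ Bool → ℤ) → PP N × (X ⊕ Bool → ℤ) → Prop :=
  Relation.EqvGen (GS n m q)

theorem cn_eqv (n m : X) (q : Fin N → Eqn X) : Equivalence (Cn n m q) :=
  Relation.EqvGen.is_equivalence _

theorem cn_S0 [Fintype X] {n m : X} {q : Fin N → Eqn X} {u u' : X → ℤ} (h : u n = u' n) :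
    Cn n m q (PP.S 0, vec u 0 0) (PP.S 0, vec u' 0 0) := by
  have E := cn_eqv n m q
  refine walk (fun u u' => Cn n m q (PP.S 0, vec u 0 0) (PP.S 0, vec u' 0 0))
    ⟨fun u => E.refl _, fun h => E.symm h, fun h h' => E.trans h h'⟩ n ?_ u u' h
  intro x hx v
  exact Relation.EqvGen.rel _ _ (GS.rs x hx v)

theorem cn_F [Fintype X] {n m : X} {q : Fin N → Eqn X} {u u' : X → ℤ} (h : u m = u' m) :
    Cn n m q (PP.F, vec u 0 0) (PP.F, vec u' 0 0) := by
  have E := cn_eqv n m q
  refine walk (fun u u' => Cn n m q (PP.F, vec u 0 0) (PP.F, vec u' 0 0))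
    ⟨fun u => E.refl _, fun h => E.symm h, fun h h' => E.trans h h'⟩ m ?_ u u' h
  intro x hx v
  exact Relation.EqvGen.rel _ _ (GS.rf x hx v)

theorem cn_V {n m : X} {q : Fin N → Eqn X} (j : Fin N) (v : X → ℤ) (t : ℤ) :
    Cn n m q (PP.V j, vec v 0 0) (PP.V j, vec v t (t * ((q j).e * v (q j).j))) := by
  have E := cn_eqv n m q
  induction t using Int.induction_on with
  | zero =>
    rw [zero_mul]
    exact E.refl _
  | succ i ih =>
    refine E.trans ih ?_
    have := GS.loop (n := n) (m := m) (q := q) j v i (i * ((q j).e * v (q j).j))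
    rw [show (i : ℤ) * ((q j).e * v (q j).j) + (q j).e * v (q j).j =
      ((i : ℤ) + 1) * ((q j).e * v (q j).j) by ring] at this
    exact Relation.EqvGen.rel _ _ this
  | pred i ih =>
    refine E.trans ih (E.symm ?_)
    have := GS.loop (n := n) (m := m) (q := q) j v (-(i : ℤ) - 1)
      ((-(i : ℤ) - 1) * ((q j).e * v (q j).j))
    rw [show (-(i : ℤ) - 1) * ((q j).e * v (q j).j) + (q j).e * v (q j).j =
      (-(i : ℤ)) * ((q j).e * v (q j).j) by ring, sub_add_cancel] at this
    exact Relation.EqvGen.rel _ _ this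

theorem cn_S {n m : X} {q : Fin N → Eqn X} (j : Fin N) (v : X → ℤ) (h : (q j).Holds v) :
    Cn n m q (PP.S j.castSucc, vec v 0 0) (PP.S j.succ, vec v 0 0) := by
  have E := cn_eqv n m q
  refine E.trans (Relation.EqvGen.rel _ _ (GS.ent j v)) (E.trans (cn_V j v (v (q j).i)) ?_)
  have h1 : v (q j).i * ((q j).e * v (q j).j) =
      -((q j).a * v (q j).k + (q j).b * v (q j).l + (q j).c * v (q j).m) - (q j).d := by
    unfold Eqn.Holds at h
    linarith
  rw [h1]
  exact Relation.EqvGen.rel _ _ (GS.ex j v)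

theorem cn_SN {n m : X} {q : Fin N → Eqn X} (v : X → ℤ) (h : ∀ j, (q j).Holds v)
    (j : Fin (N + 1)) : Cn n m q (PP.S 0, vec v 0 0) (PP.S j, vec v 0 0) := by
  have E := cn_eqv n m q
  induction j using Fin.induction with
  | zero => exact E.refl _
  | succ j ih => exact E.trans ih (cn_S j v (h j))

/-! ### the invariant -/

/-- the class of `k₀` -/
def Rl (R : ℕ → ℕ → Prop) (k₀ k : ℤ) : Prop := k₀ = k ∨ ∃ a b : ℕ, k₀ = a ∧ k = b ∧ R a b

/-- the invariant -/
def Inv (R : ℕ → ℕ → Prop) (k₀ : ℤ) (n m : X) (q : Fin N → Eqn X) : PP N × (X ⊕ Bool → ℤ) → Prop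
  | (PP.B, y) => Rl R k₀ (y (Sum.inl n))
  | (PP.F, y) => Rl R k₀ (y (Sum.inl m))
  | (PP.S j, y) => (Rl R k₀ (y (Sum.inl n)) ∧ ∀ i : Fin N, (i : ℕ) < j → (q i).Holds (res y)) ∨
      (Rl R k₀ (y (Sum.inl m)) ∧ ∀ i : Fin N, (j : ℕ) ≤ i → (q i).Holds (res y))
  | (PP.V j, y) => (Rl R k₀ (y (Sum.inl n)) ∧ (∀ i : Fin N, (i : ℕ) < j → (q i).Holds (res y)) ∧
        y (Sum.inr true) = y (Sum.inr false) * ((q j).e * y (Sum.inl (q j).j))) ∨
      (Rl R k₀ (y (Sum.inl m)) ∧ (∀ i : Fin N, (j : ℕ) < i → (q i).Holds (res y)) ∧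
        y (Sum.inr true) = (y (Sum.inr false) - y (Sum.inl (q j).i)) *
          ((q j).e * y (Sum.inl (q j).j)) - ((q j).a * y (Sum.inl (q j).k) +
          (q j).b * y (Sum.inl (q j).l) + (q j).c * y (Sum.inl (q j).m)) - (q j).d)

theorem rl_iff {R : ℕ → ℕ → Prop} (hR : Equivalence R) {k₀ a b : ℤ} {a' b' : ℕ} (ha : a = a')
    (hb : b = b') (h : R a' b') : Rl R k₀ a ↔ Rl R k₀ b := by
  subst ha hb
  constructor
  · rintro (rfl | ⟨c, d, rfl, h1, h2⟩)
    · exact Or.inr ⟨a', b', rfl, rfl, h⟩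
    · obtain rfl : a' = d := by exact_mod_cast h1
      exact Or.inr ⟨c, b', rfl, rfl, hR.trans h2 h⟩
  · rintro (rfl | ⟨c, d, rfl, h1, h2⟩)
    · exact Or.inr ⟨b', a', rfl, rfl, hR.symm h⟩
    · obtain rfl : b' = d := by exact_mod_cast h1
      exact Or.inr ⟨c, a', rfl, rfl, hR.trans h2 (hR.symm h)⟩

theorem inv_step {R : ℕ → ℕ → Prop} {k₀ : ℤ} {n m : X} {q : Fin N → Eqn X}
    (hq : ∀ v : X → ℤ, (∀ i, (q i).Holds v) → (Rl R k₀ (v n) ↔ Rl R k₀ (v m)))
    {x y : PP N × (X ⊕ Bool → ℤ)} (h : GS n m q x y) : Inv R k₀ n m q x ↔ Inv R k₀ n m q y := by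
  have h0 : ∀ v : X → ℤ, Inv R k₀ n m q (PP.S 0, vec v 0 0) ↔ Rl R k₀ (v n) := by
    intro v
    constructor
    · rintro (h | h)
      · exact h.1
      · exact (hq v fun i => h.2 i (Nat.zero_le _)).2 h.1
    · intro h
      exact Or.inl ⟨h, fun i hi => absurd hi (Nat.not_lt_zero _)⟩
  have hN : ∀ v : X → ℤ, Inv R k₀ n m q (PP.S (Fin.last N), vec v 0 0) ↔ Rl R k₀ (v m) := by
    intro v
    constructor
    · rintro (h | h)
      · exact (hq v fun i => h.2 i i.2).1 h.1
      · exact h.1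
    · intro h
      exact Or.inr ⟨h, fun i hi => absurd hi (not_le.2 i.2)⟩
  cases h with
  | rb k =>
    rw [h0]
    exact Iff.rfl
  | rs x hx v =>
    rw [h0, h0, Pi.add_apply, Pi.single_eq_of_ne (Ne.symm hx), add_zero]
  | ent j v =>
    show (Rl R k₀ (v n) ∧ ∀ i : Fin N, (i : ℕ) < j → (q i).Holds v) ∨
      (Rl R k₀ (v m) ∧ ∀ i : Fin N, (j : ℕ) ≤ i → (q i).Holds v) ↔
      (Rl R k₀ (v n) ∧ (∀ i : Fin N, (i : ℕ) < j → (q i).Holds v) ∧
        (0 : ℤ) = 0 * ((q j).e * v (q j).j)) ∨
      (Rl R k₀ (v m) ∧ (∀ i : Fin N, (j : ℕ) < i → (q i).Holds v) ∧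
        (0 : ℤ) = (0 - v (q j).i) * ((q j).e * v (q j).j) -
          ((q j).a * v (q j).k + (q j).b * v (q j).l + (q j).c * v (q j).m) - (q j).d)
    refine or_congr ?_ (and_congr_right fun _ => ?_)
    · simp
    · constructor
      · intro h
        refine ⟨fun i hi => h i hi.le, ?_⟩
        have := h j le_rfl
        unfold Eqn.Holds at this
        linarith
      · rintro ⟨h1, h2⟩ i hi
        rcases hi.lt_or_eq with h | h
        · exact h1 i h
        · obtain rfl : j = i := Fin.ext h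
          unfold Eqn.Holds
          linarith
  | loop j v α β =>
    show (Rl R k₀ (v n) ∧ (∀ i : Fin N, (i : ℕ) < j → (q i).Holds v) ∧
        β = α * ((q j).e * v (q j).j)) ∨
      (Rl R k₀ (v m) ∧ (∀ i : Fin N, (j : ℕ) < i → (q i).Holds v) ∧
        β = (α - v (q j).i) * ((q j).e * v (q j).j) -
          ((q j).a * v (q j).k + (q j).b * v (q j).l + (q j).c * v (q j).m) - (q j).d) ↔
      (Rl R k₀ (v n) ∧ (∀ i : Fin N, (i : ℕ) < j → (q i).Holds v) ∧
        β + (q j).e * v (q j).j = (α + 1) * ((q j).e * v (q j).j)) ∨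
      (Rl R k₀ (v m) ∧ (∀ i : Fin N, (j : ℕ) < i → (q i).Holds v) ∧
        β + (q j).e * v (q j).j = ((α + 1) - v (q j).i) * ((q j).e * v (q j).j) -
          ((q j).a * v (q j).k + (q j).b * v (q j).l + (q j).c * v (q j).m) - (q j).d)
    refine or_congr (and_congr_right fun _ => and_congr_right fun _ => ?_)
      (and_congr_right fun _ => and_congr_right fun _ => ?_)
    · constructor <;> intro h <;> linarith
    · constructor <;> intro h <;> linarith
  | ex j v =>
    show (Rl R k₀ (v n) ∧ (∀ i : Fin N, (i : ℕ) < j → (q i).Holds v) ∧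
        -((q j).a * v (q j).k + (q j).b * v (q j).l + (q j).c * v (q j).m) - (q j).d =
          v (q j).i * ((q j).e * v (q j).j)) ∨
      (Rl R k₀ (v m) ∧ (∀ i : Fin N, (j : ℕ) < i → (q i).Holds v) ∧
        -((q j).a * v (q j).k + (q j).b * v (q j).l + (q j).c * v (q j).m) - (q j).d =
        (v (q j).i - v (q j).i) * ((q j).e * v (q j).j) -
          ((q j).a * v (q j).k + (q j).b * v (q j).l + (q j).c * v (q j).m) - (q j).d) ↔
      (Rl R k₀ (v n) ∧ ∀ i : Fin N, (i : ℕ) < (j.succ : Fin (N + 1)) → (q i).Holds v) ∨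
      (Rl R k₀ (v m) ∧ ∀ i : Fin N, ((j.succ : Fin (N + 1)) : ℕ) ≤ i → (q i).Holds v)
    rw [Fin.val_succ]
    refine or_congr (and_congr_right fun _ => ?_) (and_congr_right fun _ => ?_)
    · constructor
      · rintro ⟨h1, h2⟩ i hi
        rcases (Nat.lt_succ_iff.1 hi).lt_or_eq with h | h
        · exact h1 i h
        · obtain rfl : i = j := Fin.ext h
          unfold Eqn.Holds
          linarith
      · intro h
        refine ⟨fun i hi => h i (Nat.lt_succ_of_lt hi), ?_⟩
        have := h j (Nat.lt_succ_self _)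
        unfold Eqn.Holds at this
        linarith
    · constructor
      · rintro ⟨h1, -⟩ i hi
        exact h1 i hi
      · intro h
        refine ⟨fun i hi => h i hi, ?_⟩
        ring
  | sf v =>
    rw [hN]
    exact Iff.rfl
  | rf x hx v =>
    show Rl R k₀ (v m) ↔ Rl R k₀ ((v + Pi.single x 1 : X → ℤ) m)
    rw [Pi.add_apply, Pi.single_eq_of_ne (Ne.symm hx), add_zero]
  | fb k =>
    show Rl R k₀ ((Pi.single m k : X → ℤ) m) ↔ Rl R k₀ ((Pi.single n k : X → ℤ) n)
    rw [Pi.single_eq_same, Pi.single_eq_same]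

theorem eqv_iff {A : Type} {r s : A → A → Prop} (h1 : ∀ x y, r x y → s x y)
    (h2 : ∀ x y, s x y → x = y ∨ r x y) (x y : A) :
    Relation.EqvGen s x y ↔ Relation.EqvGen r x y := by
  constructor
  · intro h
    induction h with
    | rel x y h =>
      rcases h2 x y h with rfl | h
      · exact Relation.EqvGen.refl _
      · exact Relation.EqvGen.rel _ _ h
    | refl x => exact Relation.EqvGen.refl _
    | symm x y _ ih => exact Relation.EqvGen.symm _ _ ih
    | trans x y z _ _ ih1 ih2 => exact Relation.EqvGen.trans _ _ _ ih1 ih2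
  · intro h
    exact Relation.EqvGen.mono h1 _ _ h

theorem eqv_inv {A : Type} {r : A → A → Prop} {C : A → Prop} (h : ∀ x y, r x y → (C x ↔ C y))
    {x y : A} (hxy : Relation.EqvGen r x y) : C x ↔ C y := by
  induction hxy with
  | rel x y h' => exact h x y h'
  | refl x => exact Iff.rfl
  | symm x y _ ih => exact ih.symm
  | trans x y z _ _ ih1 ih2 => exact ih1.trans ih2

theorem graph : StmGraph := by
  classical
  intro R hR X _ n m L hnm hL
  let q : Fin L.length → Eqn X := fun i => L.get i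
  have hq : ∀ v : X → ℤ, (∀ i, (q i).Holds v) ↔ ∀ e ∈ L, e.Holds v := by
    intro v
    constructor
    · intro h e he
      obtain ⟨i, rfl⟩ := List.mem_iff_get.1 he
      exact h i
    · intro h i
      exact h _ (List.get_mem L i)
  refine ⟨PP L.length, II X L.length, X ⊕ Bool, inferInstance, inferInstance, inferInstance,
    inferInstance, toRules (fam n m q), PP.B, Sum.inl n, ?_⟩
  intro k k'
  have e : ∀ k : ℤ, (Pi.single (Sum.inl n) k : X ⊕ Bool → ℤ) = vec (Pi.single n k) 0 0 := by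
    intro k
    refine vec_ext ?_ ?_ ?_
    · intro x
      by_cases hx : x = n
      · subst hx
        simp
      · have : (Sum.inl x : X ⊕ Bool) ≠ Sum.inl n := fun h => hx (Sum.inl_injective h)
        rw [Pi.single_eq_of_ne this, vec_inl, Pi.single_eq_of_ne hx]
    · rw [Pi.single_eq_of_ne (by simp), vec_f]
    · rw [Pi.single_eq_of_ne (by simp), vec_t]
  rw [e, e, eqv_iff (r := GS n m q) (fun x y h => gstep_of h) (fun x y h => of_gstep h)]
  constructor
  · intro h
    have h1 := eqv_inv (C := Inv R k n m q) (fun x y hxy => inv_step ?_ hxy) h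
    · have h2 : Inv R k n m q (PP.B, vec (Pi.single n k) 0 0) := by
        left
        simp
      have h3 := h1.1 h2
      have h4 : Rl R k ((Pi.single n k' : X → ℤ) n) := h3
      rwa [Pi.single_eq_same] at h4
    · intro v hv
      obtain ⟨a', b', ha, hb, hab⟩ := (hL (v n) (v m)).1 ⟨v, rfl, rfl, (hq v).1 hv⟩
      exact rl_iff hR ha hb hab
  · have E := cn_eqv n m q
    rintro (rfl | ⟨a, b, rfl, rfl, hab⟩)
    · exact E.refl _
    · obtain ⟨v, hv1, hv2, hv3⟩ := (hL a b).2 ⟨a, b, rfl, rfl, hab⟩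
      refine E.trans (Relation.EqvGen.rel _ _ (GS.rb (a : ℤ))) ?_
      refine E.trans (cn_S0 (u' := v) (by rw [Pi.single_eq_same, hv1])) ?_
      refine E.trans (cn_SN v ((hq v).2 hv3) (Fin.last _)) ?_
      refine E.trans (Relation.EqvGen.rel _ _ (GS.sf v)) ?_
      refine E.trans (cn_F (u' := Pi.single m (b : ℤ)) (by rw [Pi.single_eq_same, hv2])) ?_
      exact Relation.EqvGen.rel _ _ (GS.fb (b : ℤ))

end Pool.Agent.Helper739_ISO.Graph
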