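import Mathlib
import Pool.Agent.Y817.ISO.Stm
import Pool.Agent.Helper739_ISO.Stm2

set_option autoImplicit false

/-!
The isomorphism type of the amalgam determines `g`.
-/

namespace Pool.Agent.Helper739_ISO.Inv

open Pool.Agent.Y817.ISO Pool.Agent.Helper739_ISO

theorem prod_iso (ht : StmAmTor) (E E' U : Type) [Group E] [Group E'] [Group U] (β : E →* U)
    (β' : E' →* U) (tfU : TF U) (hβ : Function.Injective β) (hβ' : Function.Injective β')
    (Φ : Amal β ≃* Amal β') :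
    Nonempty ((E × Multiplicative (ZMod 5)) ≃* (E' × Multiplicative (ZMod 5))) := by
  obtain ⟨-, h2, h3⟩ := ht E U β tfU hβ
  obtain ⟨h1', h2', h3'⟩ := ht E' U β' tfU hβ'
  obtain ⟨f, hf⟩ : ∃ f : E × Multiplicative (ZMod 5) →* Amal β,
    f = Monoid.PushoutI.of (φ := famHom β) true := ⟨_, rfl⟩
  obtain ⟨f', hf'⟩ : ∃ f' : E' × Multiplicative (ZMod 5) →* Amal β',
    f' = Monoid.PushoutI.of (φ := famHom β') true := ⟨_, rfl⟩
  have h2a : ∀ (j : Multiplicative (ZMod 5)), j ≠ 1 → ∀ y : Amal β,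
    Commute y (f ((1 : E), j)) → ∃ q, f q = y := by rw [hf]; exact h2
  have h3a : Function.Injective f := by rw [hf]; exact h3
  have h1a' : ∀ y : Amal β', y ^ 5 = 1 → ∃ (p : Amal β') (j : Multiplicative (ZMod 5)),
    p * y * p⁻¹ = f' ((1 : E'), j) := by rw [hf']; exact h1'
  have h2a' : ∀ (j : Multiplicative (ZMod 5)), j ≠ 1 → ∀ y : Amal β',
    Commute y (f' ((1 : E'), j)) → ∃ q, f' q = y := by rw [hf']; exact h2'
  have h3a' : Function.Injective f' := by rw [hf']; exact h3'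
  have hc1 : (Multiplicative.ofAdd (1 : ZMod 5)) ≠ 1 := by decide
  obtain ⟨c, hc⟩ : ∃ c : Amal β, c = f ((1 : E), Multiplicative.ofAdd (1 : ZMod 5)) := ⟨_, rfl⟩
  have hc5 : c ^ 5 = 1 := by
    rw [hc, ← map_pow]
    have : ((1 : E), Multiplicative.ofAdd (1 : ZMod 5)) ^ 5 = 1 := by
      apply Prod.ext
      · simp
      · show (Multiplicative.ofAdd (1 : ZMod 5)) ^ 5 = 1
        decide
    rw [this, map_one]
  have hcne : c ≠ 1 := by
    intro h
    rw [hc, ← map_one f] at h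
    exact hc1 (congrArg Prod.snd (h3a h))
  obtain ⟨p, j, hpj⟩ := h1a' (Φ c) (by rw [← map_pow, hc5, map_one])
  have hj : j ≠ 1 := by
    rintro rfl
    have h4 : f' ((1 : E'), (1 : Multiplicative (ZMod 5))) = 1 := map_one f'
    rw [h4] at hpj
    have h5 : Φ c = 1 := by
      have := conj_eq_one_iff.1 hpj
      exact this
    exact hcne (Φ.injective (h5.trans (map_one Φ).symm))
  obtain ⟨Ψ, hΨ⟩ : ∃ Ψ : Amal β ≃* Amal β', Ψ = Φ.trans (MulAut.conj p) := ⟨_, rfl⟩
  have hΨc : Ψ c = f' ((1 : E'), j) := by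
    rw [hΨ, ← hpj]; rfl
  have hcomm : ∀ q, Commute (f q) c := by
    rintro ⟨e, k⟩
    rw [hc]
    have : Commute (e, k) ((1 : E), Multiplicative.ofAdd (1 : ZMod 5)) := by
      apply Prod.ext
      · simp
      · exact mul_comm _ _
    exact this.map f
  have hcomm' : ∀ q, Commute (f' q) (f' ((1 : E'), j)) := by
    rintro ⟨e, k⟩
    have : Commute (e, k) ((1 : E'), j) := by
      apply Prod.ext
      · simp
      · exact mul_comm _ _
    exact this.map f'
  have hmap : f.range.map Ψ.toMonoidHom = f'.range := by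
    ext y
    constructor
    · rintro ⟨_, ⟨q, rfl⟩, rfl⟩
      have h4 : Commute (Ψ (f q)) (f' ((1 : E'), j)) := by
        rw [← hΨc]; exact (hcomm q).map Ψ.toMonoidHom
      obtain ⟨q', hq'⟩ := h2a' j hj _ h4
      exact ⟨q', hq'⟩
    · rintro ⟨q, rfl⟩
      have h4 : Commute (Ψ.symm (f' q)) c := by
        have h5 := (hcomm' q).map Ψ.symm.toMonoidHom
        have h6 : Ψ.symm (f' ((1 : E'), j)) = c := by rw [← hΨc, MulEquiv.symm_apply_apply]
        rw [← h6]
        exact h5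
      rw [hc] at h4
      obtain ⟨q', hq'⟩ := h2a _ hc1 _ h4
      refine ⟨f q', ⟨q', rfl⟩, ?_⟩
      show Ψ (f q') = f' q
      rw [hq', MulEquiv.apply_symm_apply]
  exact ⟨(MonoidHom.ofInjective h3a).trans ((f.range.equivMapOfInjective Ψ.toMonoidHom
    Ψ.injective).trans ((MulEquiv.subgroupCongr hmap).trans (MonoidHom.ofInjective h3a').symm))⟩

theorem inv (ht : StmAmTor) (hb : StmBgIso) : StmInv := by
  intro U _ a b β β' tfU hβ hβ' ⟨Φ⟩
  exact hb a b (prod_iso ht _ _ U β β' tfU hβ hβ' Φ)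

end Pool.Agent.Helper739_ISO.Inv
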