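import Mathlib
import Pool.Agent.Y817.ISO.Stm
import Pool.Agent.Helper739_ISO.Stm2
set_option autoImplicit false
/-!
The group K of the rules.
-/
namespace Pool.Agent.Helper739_ISO.KK
open Pool.Agent.Y817.ISO Pool.Agent.Helper739_ISO

/-! ### subgroups of a free group generated by some of the generators -/

open Classical in
/-- the endomorphism killing the generators outside `S` -/
noncomputable def rho {α : Type} (S : Set α) : FreeGroup α →* FreeGroup α :=
  FreeGroup.lift (fun x => if x ∈ S then FreeGroup.of x else 1)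

theorem rho_mem {α : Type} (S : Set α) (n : FreeGroup α) :
    rho S n ∈ Subgroup.closure (FreeGroup.of '' S) := by
  classical
  induction n using FreeGroup.induction_on with
  | C1 => rw [map_one]; exact one_mem _
  | of x =>
    rw [rho, FreeGroup.lift_apply_of]
    split_ifs with h
    · exact Subgroup.subset_closure ⟨x, h, rfl⟩
    · exact one_mem _
  | inv_of x hx => rw [map_inv]; exact inv_mem hx
  | mul x y hx hy => rw [map_mul]; exact mul_mem hx hy

theorem rho_fix {α : Type} (S : Set α) (n : FreeGroup α)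
    (hn : n ∈ Subgroup.closure (FreeGroup.of '' S)) : rho S n = n := by
  classical
  induction hn using Subgroup.closure_induction with
  | mem x hx =>
    obtain ⟨y, hy, rfl⟩ := hx
    rw [rho, FreeGroup.lift_apply_of, if_pos hy]
  | one => rw [map_one]
  | mul x y _ _ hx hy => rw [map_mul, hx, hy]
  | inv x _ hx => rw [map_inv, hx]

theorem of_mem_iff {α : Type} (S : Set α) (x : α) :
    FreeGroup.of x ∈ Subgroup.closure (FreeGroup.of '' S) ↔ x ∈ S := by
  classical
  constructor
  · intro h
    by_contra hx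
    have := rho_fix S _ h
    rw [rho, FreeGroup.lift_apply_of, if_neg hx] at this
    exact FreeGroup.of_ne_one x this.symm
  · intro h
    exact Subgroup.subset_closure ⟨x, h, rfl⟩

theorem rho_map {α β : Type} (κ : β → α) (S : Set α) (n : FreeGroup β) :
    rho S (FreeGroup.map κ n) = FreeGroup.map κ (rho (κ ⁻¹' S) n) := by
  classical
  have : (rho S).comp (FreeGroup.map κ) = (FreeGroup.map κ).comp (rho (κ ⁻¹' S)) := by
    apply FreeGroup.ext_hom
    intro x
    simp only [MonoidHom.comp_apply, FreeGroup.map.of, rho, FreeGroup.lift_apply_of,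
      Set.mem_preimage]
    split_ifs with h
    · simp
    · simp
  exact DFunLike.congr_fun this n

/-! ### the subgroup of `G0` -/

/-- the subgroup of `G0` generated by the `T x`, `x ∈ S` -/
def HS (P J : Type) (S : Set (P × (J → ℤ))) : Subgroup (G0 P J) :=
  (Subgroup.closure (FreeGroup.of '' S)).map SemidirectProduct.inl

theorem inl_mem_HS {P J : Type} (S : Set (P × (J → ℤ))) (n : FreeGroup (P × (J → ℤ))) :
    (SemidirectProduct.inl n : G0 P J) ∈ HS P J S ↔
      n ∈ Subgroup.closure (FreeGroup.of '' S) := by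
  constructor
  · rintro ⟨m, hm, e⟩
    rw [← SemidirectProduct.inl_injective e]; exact hm
  · intro h; exact ⟨n, h, rfl⟩

/-- shift of the base point -/
def kap {P J : Type} {d : ℕ} (μ : (Fin d → ℤ) →+ (J → ℤ)) (p : P) (a : J → ℤ)
    (x : Unit × (Fin d → ℤ)) : P × (J → ℤ) := (p, μ x.2 + a)

theorem T_add {P J H : Type} [Group H] (X : Multiplicative (J → ℤ) →* H) (t : P → H) (p : P)
    (m a : J → ℤ) : T X t p (m + a) =
      (X (Multiplicative.ofAdd m))⁻¹ * T X t p a * X (Multiplicative.ofAdd m) := by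
  have e : X (Multiplicative.ofAdd (m + a)) =
      X (Multiplicative.ofAdd a) * X (Multiplicative.ofAdd m) := by
    rw [← map_mul, ← ofAdd_add, add_comm]
  rw [T, e, T]
  group

section
variable (T_eq : ∀ (P J : Type) (p : P) (v : J → ℤ),
      T (X0 P J) (t0 : P → G0 P J) p v = SemidirectProduct.inl (FreeGroup.of (p, v)))
include T_eq

theorem f_inl {P J : Type} {d : ℕ} (μ : (Fin d → ℤ) →+ (J → ℤ)) (p : P) (a : J → ℤ)
    (f : G0 Unit (Fin d) →* G0 P J)
    (h1 : ∀ w : Fin d → ℤ, f (X0 Unit (Fin d) (Multiplicative.ofAdd w)) =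
        X0 P J (Multiplicative.ofAdd (μ w)))
    (h2 : f (t0 ()) = T (X0 P J) t0 p a) (n : FreeGroup (Unit × (Fin d → ℤ))) :
    f (SemidirectProduct.inl n) = SemidirectProduct.inl (FreeGroup.map (kap μ p a) n) := by
  have : f.comp SemidirectProduct.inl =
      (SemidirectProduct.inl : _ →* G0 P J).comp (FreeGroup.map (kap μ p a)) := by
    apply FreeGroup.ext_hom
    rintro ⟨⟨⟩, w⟩
    simp only [MonoidHom.comp_apply, FreeGroup.map.of]
    rw [← T_eq Unit (Fin d) () w, T, map_mul, map_mul, map_inv, h1, h2, kap,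
      ← T_eq P J p (μ w + a), T_add]
  exact DFunLike.congr_fun this n

theorem f_mem {P J : Type} {d : ℕ} (μ : (Fin d → ℤ) →+ (J → ℤ)) (hμ : Function.Injective μ)
    (p : P) (a : J → ℤ)
    (f : G0 Unit (Fin d) →* G0 P J) (hf : Function.Injective f)
    (h1 : ∀ w : Fin d → ℤ, f (X0 Unit (Fin d) (Multiplicative.ofAdd w)) =
        X0 P J (Multiplicative.ofAdd (μ w)))
    (h2 : f (t0 ()) = T (X0 P J) t0 p a) (S : Set (P × (J → ℤ))) (y : G0 Unit (Fin d)) :
    f y ∈ HS P J S ↔ y ∈ HS Unit (Fin d) (kap μ p a ⁻¹' S) := by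
  have hy : y = SemidirectProduct.inl y.left * SemidirectProduct.inr y.right :=
    (SemidirectProduct.inl_left_mul_inr_right y).symm
  have hfy : f y = SemidirectProduct.inl (FreeGroup.map (kap μ p a) y.left) *
      SemidirectProduct.inr (Multiplicative.ofAdd (μ y.right.toAdd)) := by
    conv_lhs => rw [hy]
    rw [map_mul, f_inl T_eq μ p a f h1 h2]
    congr 1
    exact h1 y.right.toAdd
  have key : ∀ n : FreeGroup (Unit × (Fin d → ℤ)),
      FreeGroup.map (kap μ p a) n ∈ Subgroup.closure (FreeGroup.of '' S) ↔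
      n ∈ Subgroup.closure (FreeGroup.of '' (kap μ p a ⁻¹' S)) := by
    intro n
    constructor
    · intro h
      have e := rho_fix S _ h
      rw [rho_map] at e
      have e2 : f (SemidirectProduct.inl (rho (kap μ p a ⁻¹' S) n)) =
          f (SemidirectProduct.inl n) := by
        rw [f_inl T_eq μ p a f h1 h2, f_inl T_eq μ p a f h1 h2, e]
      have e3 := SemidirectProduct.inl_injective (hf e2)
      rw [← e3]
      exact rho_mem _ _
    · intro h
      have e := rho_fix _ _ h
      rw [← e, ← rho_map]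
      exact rho_mem _ _
  constructor
  · rintro ⟨m, hm, e⟩
    rw [hfy] at e
    have er := congrArg SemidirectProduct.right e
    have el := congrArg SemidirectProduct.left e
    simp at er el
    have h0 : y.right = 1 := by
      have e3 : μ y.right.toAdd = μ 0 := by
        rw [map_zero]
        have := congrArg Multiplicative.toAdd er
        rw [toAdd_ofAdd] at this
        exact this.symm
      exact Multiplicative.toAdd.injective (hμ e3)
    rw [hy, h0, map_one, mul_one, inl_mem_HS, ← key, ← el]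
    exact hm
  · rintro ⟨m, hm, e⟩
    rw [← e, f_inl T_eq μ p a f h1 h2, inl_mem_HS, key]
    exact hm

end

/-- conjugation by elements of a subgroup -/
def CR {K A : Type} [Group K] (R : Subgroup K) (F : A → K) (x y : A) : Prop :=
  ∃ ρ ∈ R, F x = ρ * F y * ρ⁻¹

theorem CR_eqv {K A : Type} [Group K] (R : Subgroup K) (F : A → K) (S : A → A → Prop)
    (h : ∀ x y, S x y → CR R F x y) (x y : A) (hxy : Relation.EqvGen S x y) : CR R F x y := by
  induction hxy with
  | rel x y hs => exact h x y hs
  | refl x => exact ⟨1, one_mem _, by group⟩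
  | symm x y _ ih =>
    obtain ⟨ρ, h1, h2⟩ := ih
    exact ⟨ρ⁻¹, inv_mem h1, by rw [h2]; group⟩
  | trans x y z _ _ ih1 ih2 =>
    obtain ⟨ρ, h1, h2⟩ := ih1
    obtain ⟨σ, h3, h4⟩ := ih2
    exact ⟨ρ * σ, mul_mem h1 h3, by rw [h2, h4]; group⟩

theorem T_map {P J G H : Type} [Group G] [Group H] (φ : G →* H)
    (X : Multiplicative (J → ℤ) →* G) (t : P → G) (p : P) (v : J → ℤ) :
    φ (T X t p v) = T (φ.comp X) (φ ∘ t) p v := by
  simp only [T, map_mul, map_inv, MonoidHom.comp_apply, Function.comp_apply]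

theorem kk (hm : StmMHNN2) (hb : StmBase)
    (T_eq : ∀ (P J : Type) (p : P) (v : J → ℤ),
      T (X0 P J) (t0 : P → G0 P J) p v = SemidirectProduct.inl (FreeGroup.of (p, v))) : StmK := by
  intro P ι J _ _ D
  obtain ⟨htf, hcl, hup, hemb⟩ := hb P J
  choose f f1 f2 f3 using fun i => hemb (D.dim i) (D.μ i) (D.μ_inj i) (D.src i) (D.a i)
  choose g g1 g2 g3 using fun i => hemb (D.dim i) (D.ν i) (D.ν_inj i) (D.tgt i) (D.b i)
  obtain ⟨K, hK, of, r, of_inj, hrel, hTF, hclo, huni, hsub⟩ :=
    hm (G0 P J) ι (fun i => G0 Unit (Fin (D.dim i))) f g f1 g1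
  have hT : ∀ p v, T (of.comp (X0 P J)) (of ∘ t0) p v = of (T (X0 P J) t0 p v) :=
    fun p v => (T_map _ _ _ _ _).symm
  have hR : Rel D K (of.comp (X0 P J)) (of ∘ t0) r := by
    refine ⟨fun i w => ?_, fun i => ?_⟩
    · have := hrel i (X0 _ _ (Multiplicative.ofAdd w))
      rw [f2, g2] at this
      exact this
    · have := hrel i (t0 ())
      rw [f3, g3] at this
      rw [hT, hT]
      exact this
  refine ⟨K, hK, of.comp (X0 P J), of ∘ t0, r, hR, hTF htf, ?_, ?_, ?_⟩
  · rw [eq_top_iff, ← hclo, Subgroup.closure_le]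
    rintro x (⟨y, rfl⟩ | hx)
    · have hy : y ∈ Subgroup.closure (Set.range (X0 P J) ∪ Set.range (t0 : P → G0 P J)) := by
        rw [hcl]; trivial
      have h2 : of y ∈ (Subgroup.closure (Set.range (X0 P J) ∪
          Set.range (t0 : P → G0 P J))).map of := ⟨y, hy, rfl⟩
      rw [MonoidHom.map_closure] at h2
      refine Subgroup.closure_mono ?_ h2
      rintro _ ⟨z, (⟨w, rfl⟩ | ⟨p, rfl⟩), rfl⟩
      · exact Or.inl (Or.inl ⟨w, rfl⟩)
      · exact Or.inl (Or.inr ⟨p, rfl⟩)
    · exact Subgroup.subset_closure (Or.inr hx)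
  · intro H _ X' t' r' hR'
    obtain ⟨φ, φ1, φ2⟩ := hup H X' t'
    have hφT : ∀ p v, φ (T (X0 P J) t0 p v) = T X' t' p v := by
      intro p v
      simp only [T, map_mul, map_inv, φ1, φ2]
    obtain ⟨Φ, Φ1, Φ2⟩ := huni H φ r' (by
      intro i q
      have hq : q ∈ Subgroup.closure (Set.range (X0 Unit (Fin (D.dim i))) ∪
          Set.range (t0 : Unit → G0 Unit (Fin (D.dim i)))) := by
        rw [(hb Unit (Fin (D.dim i))).2.1]; trivial
      induction hq using Subgroup.closure_induction with
      | mem x hx =>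
        rcases hx with ⟨w, rfl⟩ | ⟨⟨⟩, rfl⟩
        · have e1 := f2 i w.toAdd
          have e2 := g2 i w.toAdd
          rw [ofAdd_toAdd] at e1 e2
          rw [e1, e2, φ1, φ1]
          exact hR'.shift i w.toAdd
        · rw [f3, g3, hφT, hφT]
          exact hR'.rule i
      | one => simp
      | mul x y _ _ hx hy =>
        rw [map_mul, map_mul, map_mul, map_mul, ← mul_assoc, hx, mul_assoc, hy, mul_assoc]
      | inv x _ hx =>
        rw [map_inv, map_inv, map_inv, map_inv, eq_inv_mul_iff_mul_eq, ← mul_assoc, ← hx]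
        group)
    exact ⟨Φ, fun v => by rw [MonoidHom.comp_apply, Φ1, φ1],
      fun p => by rw [Function.comp_apply, Φ1, φ2], Φ2⟩
  · intro p p' v v'
    constructor
    · rintro ⟨ρ, hρ, e⟩
      set S : Set (P × (J → ℤ)) := {x | Relation.EqvGen (Step D) x (p', v')} with hS
      have hfg : ∀ i q, f i q ∈ HS P J S ↔ g i q ∈ HS P J S := by
        intro i q
        rw [f_mem T_eq (D.μ i) (D.μ_inj i) (D.src i) (D.a i) (f i) (f1 i) (f2 i) (f3 i) S q,
          f_mem T_eq (D.ν i) (D.ν_inj i) (D.tgt i) (D.b i) (g i) (g1 i) (g2 i) (g3 i) S q]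
        have : kap (D.μ i) (D.src i) (D.a i) ⁻¹' S = kap (D.ν i) (D.tgt i) (D.b i) ⁻¹' S := by
          ext x
          simp only [Set.mem_preimage, hS, Set.mem_setOf_eq, kap]
          have hst : Relation.EqvGen (Step D) (D.src i, D.μ i x.2 + D.a i)
              (D.tgt i, D.ν i x.2 + D.b i) := Relation.EqvGen.rel _ _ (Step.mk i x.2)
          exact ⟨fun h => (hst.symm _ _).trans _ _ _ h, fun h => hst.trans _ _ _ h⟩
        rw [this]
      have h1 := hsub (HS P J S) hfg (T (X0 P J) t0 p v) (by
        rw [← hT, e, hT]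
        have hr : ρ ∈ Subgroup.closure (of '' (HS P J S : Set (G0 P J)) ∪ Set.range r) :=
          Subgroup.closure_mono Set.subset_union_right hρ
        refine mul_mem (mul_mem hr ?_) (inv_mem hr)
        refine Subgroup.subset_closure (Or.inl ⟨_, ?_, rfl⟩)
        rw [SetLike.mem_coe, T_eq, inl_mem_HS, of_mem_iff, hS]
        exact Relation.EqvGen.refl _)
      rw [T_eq, inl_mem_HS, of_mem_iff, hS] at h1
      exact h1
    · intro h
      refine CR_eqv (Subgroup.closure (Set.range r))
        (fun x : P × (J → ℤ) => T (of.comp (X0 P J)) (of ∘ t0) x.1 x.2) (Step D) ?_ (p, v)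
        (p', v') h
      rintro _ _ ⟨i, w⟩
      refine ⟨(r i)⁻¹, inv_mem (Subgroup.subset_closure ⟨i, rfl⟩), ?_⟩
      dsimp only
      rw [T_add, T_add]
      have e1 := hR.shift i w
      have e2 := hR.rule i
      rw [inv_inv]
      set XM := (of.comp (X0 P J)) (Multiplicative.ofAdd (D.μ i w))
      set XN := (of.comp (X0 P J)) (Multiplicative.ofAdd (D.ν i w))
      set TA := T (of.comp (X0 P J)) (of ∘ t0) (D.src i) (D.a i)
      set TB := T (of.comp (X0 P J)) (of ∘ t0) (D.tgt i) (D.b i)
      have e3 : XN = r i * XM * (r i)⁻¹ := by rw [e1]; group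
      have e4 : TB = r i * TA * (r i)⁻¹ := by rw [e2]; group
      rw [e3, e4]
      group

end Pool.Agent.Helper739_ISO.KK
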