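import Mathlib
import Pool.Agent.Y817.ISO.Stm
set_option autoImplicit false
/-!
JOB ISO-LEMA (helper739, S14615). Two lemmas on the HNN extension CE G S in which the stable letter t centralises S. Copy
Pool/Agent/Y817/ISO/Stm.lean (and its imports Helper844/*) from the starting tree.

PROOF of LemA. Let Z be the set of elements of CE G S of the form  l₀ · ∏ (t m_i t⁻¹ · l_i)  (i = 1..k, k ≥ 0) with
l_i ∈ L, m_i ∈ M, m_i ∉ S for all i, l_i ∉ S for 0 < i < k. Z contains 1 and is closed under left multiplication by L and by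
t M t⁻¹: t m t⁻¹ · l₀ · t m₁ t⁻¹ ⋯: if m ∈ S then t m t⁻¹ = m ∈ S ⊓ M ≤ L, absorb in l₀; otherwise if k ≥ 1 and l₀ ∈ S then
l₀ commutes with t, so t m t⁻¹ l₀ t m₁ t⁻¹ = t (m l₀ m₁) t⁻¹ with m l₀ m₁ ∈ M (L ≤ M): shorter, repeat (induction on k).
So the closure is contained in Z. An element of Z with k ≥ 1 is a reduced word t m₁ t⁻¹ l₁ t m₂ t⁻¹ ... (m_i ∉ S, l_i ∉ S):
by `HNNExtension.ReducedWord.toList_eq_nil_of_mem_of_range` it is not in the range of `of`. So of x ∈ Z gives k = 0 and
x = l₀ ∈ L (of is injective).

PROOF of SubHNN. Φ = lift (of ∘ α) t. Injective: let Φ y = 1, y = product of a reduced word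
(`HNNExtension.NormalWord`, every element is the product of a reduced word, see
Pool/Agent/Helper694/CS/J_hnn_word.lean `hnn_word`) with entries g_i ∈ A; the word with entries α g_i is reduced
because α g_i ∈ S iff g_i ∈ SA; its product is Φ y = 1 ∈ range of, so there are no letters, so y = of g, α g = 1, g = 1.

PROOF of Square. ψ = lift of (t^2). Injective: a reduced word g₀ t^{u₁} g₁ t^{u₂} g₂ ... is sent to
g₀ t^{u₁} 1 t^{u₁} g₁ t^{u₂} 1 t^{u₂} g₂ ..., which is again reduced (between t^{u} and t^{u} anything is allowed); so if the image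
is 1 there are no letters, and then g₀ = 1.
-/
namespace Pool.Agent.Helper739_ISO.LemA
open Pool.Agent.Y817.ISO
open HNNExtension

theorem aux_hnn_word {K : Type} [Group K] {A B : Subgroup K} (φ : A ≃* B)
    (g : HNNExtension K A B φ) :
    ∃ w : HNNExtension.NormalWord.ReducedWord K A B, w.prod φ = g := by
  obtain ⟨d⟩ := HNNExtension.NormalWord.TransversalPair.nonempty K A B
  refine ⟨(g • (HNNExtension.NormalWord.empty : HNNExtension.NormalWord d)).toReducedWord, ?_⟩
  rw [HNNExtension.NormalWord.prod_smul, HNNExtension.NormalWord.prod_empty, mul_one]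

theorem aux_toSubgroup {K : Type} [Group K] (S : Subgroup K) (u : ℤˣ) :
    toSubgroup S S u = S := by
  unfold toSubgroup
  split_ifs <;> rfl

theorem aux_comm {K : Type} [Group K] (S : Subgroup K) (a : K) (ha : a ∈ S) :
    (HNNExtension.t * HNNExtension.of a : CE K S) = HNNExtension.of a * HNNExtension.t :=
  HNNExtension.t_mul_of (φ := MulEquiv.refl S) (⟨a, ha⟩ : S)

theorem aux_conj {K : Type} [Group K] (S : Subgroup K) (a : K) (ha : a ∈ S) :
    (HNNExtension.t * HNNExtension.of a * HNNExtension.t⁻¹ : CE K S) = HNNExtension.of a := by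
  rw [aux_comm S a ha, mul_assoc, mul_inv_cancel, mul_one]

/-- the value of a word -/
noncomputable def vl {G : Type} [Group G] (S : Subgroup G) (ps : List (G × G)) : CE G S :=
  (ps.map (fun p => (HNNExtension.t * HNNExtension.of p.1 * HNNExtension.t⁻¹ *
    HNNExtension.of p.2 : CE G S))).prod

/-- the good words -/
def Gd {G : Type} [Group G] (S M L : Subgroup G) (ps : List (G × G)) : Prop :=
  (∀ p ∈ ps, p.1 ∈ M ∧ p.1 ∉ S ∧ p.2 ∈ L) ∧ ps.IsChain (fun p _ => p.2 ∉ S)

/-- the elements represented by good words -/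
def InZ {G : Type} [Group G] (S M L : Subgroup G) (z : CE G S) : Prop :=
  ∃ l ∈ L, ∃ ps, Gd S M L ps ∧ z = HNNExtension.of l * vl S ps

theorem aux_mulM {G : Type} [Group G] (S M L : Subgroup G) (h1 : S ⊓ M ≤ L) (h2 : L ≤ M)
    (ps : List (G × G)) : ∀ (m l : G), m ∈ M → l ∈ L → Gd S M L ps →
    InZ S M L (HNNExtension.t * HNNExtension.of m * HNNExtension.t⁻¹ *
      (HNNExtension.of l * vl S ps)) := by
  induction ps with
  | nil =>
    intro m l hm hl _
    by_cases hS : m ∈ S
    · refine ⟨m * l, L.mul_mem (h1 ⟨hS, hm⟩) hl, [], ⟨by simp, by simp⟩, ?_⟩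
      rw [aux_conj S m hS, map_mul, mul_assoc]
    · refine ⟨1, L.one_mem, [(m, l)], ⟨?_, by simp⟩, ?_⟩
      · intro p hp
        simp only [List.mem_singleton] at hp
        subst hp
        exact ⟨hm, hS, hl⟩
      · simp [vl]
  | cons q ps ih =>
    intro m l hm hl hG
    by_cases hS : m ∈ S
    · refine ⟨m * l, L.mul_mem (h1 ⟨hS, hm⟩) hl, q :: ps, hG, ?_⟩
      rw [aux_conj S m hS, map_mul, mul_assoc]
    · by_cases hlS : l ∈ S
      · have hq := hG.1 q (by simp)
        have hG' : Gd S M L ps := ⟨fun p hp => hG.1 p (by simp [hp]), (List.isChain_cons.1 hG.2).2⟩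
        have key := ih (m * l * q.1) q.2 (M.mul_mem (M.mul_mem hm (h2 hl)) hq.1) hq.2.2 hG'
        have e : (HNNExtension.t * HNNExtension.of m * HNNExtension.t⁻¹ *
            (HNNExtension.of l * vl S (q :: ps)) : CE G S) =
            HNNExtension.t * HNNExtension.of (m * l * q.1) * HNNExtension.t⁻¹ *
              (HNNExtension.of q.2 * vl S ps) := by
          have e1 : (HNNExtension.t⁻¹ * (HNNExtension.of l) : CE G S) =
              HNNExtension.of l * HNNExtension.t⁻¹ := by
            rw [inv_mul_eq_iff_eq_mul, ← mul_assoc, aux_comm S l hlS, mul_assoc, mul_inv_cancel,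
              mul_one]
          have e2 : vl S (q :: ps) = HNNExtension.t * HNNExtension.of q.1 * HNNExtension.t⁻¹ *
              HNNExtension.of q.2 * vl S ps := by simp [vl]
          rw [e2, map_mul, map_mul]
          calc (HNNExtension.t * HNNExtension.of m * HNNExtension.t⁻¹ *
                (HNNExtension.of l * (HNNExtension.t * HNNExtension.of q.1 * HNNExtension.t⁻¹ *
                HNNExtension.of q.2 * vl S ps)) : CE G S)
              = HNNExtension.t * HNNExtension.of m * (HNNExtension.t⁻¹ * HNNExtension.of l) *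
                (HNNExtension.t * HNNExtension.of q.1 * HNNExtension.t⁻¹ *
                HNNExtension.of q.2 * vl S ps) := by simp only [mul_assoc]
            _ = _ := by
              rw [e1]
              simp only [mul_assoc, inv_mul_cancel_left]
        rw [e]
        exact key
      · refine ⟨1, L.one_mem, (m, l) :: q :: ps, ⟨?_, ?_⟩, ?_⟩
        · intro p hp
          rcases List.mem_cons.1 hp with hp | hp
          · subst hp
            exact ⟨hm, hS, hl⟩
          · exact hG.1 p hp
        · rw [List.isChain_cons]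
          refine ⟨?_, hG.2⟩
          intro y _
          exact hlS
        · simp [vl, mul_assoc]

theorem aux_closure {G : Type} [Group G] (S M L : Subgroup G) (h1 : S ⊓ M ≤ L) (h2 : L ≤ M)
    (z : CE G S) (hz : z ∈ Subgroup.closure
      ((fun g : G => (HNNExtension.t * HNNExtension.of g * HNNExtension.t⁻¹ : CE G S)) '' M ∪
      (fun g : G => (HNNExtension.of g : CE G S)) '' L)) : InZ S M L z := by
  have hL : ∀ l ∈ L, ∀ y, InZ S M L y → InZ S M L (HNNExtension.of l * y) := by
    rintro l hl y ⟨l', hl', ps, hG, rfl⟩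
    refine ⟨l * l', L.mul_mem hl hl', ps, hG, ?_⟩
    rw [map_mul, mul_assoc]
  have hM : ∀ m ∈ M, ∀ y, InZ S M L y →
      InZ S M L (HNNExtension.t * HNNExtension.of m * HNNExtension.t⁻¹ * y) := by
    rintro m hm y ⟨l', hl', ps, hG, rfl⟩
    exact aux_mulM S M L h1 h2 ps m l' hm hl' hG
  induction hz using Subgroup.closure_induction_left with
  | one => exact ⟨1, L.one_mem, [], ⟨by simp, by simp⟩, by simp [vl]⟩
  | mul_left x hx y hy ih =>
    rcases hx with ⟨m, hm, rfl⟩ | ⟨l, hl, rfl⟩
    · exact hM m hm y ih
    · exact hL l hl y ih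
  | inv_mul_cancel x hx y hy ih =>
    rcases hx with ⟨m, hm, rfl⟩ | ⟨l, hl, rfl⟩
    · have := hM m⁻¹ (M.inv_mem hm) y ih
      have e : ((fun g : G => (HNNExtension.t * HNNExtension.of g * HNNExtension.t⁻¹ : CE G S)) m)⁻¹
          = HNNExtension.t * HNNExtension.of m⁻¹ * HNNExtension.t⁻¹ := by
        simp [mul_assoc]
      rw [e]
      exact this
    · have := hL l⁻¹ (L.inv_mem hl) y ih
      have e : ((fun g : G => (HNNExtension.of g : CE G S)) l)⁻¹ = HNNExtension.of l⁻¹ := by
        simp
      rw [e]
      exact this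

/-- the letters of a word -/
def ltr {G : Type} : List (G × G) → List (ℤˣ × G)
  | [] => []
  | p :: ps => (1, p.1) :: (-1, p.2) :: ltr ps

theorem aux_ltr_chain {G : Type} [Group G] (S M L : Subgroup G) (ps : List (G × G))
    (h : Gd S M L ps) :
    (ltr ps).IsChain (fun a b => a.2 ∈ toSubgroup S S a.1 → a.1 = b.1) := by
  induction ps with
  | nil => exact List.isChain_nil
  | cons q ps ih =>
    have hG' : Gd S M L ps := ⟨fun p hp => h.1 p (by simp [hp]), (List.isChain_cons.1 h.2).2⟩
    have ih' := ih hG'
    have hq := h.1 q (by simp)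
    show List.IsChain _ ((1, q.1) :: (-1, q.2) :: ltr ps)
    rw [List.isChain_cons, List.isChain_cons]
    refine ⟨?_, ?_, ih'⟩
    · intro y _ hy
      exact absurd hy hq.2.1
    · intro y hy hy2
      cases ps with
      | nil => simp [ltr] at hy
      | cons q' ps' =>
        have h3 := (List.isChain_cons.1 h.2).1 q' (by simp)
        rw [aux_toSubgroup] at hy2
        exact absurd hy2 h3

theorem aux_ltr_prod {G : Type} [Group G] (S : Subgroup G) (ps : List (G × G)) :
    ((ltr ps).map (fun x => (HNNExtension.t ^ (x.1 : ℤ) * HNNExtension.of x.2 : CE G S))).prod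
      = vl S ps := by
  induction ps with
  | nil => simp [ltr, vl]
  | cons q ps ih =>
    have e2 : vl S (q :: ps) = HNNExtension.t * HNNExtension.of q.1 * HNNExtension.t⁻¹ *
              HNNExtension.of q.2 * vl S ps := by simp [vl]
    rw [e2, ← ih]
    simp [ltr, mul_assoc]

theorem lemA : StmLemA := by
  intro G _ S M L h1 h2 x hx
  obtain ⟨l, hl, ps, hG, e⟩ := aux_closure S M L h1 h2 _ hx
  let w : HNNExtension.NormalWord.ReducedWord G S S :=
    { head := l
      toList := ltr ps
      chain := aux_ltr_chain S M L ps hG }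
  have hw : w.prod (MulEquiv.refl S) = HNNExtension.of x := by
    rw [e, ← aux_ltr_prod S ps]
    rfl
  have hnil := HNNExtension.ReducedWord.toList_eq_nil_of_mem_of_range (MulEquiv.refl S) w
    (by rw [hw]; exact ⟨x, rfl⟩)
  have hps : ps = [] := by
    cases ps with
    | nil => rfl
    | cons q ps => exact absurd hnil (by simp [w, ltr])
  subst hps
  have : x = l := by
    apply HNNExtension.of_injective (φ := MulEquiv.refl S)
    rw [e]
    simp [vl]
  rw [this]
  exact hl

theorem subHNN : StmSubHNN := by
  intro A G _ _ α SA S hα hS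
  let Φ : CE A SA →* CE G S := HNNExtension.lift ((HNNExtension.of).comp α) HNNExtension.t (by
    intro a
    exact aux_comm S (α a) ((hS a).2 a.2))
  have hof : ∀ a, Φ (HNNExtension.of a) = HNNExtension.of (α a) := by
    intro a
    exact HNNExtension.lift_of _ _ _ a
  have ht : Φ HNNExtension.t = HNNExtension.t := HNNExtension.lift_t _ _ _
  refine ⟨Φ, ?_, hof, ht⟩
  rw [injective_iff_map_eq_one]
  intro y hy
  obtain ⟨w, hw⟩ := aux_hnn_word (MulEquiv.refl SA) y
  let w' : HNNExtension.NormalWord.ReducedWord G S S :=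
    { head := α w.head
      toList := w.toList.map (fun x => (x.1, α x.2))
      chain := by
        rw [List.isChain_map]
        refine w.chain.imp ?_
        intro a b hab h3
        apply hab
        simp only [aux_toSubgroup] at h3 ⊢
        exact (hS _).1 h3 }
  have hprod : w'.prod (MulEquiv.refl S) = Φ y := by
    rw [← hw]
    simp only [HNNExtension.NormalWord.ReducedWord.prod, w', map_mul, hof, List.map_map]
    congr 1
    rw [map_list_prod, List.map_map]
    congr 1
    apply List.map_congr_left
    intro a _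
    simp only [Function.comp, map_mul, map_zpow, hof, ht]
  have hnil := HNNExtension.ReducedWord.toList_eq_nil_of_mem_of_range (MulEquiv.refl S) w'
    (by rw [hprod, hy]; exact Subgroup.one_mem _)
  have hnil' : w.toList = [] := by
    simpa [w'] using hnil
  have hy2 : y = HNNExtension.of w.head := by
    rw [← hw]
    simp [HNNExtension.NormalWord.ReducedWord.prod, hnil']
  rw [hy2, hof] at hy
  have h4 : α w.head = 1 := by
    apply HNNExtension.of_injective (φ := MulEquiv.refl S)
    rw [hy, map_one]
  have h5 : w.head = 1 := by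
    apply hα
    rw [h4, map_one]
  rw [hy2, h5, map_one]

/-- every letter twice -/
def dbl {K : Type} [Group K] : List (ℤˣ × K) → List (ℤˣ × K)
  | [] => []
  | p :: ps => (p.1, 1) :: (p.1, p.2) :: dbl ps

theorem aux_dbl_chain {K : Type} [Group K] (Q : Subgroup K) (l : List (ℤˣ × K))
    (h : l.IsChain (fun a b => a.2 ∈ toSubgroup Q Q a.1 → a.1 = b.1)) :
    (dbl l).IsChain (fun a b => a.2 ∈ toSubgroup Q Q a.1 → a.1 = b.1) := by
  induction l with
  | nil => exact List.isChain_nil
  | cons q l ih =>
    have ih' := ih (List.isChain_cons.1 h).2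
    show List.IsChain _ ((q.1, 1) :: (q.1, q.2) :: dbl l)
    rw [List.isChain_cons, List.isChain_cons]
    refine ⟨?_, ?_, ih'⟩
    · intro y hy _
      simp only [List.head?_cons, Option.mem_def, Option.some.injEq] at hy
      rw [← hy]
    · intro y hy hy2
      cases l with
      | nil => simp [dbl] at hy
      | cons q' l' =>
        simp only [dbl, List.head?_cons, Option.mem_def, Option.some.injEq] at hy
        rw [← hy]
        exact (List.isChain_cons.1 h).1 q' (by simp) hy2

theorem square : StmSquare := by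
  intro K _ Q
  let ψ : CE K Q →* CE K Q := HNNExtension.lift HNNExtension.of (HNNExtension.t ^ 2) (by
    intro a
    have h := aux_comm Q a a.2
    show (HNNExtension.t ^ 2 * HNNExtension.of (a : K) : CE K Q) =
      HNNExtension.of (a : K) * HNNExtension.t ^ 2
    rw [pow_two, mul_assoc, h, ← mul_assoc, h, mul_assoc])
  have hof : ∀ a, ψ (HNNExtension.of a) = HNNExtension.of a := by
    intro a
    exact HNNExtension.lift_of _ _ _ a
  have ht : ψ HNNExtension.t = HNNExtension.t ^ 2 := HNNExtension.lift_t _ _ _
  refine ⟨ψ, ?_, hof, ht⟩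
  rw [injective_iff_map_eq_one]
  intro y hy
  obtain ⟨w, hw⟩ := aux_hnn_word (MulEquiv.refl Q) y
  let w' : HNNExtension.NormalWord.ReducedWord K Q Q :=
    { head := w.head
      toList := dbl w.toList
      chain := aux_dbl_chain Q _ w.chain }
  have hdp : ∀ l : List (ℤˣ × K),
      ((dbl l).map (fun x => (HNNExtension.t ^ (x.1 : ℤ) * HNNExtension.of x.2 : CE K Q))).prod
      = ψ ((l.map (fun x =>
        (HNNExtension.t ^ (x.1 : ℤ) * HNNExtension.of x.2 : CE K Q))).prod) := by
    intro l
    induction l with
    | nil => simp [dbl]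
    | cons q l ih =>
      simp only [dbl, List.map_cons, List.prod_cons, map_mul, map_one, mul_one, ih, hof]
      rw [map_zpow, ht]
      have : ((HNNExtension.t : CE K Q) ^ 2) ^ (q.1 : ℤ) =
          HNNExtension.t ^ (q.1 : ℤ) * HNNExtension.t ^ (q.1 : ℤ) := by
        rw [← zpow_natCast, ← zpow_mul, ← zpow_add]
        congr 1
        push_cast
        ring
      rw [this]
      simp only [mul_assoc]
  have hprod : w'.prod (MulEquiv.refl Q) = ψ y := by
    rw [← hw]
    simp only [HNNExtension.NormalWord.ReducedWord.prod, w', map_mul, hof]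
    rw [hdp]
  have hnil := HNNExtension.ReducedWord.toList_eq_nil_of_mem_of_range (MulEquiv.refl Q) w'
    (by rw [hprod, hy]; exact Subgroup.one_mem _)
  have hnil' : w.toList = [] := by
    have : dbl w.toList = [] := hnil
    cases hl : w.toList with
    | nil => rfl
    | cons a l => rw [hl] at this; simp [dbl] at this
  have hy2 : y = HNNExtension.of w.head := by
    rw [← hw]
    simp [HNNExtension.NormalWord.ReducedWord.prod, hnil']
  rw [hy2, hof] at hy
  rw [hy2, hy]

end Pool.Agent.Helper739_ISO.LemA
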