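import Mathlib
import Pool.Agent.Y817.ISO.Stm
import Pool.Agent.W379.MHNN
set_option autoImplicit false
/-!
JOB ISO-MHNN (helper739, S14615). Multiple HNN extensions with finitely many stable letters, with universal property,
torsion-freeness and the subgroup lemma. Copy Pool/Agent/Y817/ISO/Stm.lean (and its imports Helper844/*) and
Pool/Agent/W379/MHNN.lean from the starting tree. The latter proves existence with Britton's lemma by induction on the
index type (`Finite.induction_empty_option`), one Mathlib `HNNExtension` at a time; `Pool/Agent/Helper694/CS/J_hnn_tf.lean`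
proves that an HNN extension of a torsion-free group is torsion-free (given here as hypothesis `htf`).

PROOF. Induction on ι. Empty ι: K = G. Option ι: let K', of', r' be given by the induction hypothesis for ι, and let
K = HNNExtension K' A B φ with A = range (of' ∘ f none), B = range (of' ∘ g none), φ (of' (f none q)) = of' (g none q)
(see `stepφ` in W379.MH), of = HNNExtension.of ∘ of', r none = t, r (some i) = of (r' i). Injectivity, relations, TF,
generation and the universal property (lift twice) are clear.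
Subgroup lemma: let H ≤ G with f i q ∈ H ↔ g i q ∈ H. First the ONE-LETTER LEMMA: in E = HNNExtension K' A B φ let L ≤ K'
satisfy (∀ a : A, a ∈ L ↔ φ a ∈ L). If x ∈ K' and of x ∈ closure (of '' L ∪ {t}) then x ∈ L. (Every element of this
closure is of h · ∏ t^{u_i} of(h_i) with h, h_i ∈ L; if there is a pinch t^{u} of(h) t^{-u} with h ∈ toSubgroup A B u it equals
of(h'), h' ∈ L, by compatibility, so the word can be shortened inside L; so every element of the closure is the product
of a ReducedWord with all entries in L (induction on the length, or prove directly that the set of products of reduced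
words with entries in L is closed under left multiplication by of h, t, t⁻¹); if the product is of x then by
`HNNExtension.ReducedWord.toList_eq_nil_of_mem_of_range` the word has no letters, so x = h ∈ L.)
Apply it with L = closure (of' '' H ∪ range r'); compatibility: for a = of' (f none q): by the induction hypothesis of' y ∈ L iff
y ∈ H, so a ∈ L iff f none q ∈ H iff g none q ∈ H iff φ a ∈ L. Then of (of' x) ∈ closure(..) gives of' x ∈ L, so x ∈ H.
-/
namespace Pool.Agent.Helper739_ISO.MHNN
open Pool.Agent.Y817.ISO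

open HNNExtension HNNExtension.NormalWord

section OneLetter

variable {K : Type} [Group K] {A B : Subgroup K} (φ : A ≃* B) (L : Subgroup K)

/-- products of reduced words with entries in `L` -/
def Good (x : HNNExtension K A B φ) : Prop :=
  ∃ w : ReducedWord K A B, w.head ∈ L ∧ (∀ p ∈ w.toList, p.2 ∈ L) ∧ w.prod φ = x

theorem prod_mk (h : K) (l : List (ℤˣ × K))
    (hc : l.IsChain (fun a b => a.2 ∈ toSubgroup A B a.1 → a.1 = b.1)) :
    (⟨h, l, hc⟩ : ReducedWord K A B).prod φ =
      of h * (l.map (fun x => t ^ (x.1 : ℤ) * of x.2)).prod := rfl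

theorem conj_mem (hL : ∀ a : A, (a : K) ∈ L ↔ (φ a : K) ∈ L) (u : ℤˣ) (a : K)
    (ha : a ∈ toSubgroup A B u) (haL : a ∈ L) :
    ∃ b ∈ L, (t : HNNExtension K A B φ) ^ (u : ℤ) * of a * t ^ ((-u : ℤˣ) : ℤ) = of b := by
  rcases Int.units_eq_one_or u with rfl | rfl
  · rw [toSubgroup_one] at ha
    refine ⟨(φ ⟨a, ha⟩ : K), (hL ⟨a, ha⟩).1 haL, ?_⟩
    rw [equiv_eq_conj]
    simp
  · rw [toSubgroup_neg_one] at ha
    refine ⟨(φ.symm ⟨a, ha⟩ : K), (hL (φ.symm ⟨a, ha⟩)).2 (by simpa using haL), ?_⟩
    rw [equiv_symm_eq_conj]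
    simp

theorem good_one : Good φ L 1 := by
  refine ⟨⟨1, [], List.isChain_nil⟩, L.one_mem, by simp, ?_⟩
  rw [prod_mk]
  simp

theorem good_of (h : K) (hh : h ∈ L) (x : HNNExtension K A B φ) (hx : Good φ L x) :
    Good φ L (of h * x) := by
  obtain ⟨⟨g, l, hc⟩, h1, h2, h3⟩ := hx
  refine ⟨⟨h * g, l, hc⟩, L.mul_mem hh h1, h2, ?_⟩
  rw [← h3, prod_mk, prod_mk, map_mul, mul_assoc]

theorem good_t (hL : ∀ a : A, (a : K) ∈ L ↔ (φ a : K) ∈ L) (u : ℤˣ)
    (x : HNNExtension K A B φ) (hx : Good φ L x) : Good φ L (t ^ (u : ℤ) * x) := by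
  obtain ⟨⟨g, l, hc⟩, h1, h2, h3⟩ := hx
  have h1' : g ∈ L := h1
  have h2' : ∀ p ∈ l, p.2 ∈ L := h2
  rw [prod_mk] at h3
  cases l with
  | nil =>
    refine ⟨⟨1, [(u, g)], List.isChain_singleton _⟩, L.one_mem, ?_, ?_⟩
    · intro p hp
      have hp' : p ∈ [(u, g)] := hp
      rw [List.mem_singleton] at hp'
      rw [hp']
      exact h1'
    · rw [prod_mk, ← h3]
      simp
  | cons a l =>
    obtain ⟨v, g'⟩ := a
    by_cases hcase : g ∈ toSubgroup A B u ∧ u ≠ v
    · obtain ⟨hg, huv⟩ := hcase
      have hv : v = -u := by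
        rcases Int.units_eq_one_or u with rfl | rfl <;>
          rcases Int.units_eq_one_or v with rfl | rfl
        · exact absurd rfl huv
        · rfl
        · simp
        · exact absurd rfl huv
      obtain ⟨b, hb, hbe⟩ := conj_mem φ L hL u g hg h1'
      refine ⟨⟨b * g', l, (List.isChain_cons.1 hc).2⟩, L.mul_mem hb (h2' (v, g') (by simp)), ?_, ?_⟩
      · intro p hp
        exact h2' p (List.mem_cons_of_mem _ hp)
      · rw [prod_mk, ← h3, map_mul, ← hbe, hv]
        simp only [List.map_cons, List.prod_cons, mul_assoc]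
    · refine ⟨⟨1, (u, g) :: (v, g') :: l, ?_⟩, L.one_mem, ?_, ?_⟩
      · rw [List.isChain_cons]
        refine ⟨?_, hc⟩
        intro b hb hmem
        simp only [List.head?_cons, Option.mem_def, Option.some.injEq] at hb
        subst hb
        by_contra hne
        exact hcase ⟨hmem, hne⟩
      · intro p hp
        have hp' : p ∈ (u, g) :: (v, g') :: l := hp
        rw [List.mem_cons] at hp'
        rcases hp' with rfl | hp'
        · exact h1'
        · exact h2' p hp'
      · rw [prod_mk, ← h3]
        simp only [List.map_cons, List.prod_cons, map_one, one_mul, mul_assoc]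

/-- the one-letter lemma -/
theorem one_letter (hL : ∀ a : A, (a : K) ∈ L ↔ (φ a : K) ∈ L) (x : K)
    (hx : (of x : HNNExtension K A B φ) ∈ Subgroup.closure (of '' (L : Set K) ∪ {t})) : x ∈ L := by
  have key0 : ∀ y ∈ Subgroup.closure ((of : K →* HNNExtension K A B φ) '' (L : Set K) ∪ {t}),
      Good φ L y := by
    intro y' hy'
    induction hy' using Subgroup.closure_induction_left with
    | one => exact good_one φ L
    | mul_left y hy z _ hz =>
      rcases hy with ⟨h, hh, rfl⟩ | hy
      · exact good_of φ L h hh z hz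
      · rw [Set.mem_singleton_iff] at hy
        subst hy
        have := good_t φ L hL 1 z hz
        simpa using this
    | inv_mul_cancel y hy z _ hz =>
      rcases hy with ⟨h, hh, rfl⟩ | hy
      · rw [← map_inv]
        exact good_of φ L h⁻¹ (L.inv_mem hh) z hz
      · rw [Set.mem_singleton_iff] at hy
        subst hy
        have := good_t φ L hL (-1) z hz
        simpa using this
  obtain ⟨w, h1, h2, h3⟩ := key0 _ hx
  have h4 : w.toList = [] := by
    apply ReducedWord.toList_eq_nil_of_mem_of_range φ w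
    rw [h3]
    exact ⟨x, rfl⟩
  obtain ⟨g, l, hc⟩ := w
  have h5 : l = [] := h4
  subst h5
  rw [prod_mk] at h3
  simp only [List.map_nil, List.prod_nil, mul_one] at h3
  have h6 := of_injective φ h3
  rw [← h6]
  exact h1

end OneLetter

/-- the properties of a multiple HNN extension -/
def MS {G : Type} [Group G] {ι : Type} {Q : ι → Type} [∀ i, Group (Q i)] (f g : ∀ i, Q i →* G)
    (K : Type) [Group K] (of : G →* K) (r : ι → K) : Prop :=
  Function.Injective of ∧
    (∀ i q, r i * of (f i q) = of (g i q) * r i) ∧ (TF G → TF K) ∧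
    Subgroup.closure (Set.range of ∪ Set.range r) = ⊤ ∧
    (∀ (H : Type) [Group H] (φ : G →* H) (s : ι → H),
      (∀ i q, s i * φ (f i q) = φ (g i q) * s i) →
      ∃ Φ : K →* H, (∀ x, Φ (of x) = φ x) ∧ ∀ i, Φ (r i) = s i) ∧
    ∀ H : Subgroup G, (∀ i q, f i q ∈ H ↔ g i q ∈ H) →
      ∀ x : G, of x ∈ Subgroup.closure (of '' (H : Set G) ∪ Set.range r) → x ∈ H

theorem ms_step
    (htf : ∀ (G : Type) [Group G] (A B : Subgroup G) (φ : A ≃* B), TF G → TF (HNNExtension G A B φ))
    {G : Type} [Group G] {ι : Type} {Q : Option ι → Type} [∀ i, Group (Q i)]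
    (f g : ∀ i, Q i →* G) (hf : ∀ i, Function.Injective (f i)) (hg : ∀ i, Function.Injective (g i))
    (K : Type) [Group K] (o : G →* K) (r : ι → K)
    (h : MS (fun i => f (some i)) (fun i => g (some i)) K o r) :
    ∃ (K' : Type) (_ : Group K') (o' : G →* K') (r' : Option ι → K'), MS f g K' o' r' := by
  classical
  obtain ⟨hinj, hrel, hTF, hgen, huniv, hsub⟩ := h
  obtain ⟨A, hA⟩ : ∃ A, A = (o.comp (f none)).range := ⟨_, rfl⟩
  obtain ⟨B, hB⟩ : ∃ B, B = (o.comp (g none)).range := ⟨_, rfl⟩
  obtain ⟨φ, hφ⟩ : ∃ φ : A ≃* B, ∀ q (h : o (f none q) ∈ A),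
      (φ ⟨o (f none q), h⟩ : K) = o (g none q) := by
    subst hA; subst hB
    exact ⟨Pool.Agent.W379.MH.stepφ f g hf hg K o hinj,
      fun q _ => Pool.Agent.W379.MH.stepφ_apply f g hf hg K o hinj q⟩
  obtain ⟨ι', hι'⟩ : ∃ ι' : K →* HNNExtension K A B φ, ι' = HNNExtension.of := ⟨_, rfl⟩
  have hι'inj : Function.Injective ι' := by rw [hι']; exact HNNExtension.of_injective φ
  have hAmem : ∀ a : A, ∃ q, (a : K) = o (f none q) ∧ (φ a : K) = o (g none q) := by
    rintro ⟨a, ha⟩
    have ha' := ha
    rw [hA] at ha'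
    obtain ⟨q, rfl⟩ := ha'
    exact ⟨q, rfl, hφ q ha⟩
  refine ⟨HNNExtension K A B φ, inferInstance, ι'.comp o,
    fun x => x.elim HNNExtension.t (fun i => ι' (r i)), hι'inj.comp hinj, ?_, ?_, ?_, ?_, ?_⟩
  · intro i q
    cases i with
    | none =>
      have h0 : o (f none q) ∈ A := by rw [hA]; exact ⟨q, rfl⟩
      have h1 := HNNExtension.t_mul_of (φ := φ) ⟨o (f none q), h0⟩
      rw [hφ q h0] at h1
      rw [hι']
      exact h1
    | some i =>
      have := hrel i q
      show ι' (r i) * ι' (o (f (some i) q)) = ι' (o (g (some i) q)) * ι' (r i)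
      rw [← map_mul, ← map_mul, this]
  · intro hG
    exact htf K A B φ (hTF hG)
  · rw [eq_top_iff]
    intro x _
    have hK : ∀ y : K, ι' y ∈ Subgroup.closure (Set.range (ι'.comp o) ∪
        Set.range (fun x : Option ι => x.elim HNNExtension.t (fun i => ι' (r i)))) := by
      intro y
      have hy : y ∈ Subgroup.closure (Set.range o ∪ Set.range r) := by rw [hgen]; trivial
      have h2 : ι' y ∈ (Subgroup.closure (Set.range o ∪ Set.range r)).map ι' := ⟨y, hy, rfl⟩
      rw [MonoidHom.map_closure] at h2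
      refine Subgroup.closure_mono ?_ h2
      rintro z ⟨w, hw, rfl⟩
      rcases hw with ⟨a, rfl⟩ | ⟨i, rfl⟩
      · exact Or.inl ⟨a, rfl⟩
      · exact Or.inr ⟨some i, rfl⟩
    induction x using HNNExtension.induction_on with
    | of y => rw [← hι']; exact hK y
    | t => exact Subgroup.subset_closure (Or.inr ⟨none, rfl⟩)
    | mul x y hx hy => exact mul_mem (hx trivial) (hy trivial)
    | inv x hx => exact inv_mem (hx trivial)
  · intro H _ ψ s hs
    obtain ⟨Φ, hΦ1, hΦ2⟩ := huniv H ψ (fun i => s (some i)) (fun i q => hs (some i) q)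
    have hx : ∀ a : A, s none * Φ (a : K) = Φ (φ a : K) * s none := by
      intro a
      obtain ⟨q, h1, h2⟩ := hAmem a
      rw [h1, h2, hΦ1, hΦ1]
      exact hs none q
    refine ⟨HNNExtension.lift Φ (s none) hx, ?_, ?_⟩
    · intro x
      rw [MonoidHom.comp_apply, hι', HNNExtension.lift_of, hΦ1]
    · intro i
      cases i with
      | none => exact HNNExtension.lift_t _ _ _
      | some i =>
        show HNNExtension.lift Φ (s none) hx (ι' (r i)) = s (some i)
        rw [hι', HNNExtension.lift_of, hΦ2]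
  · intro H hH x hx
    have hsubx := hsub H (fun i q => hH (some i) q)
    refine hsubx x ?_
    refine one_letter φ (Subgroup.closure (o '' (H : Set G) ∪ Set.range r)) ?_ (o x) ?_
    · intro a
      obtain ⟨q, h1, h2⟩ := hAmem a
      rw [h1, h2]
      constructor
      · intro h3
        exact Subgroup.subset_closure (Or.inl ⟨_, (hH none q).1 (hsubx _ h3), rfl⟩)
      · intro h3
        exact Subgroup.subset_closure (Or.inl ⟨_, (hH none q).2 (hsubx _ h3), rfl⟩)
    · rw [← hι']
      refine Subgroup.closure_mono ?_ hx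
      rintro z (⟨a, ha, rfl⟩ | ⟨i, rfl⟩)
      · exact Or.inl ⟨o a, Subgroup.subset_closure (Or.inl ⟨a, ha, rfl⟩), rfl⟩
      · cases i with
        | none => exact Or.inr rfl
        | some i => exact Or.inl ⟨r i, Subgroup.subset_closure (Or.inr ⟨i, rfl⟩), rfl⟩

theorem ms_all
    (htf : ∀ (G : Type) [Group G] (A B : Subgroup G) (φ : A ≃* B), TF G → TF (HNNExtension G A B φ))
    {G : Type} [Group G] (ι : Type) [Finite ι] :
    ∀ (Q : ι → Type) (_ : ∀ i, Group (Q i)) (f g : ∀ i, Q i →* G)
      (_ : ∀ i, Function.Injective (f i)) (_ : ∀ i, Function.Injective (g i)),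
      ∃ (K : Type) (_ : Group K) (o : G →* K) (r : ι → K), MS f g K o r := by
  classical
  induction ι using Finite.induction_empty_option with
  | of_equiv e ih =>
    rename_i α β
    intro Q _ f g hf hg
    obtain ⟨K, hK, o, r, h1, h2, h3, h4, h5, h6⟩ := ih (fun i => Q (e i)) (fun i => inferInstance)
      (fun i => f (e i)) (fun i => g (e i)) (fun i => hf _) (fun i => hg _)
    have hrange : Set.range (fun j => r (e.symm j)) = Set.range r := by
      ext x
      constructor
      · rintro ⟨j, rfl⟩
        exact ⟨_, rfl⟩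
      · rintro ⟨i, rfl⟩
        exact ⟨e i, by simp⟩
    refine ⟨K, hK, o, fun j => r (e.symm j), h1, ?_, h3, ?_, ?_, ?_⟩
    · intro j q
      obtain ⟨i, rfl⟩ := e.surjective j
      have := h2 i q
      simpa using this
    · rw [hrange]
      exact h4
    · intro H _ ψ s hs
      obtain ⟨Φ, hΦ1, hΦ2⟩ := h5 H ψ (fun i => s (e i)) (fun i q => hs (e i) q)
      refine ⟨Φ, hΦ1, fun j => ?_⟩
      rw [hΦ2]
      simp
    · intro H hH x hx
      rw [hrange] at hx
      exact h6 H (fun i q => hH (e i) q) x hx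
  | h_empty =>
    intro Q _ f g hf hg
    refine ⟨G, inferInstance, MonoidHom.id G, fun i => i.elim, Function.injective_id, ?_, ?_, ?_,
      ?_, ?_⟩
    · intro i; exact i.elim
    · exact fun h => h
    · rw [eq_top_iff]
      intro x _
      exact Subgroup.subset_closure (Or.inl ⟨x, rfl⟩)
    · intro H _ ψ s _
      exact ⟨ψ, fun x => rfl, fun i => i.elim⟩
    · intro H _ x hx
      have h1 : ((MonoidHom.id G) '' (H : Set G) ∪ Set.range (fun i : PEmpty => (i.elim : G))) ⊆
          (H : Set G) := by
        rintro z (⟨a, ha, rfl⟩ | ⟨i, rfl⟩)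
        · exact ha
        · exact i.elim
      exact (Subgroup.closure_le H).2 h1 hx
  | h_option ih =>
    rename_i α
    intro Q _ f g hf hg
    obtain ⟨K, hK, o, r, hS⟩ := ih (fun i => Q (some i)) (fun i => inferInstance)
      (fun i => f (some i)) (fun i => g (some i)) (fun i => hf _) (fun i => hg _)
    exact ms_step htf f g hf hg K o r hS

theorem mhnn
    (htf : ∀ (G : Type) [Group G] (A B : Subgroup G) (φ : A ≃* B), TF G → TF (HNNExtension G A B φ)) :
    ∀ (G : Type) [Group G] (ι : Type) [Finite ι] (Q : ι → Type)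
  [∀ i, Group (Q i)] (f g : ∀ i, Q i →* G), (∀ i, Function.Injective (f i)) →
  (∀ i, Function.Injective (g i)) →
  ∃ (K : Type) (_ : Group K) (of : G →* K) (r : ι → K), Function.Injective of ∧
    (∀ i q, r i * of (f i q) = of (g i q) * r i) ∧ (TF G → TF K) ∧
    Subgroup.closure (Set.range of ∪ Set.range r) = ⊤ ∧
    (∀ (H : Type) [Group H] (φ : G →* H) (s : ι → H),
      (∀ i q, s i * φ (f i q) = φ (g i q) * s i) →
      ∃ Φ : K →* H, (∀ x, Φ (of x) = φ x) ∧ ∀ i, Φ (r i) = s i) ∧
    ∀ H : Subgroup G, (∀ i q, f i q ∈ H ↔ g i q ∈ H) →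
      ∀ x : G, of x ∈ Subgroup.closure (of '' (H : Set G) ∪ Set.range r) → x ∈ H := by
  intro G _ ι _ Q _ f g hf hg
  exact ms_all htf ι Q _ f g hf hg

end Pool.Agent.Helper739_ISO.MHNN

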