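import Mathlib
import Pool.Agent.Y817.ISO.Stm
import Pool.Agent.H715R3.MedvA
set_option autoImplicit false

namespace Pool.Agent.Helper739_ISO.RE
open Pool.Agent.Y817.ISO

/-! ### words -/

abbrev Wd : Type := List (ℕ × Bool)

abbrev Cd : Type := ℕ × List (List (ℕ × Bool))

abbrev Dr : Type := List (Wd × (ℕ × Bool))

/-- Formal inverse of a word. -/
def winv (w : Wd) : Wd := (w.map fun p => (p.1, !p.2)).reverse

theorem mk_winv (w : Wd) : FreeGroup.mk (winv w) = (FreeGroup.mk w)⁻¹ := by
  rw [FreeGroup.inv_mk]; rfl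

/-- image of a letter -/
def img (n : ℕ) (u : List Wd) (i : ℕ) : Wd := if i < n then u.getD i [] else []

/-- substitution -/
def sub (n : ℕ) (u : List Wd) (w : Wd) : Wd :=
  w.flatMap (fun q => bif q.2 then img n u q.1 else winv (img n u q.1))

theorem mk_sub (n : ℕ) (u : List Wd) (w : Wd) : FreeGroup.mk (sub n u w) =
    FreeGroup.lift (fun i => FreeGroup.mk (img n u i)) (FreeGroup.mk w) := by
  induction w with
  | nil => simp [sub, ← FreeGroup.one_eq_mk]
  | cons q w ih =>
    have e1 : FreeGroup.mk (sub n u (q :: w)) =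
        FreeGroup.mk (bif q.2 then img n u q.1 else winv (img n u q.1)) *
          FreeGroup.mk (sub n u w) := by
      rw [FreeGroup.mul_mk]
      rfl
    have e2 : FreeGroup.mk (q :: w) = FreeGroup.mk [q] * FreeGroup.mk w := by
      rw [FreeGroup.mul_mk]
      rfl
    rw [e1, ih, e2, map_mul]
    congr 1
    obtain ⟨i, b⟩ := q
    cases b
    · simp only [cond_false, mk_winv]
      simp [FreeGroup.lift_mk]
    · simp only [cond_true]
      simp [FreeGroup.lift_mk]

/-- the relators over the alphabet `ℕ` -/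
def rel (a : Cd) (k : ℕ) : Wd := (a.2[k]?).getD [(a.1 + (k - a.2.length), true)]

/-- value of a derivation -/
def dval (rl : ℕ → Wd) (D : Dr) : Wd :=
  D.flatMap (fun d => d.1 ++ ((bif d.2.2 then rl d.2.1 else winv (rl d.2.1)) ++ winv d.1))

theorem mem_normalClosure_iff (rl : ℕ → Wd) (g : FreeGroup ℕ) :
    g ∈ Subgroup.normalClosure (Set.range (fun n => FreeGroup.mk (rl n))) ↔
      ∃ D, g = FreeGroup.mk (dval rl D) := by
  constructor
  · intro h
    unfold Subgroup.normalClosure at h
    induction h using Subgroup.closure_induction with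
    | mem x hx =>
      obtain ⟨a, ⟨n, rfl⟩, hc⟩ := Group.mem_conjugatesOfSet_iff.1 hx
      obtain ⟨c, hc⟩ := isConj_iff.1 hc
      refine ⟨[(c.toWord, (n, true))], ?_⟩
      rw [← hc]
      simp only [dval, List.flatMap_cons, List.flatMap_nil, List.append_nil, cond_true]
      rw [← FreeGroup.mul_mk, ← FreeGroup.mul_mk, mk_winv, FreeGroup.mk_toWord, mul_assoc]
    | one => exact ⟨[], by simp [dval, FreeGroup.one_eq_mk]⟩
    | mul x y _ _ hx hy =>
      obtain ⟨D, hD⟩ := hx
      obtain ⟨E, hE⟩ := hy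
      refine ⟨D ++ E, ?_⟩
      rw [hD, hE]
      simp only [dval, List.flatMap_append, FreeGroup.mul_mk]
    | inv x hm hx =>
      clear hm
      obtain ⟨D, hD⟩ := hx
      subst hD
      induction D with
      | nil => exact ⟨[], by simp [dval, FreeGroup.inv_mk, FreeGroup.invRev]⟩
      | cons d D ih =>
        obtain ⟨E, hE⟩ := ih
        refine ⟨E ++ [(d.1, (d.2.1, !d.2.2))], ?_⟩
        have e1 : FreeGroup.mk (dval rl (d :: D)) =
            FreeGroup.mk (d.1 ++ ((bif d.2.2 then rl d.2.1 else winv (rl d.2.1)) ++ winv d.1)) *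
              FreeGroup.mk (dval rl D) := by
          simp only [dval, List.flatMap_cons, FreeGroup.mul_mk]
        rw [e1, mul_inv_rev, hE]
        have e2 : FreeGroup.mk (dval rl (E ++ [(d.1, (d.2.1, !d.2.2))])) =
            FreeGroup.mk (dval rl E) * FreeGroup.mk (d.1 ++
              ((bif (!d.2.2) then rl d.2.1 else winv (rl d.2.1)) ++ winv d.1)) := by
          simp only [dval, List.flatMap_append, List.flatMap_cons, List.flatMap_nil,
            List.append_nil, FreeGroup.mul_mk]
        rw [e2]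
        congr 1
        simp only [← FreeGroup.mul_mk, mk_winv, mul_inv_rev, inv_inv, mul_assoc]
        congr 1
        congr 1
        cases d.2.2 <;> simp [mk_winv]
  · rintro ⟨D, rfl⟩
    induction D with
    | nil => simp [dval, ← FreeGroup.one_eq_mk]
    | cons d D ih =>
      have e1 : FreeGroup.mk (dval rl (d :: D)) =
          FreeGroup.mk (d.1 ++ ((bif d.2.2 then rl d.2.1 else winv (rl d.2.1)) ++ winv d.1)) *
            FreeGroup.mk (dval rl D) := by
        simp only [dval, List.flatMap_cons, FreeGroup.mul_mk]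
      rw [e1]
      refine Subgroup.mul_mem _ ?_ ih
      have hn : (Subgroup.normalClosure (Set.range (fun n => FreeGroup.mk (rl n)))).Normal :=
        Subgroup.normalClosure_normal
      have hm : FreeGroup.mk (rl d.2.1) ∈
          Subgroup.normalClosure (Set.range (fun n => FreeGroup.mk (rl n))) :=
        Subgroup.subset_normalClosure ⟨d.2.1, rfl⟩
      rw [← FreeGroup.mul_mk, ← FreeGroup.mul_mk, mk_winv, ← mul_assoc]
      refine hn.conj_mem _ ?_ _
      cases d.2.2
      · simp only [cond_false, mk_winv]; exact Subgroup.inv_mem _ hm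
      · simpa using hm

/-! ### the group of a code as a quotient of `FreeGroup ℕ` -/

/-- the letters of a word which are generators of the code -/
def filt (n : ℕ) (w : Wd) : List (Fin n × Bool) :=
  w.filterMap (fun q => if h : q.1 < n then some ((⟨q.1, h⟩ : Fin n), q.2) else none)

/-- evaluation of words -/
def th (a : Cd) : FreeGroup ℕ →* PG a :=
  FreeGroup.lift (fun i => if h : i < a.1 then PresentedGroup.of (⟨i, h⟩ : Fin a.1) else 1)

theorem th_of_lt (a : Cd) {i : ℕ} (h : i < a.1) :
    th a (FreeGroup.of i) = PresentedGroup.of (⟨i, h⟩ : Fin a.1) := by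
  simp [th, h]

theorem th_of_ge (a : Cd) {i : ℕ} (h : ¬ i < a.1) : th a (FreeGroup.of i) = 1 := by
  simp [th, h]

/-- a general evaluation lemma -/
theorem lift_filt {n : ℕ} {H : Type} [Group H] (f : Fin n → H) (F : FreeGroup ℕ →* H)
    (h1 : ∀ (i : ℕ) (h : i < n), F (FreeGroup.of i) = f ⟨i, h⟩)
    (h2 : ∀ i : ℕ, ¬ i < n → F (FreeGroup.of i) = 1) (w : Wd) :
    FreeGroup.lift f (FreeGroup.mk (filt n w)) = F (FreeGroup.mk w) := by
  induction w with
  | nil => simp [filt, ← FreeGroup.one_eq_mk]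
  | cons q w ih =>
    have e2 : FreeGroup.mk (q :: w) = FreeGroup.mk [q] * FreeGroup.mk w := by
      rw [FreeGroup.mul_mk]
      rfl
    rw [e2, map_mul, ← ih]
    obtain ⟨i, b⟩ := q
    have e3 : FreeGroup.mk [((i, b) : ℕ × Bool)] = bif b then FreeGroup.of i else (FreeGroup.of i)⁻¹ := by
      cases b
      · rfl
      · rfl
    rw [e3]
    by_cases h : i < n
    · have e1 : filt n ((i, b) :: w) = ((⟨i, h⟩ : Fin n), b) :: filt n w := by
        simp [filt, h]
      have e4 : FreeGroup.mk (((⟨i, h⟩ : Fin n), b) :: filt n w) =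
          (bif b then FreeGroup.of (⟨i, h⟩ : Fin n) else (FreeGroup.of (⟨i, h⟩ : Fin n))⁻¹) *
            FreeGroup.mk (filt n w) := by
        cases b
        · rfl
        · rfl
      rw [e1, e4, map_mul]
      congr 1
      cases b
      · simp only [cond_false, map_inv, FreeGroup.lift_apply_of, h1 i h]
      · simp only [cond_true, FreeGroup.lift_apply_of, h1 i h]
    · have e1 : filt n ((i, b) :: w) = filt n w := by
        simp [filt, h]
      rw [e1]
      cases b
      · simp only [cond_false, map_inv, h2 i h, inv_one, one_mul]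
      · simp only [cond_true, h2 i h, one_mul]

theorem th_mk (a : Cd) (w : Wd) :
    th a (FreeGroup.mk w) = PresentedGroup.mk (relSet a) (FreeGroup.mk (filt a.1 w)) := by
  rw [← lift_filt (fun i : Fin a.1 => (PresentedGroup.of i : PG a)) (th a)
    (fun i h => th_of_lt a h) (fun i h => th_of_ge a h) w]
  have : FreeGroup.lift (fun i : Fin a.1 => (PresentedGroup.of i : PG a)) =
      PresentedGroup.mk (relSet a) := by
    apply FreeGroup.ext_hom
    intro i
    rw [FreeGroup.lift_apply_of]
    rfl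
  rw [this]

theorem th_rel (a : Cd) {w : Wd} (hw : w ∈ a.2) : th a (FreeGroup.mk w) = 1 := by
  rw [th_mk]
  exact PresentedGroup.one_of_mem ⟨w, hw, rfl⟩

theorem th_surj (a : Cd) : Function.Surjective (th a) := by
  intro x
  have h : (⊤ : Subgroup (PG a)) ≤ (th a).range := by
    rw [← PresentedGroup.closure_range_of, Subgroup.closure_le]
    rintro _ ⟨i, rfl⟩
    exact ⟨FreeGroup.of i.1, th_of_lt a i.2⟩
  exact h (Subgroup.mem_top x)

theorem th_ker (a : Cd) (g : FreeGroup ℕ) : th a g = 1 ↔
    g ∈ Subgroup.normalClosure (Set.range (fun k => FreeGroup.mk (rel a k))) := by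
  set N := Subgroup.normalClosure (Set.range (fun k => FreeGroup.mk (rel a k))) with hN
  have hrel : ∀ w ∈ a.2, FreeGroup.mk w ∈ N := by
    intro w hw
    obtain ⟨k, hk, rfl⟩ := List.getElem_of_mem hw
    refine Subgroup.subset_normalClosure ⟨k, ?_⟩
    simp [rel, hk]
  have hgen : ∀ i : ℕ, ¬ i < a.1 → FreeGroup.of i ∈ N := by
    intro i hi
    refine Subgroup.subset_normalClosure ⟨a.2.length + (i - a.1), ?_⟩
    have h1 : a.2[a.2.length + (i - a.1)]? = none := by
      rw [List.getElem?_eq_none_iff]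
      omega
    have h2 : a.1 + (a.2.length + (i - a.1) - a.2.length) = i := by omega
    simp only [rel, h1, Option.getD_none, h2]
    rfl
  constructor
  · intro hg
    let f : Fin a.1 → FreeGroup ℕ ⧸ N := fun i => QuotientGroup.mk (FreeGroup.of i.1)
    have hr : ∀ r ∈ relSet a, FreeGroup.lift f r = 1 := by
      rintro r ⟨w, hw, rfl⟩
      have := lift_filt f (QuotientGroup.mk' N) (fun i h => rfl)
        (fun i h => (QuotientGroup.eq_one_iff _).2 (hgen i h)) w
      unfold filt at this
      rw [this]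
      exact (QuotientGroup.eq_one_iff _).2 (hrel w hw)
    let ps : PG a →* FreeGroup ℕ ⧸ N := PresentedGroup.toGroup hr
    have hps : ps.comp (th a) = QuotientGroup.mk' N := by
      apply FreeGroup.ext_hom
      intro i
      by_cases h : i < a.1
      · rw [MonoidHom.comp_apply, th_of_lt a h]
        exact PresentedGroup.toGroup.of hr
      · rw [MonoidHom.comp_apply, th_of_ge a h, map_one]
        exact ((QuotientGroup.eq_one_iff _).2 (hgen i h)).symm
    have h1 : ps (th a g) = QuotientGroup.mk' N g := DFunLike.congr_fun hps g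
    rw [hg, map_one] at h1
    exact (QuotientGroup.eq_one_iff _).1 h1.symm
  · intro hg
    have h1 : N ≤ (th a).ker := by
      apply Subgroup.normalClosure_le_normal
      rintro _ ⟨k, rfl⟩
      change th a (FreeGroup.mk (rel a k)) = 1
      unfold rel
      cases hk : a.2[k]? with
      | none =>
        rw [Option.getD_none]
        exact th_of_ge a (by omega)
      | some w =>
        rw [Option.getD_some]
        exact th_rel a (List.mem_of_getElem? hk)
    exact h1 hg

/-! ### the criterion -/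

/-- the words that must be trivial in the second group -/
def TB (a b : Cd) (u v : List Wd) : List Wd :=
  a.2.map (sub a.1 u) ++
    (List.range b.1).map (fun j => sub a.1 u (img b.1 v j) ++ [(j, false)])

def Good (a b : Cd) (u v : List Wd) : Prop := ∀ w ∈ TB a b u v, th b (FreeGroup.mk w) = 1

/-- choice of the images -/
theorem exists_img (a b : Cd) (e : PG a →* PG b) : ∃ u : List Wd, ∀ g : FreeGroup ℕ,
    th b (FreeGroup.lift (fun i => FreeGroup.mk (img a.1 u i)) g) = e (th a g) := by
  have h : ∀ i : ℕ, ∃ w : Wd, th b (FreeGroup.mk w) = e (th a (FreeGroup.of i)) := by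
    intro i
    obtain ⟨g, hg⟩ := th_surj b (e (th a (FreeGroup.of i)))
    exact ⟨g.toWord, by rw [FreeGroup.mk_toWord, hg]⟩
  choose f hf using h
  refine ⟨(List.range a.1).map f, fun g => ?_⟩
  have : (th b).comp (FreeGroup.lift (fun i => FreeGroup.mk (img a.1 ((List.range a.1).map f) i))) =
      e.comp (th a) := by
    apply FreeGroup.ext_hom
    intro i
    rw [MonoidHom.comp_apply, MonoidHom.comp_apply, FreeGroup.lift_apply_of]
    by_cases hi : i < a.1
    · rw [← hf i]
      unfold img
      rw [if_pos hi]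
      congr 2
      simp [List.getD_eq_getElem?_getD, hi]
    · rw [th_of_ge a hi, map_one]
      unfold img
      rw [if_neg hi, ← FreeGroup.one_eq_mk, map_one]
  exact DFunLike.congr_fun this g

theorem good_of_iso (a b : Cd) (e : PG a ≃* PG b) {u v : List Wd}
    (hu : ∀ g, th b (FreeGroup.lift (fun i => FreeGroup.mk (img a.1 u i)) g) = e (th a g))
    (hv : ∀ g, th a (FreeGroup.lift (fun i => FreeGroup.mk (img b.1 v i)) g) = e.symm (th b g)) :
    Good a b u v := by
  intro w hw
  unfold TB at hw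
  rw [List.mem_append] at hw
  rcases hw with hw | hw
  · obtain ⟨w', hw', rfl⟩ := List.mem_map.1 hw
    rw [mk_sub, hu, th_rel a hw', map_one]
  · obtain ⟨j, hj, rfl⟩ := List.mem_map.1 hw
    rw [← FreeGroup.mul_mk, map_mul, mk_sub, hu]
    have h1 := hv (FreeGroup.of j)
    rw [FreeGroup.lift_apply_of] at h1
    rw [h1, MulEquiv.apply_symm_apply]
    have h2 : FreeGroup.mk [((j, false) : ℕ × Bool)] = (FreeGroup.of j)⁻¹ := rfl
    rw [h2, map_inv, mul_inv_cancel]

theorem hom_of_good (a b : Cd) {u v : List Wd} (h : Good a b u v) : ∃ f : PG a →* PG b,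
    ∀ g, f (th a g) = th b (FreeGroup.lift (fun i => FreeGroup.mk (img a.1 u i)) g) := by
  let F : FreeGroup ℕ →* PG b :=
    (th b).comp (FreeGroup.lift (fun i => FreeGroup.mk (img a.1 u i)))
  let f : Fin a.1 → PG b := fun i => F (FreeGroup.of i.1)
  have hge : ∀ i : ℕ, ¬ i < a.1 → F (FreeGroup.of i) = 1 := by
    intro i hi
    change th b (FreeGroup.lift (fun i => FreeGroup.mk (img a.1 u i)) (FreeGroup.of i)) = 1
    rw [FreeGroup.lift_apply_of]
    unfold img
    rw [if_neg hi, ← FreeGroup.one_eq_mk, map_one]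
  have hr : ∀ r ∈ relSet a, FreeGroup.lift f r = 1 := by
    rintro r ⟨w, hw, rfl⟩
    have := lift_filt f F (fun i h => rfl) hge w
    unfold filt at this
    rw [this]
    change th b (FreeGroup.lift (fun i => FreeGroup.mk (img a.1 u i)) (FreeGroup.mk w)) = 1
    rw [← mk_sub]
    apply h
    unfold TB
    exact List.mem_append_left _ (List.mem_map.2 ⟨w, hw, rfl⟩)
  refine ⟨PresentedGroup.toGroup hr, fun g => ?_⟩
  have hps : (PresentedGroup.toGroup hr).comp (th a) = F := by
    apply FreeGroup.ext_hom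
    intro i
    by_cases hi : i < a.1
    · rw [MonoidHom.comp_apply, th_of_lt a hi]
      exact PresentedGroup.toGroup.of hr
    · rw [MonoidHom.comp_apply, th_of_ge a hi, map_one, hge i hi]
  exact DFunLike.congr_fun hps g

theorem comp_of_good (a b : Cd) {u v : List Wd} (h : Good a b u v) (f : PG a →* PG b)
    (g : PG b →* PG a)
    (hf : ∀ x, f (th a x) = th b (FreeGroup.lift (fun i => FreeGroup.mk (img a.1 u i)) x))
    (hg : ∀ x, g (th b x) = th a (FreeGroup.lift (fun i => FreeGroup.mk (img b.1 v i)) x)) :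
    f.comp g = MonoidHom.id (PG b) := by
  have h1 : (f.comp g).comp (th b) = (MonoidHom.id (PG b)).comp (th b) := by
    apply FreeGroup.ext_hom
    intro j
    rw [MonoidHom.comp_apply, MonoidHom.comp_apply, MonoidHom.comp_apply, MonoidHom.id_apply,
      hg, FreeGroup.lift_apply_of, hf, ← mk_sub]
    by_cases hj : j < b.1
    · have h2 := h (sub a.1 u (img b.1 v j) ++ [(j, false)]) (by
        unfold TB
        exact List.mem_append_right _ (List.mem_map.2 ⟨j, List.mem_range.2 hj, rfl⟩))
      rw [← FreeGroup.mul_mk, map_mul] at h2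
      have h3 : FreeGroup.mk [((j, false) : ℕ × Bool)] = (FreeGroup.of j)⁻¹ := rfl
      rw [h3, map_inv] at h2
      exact mul_inv_eq_one.1 h2
    · have h2 : img b.1 v j = [] := by
        unfold img
        rw [if_neg hj]
      rw [h2, th_of_ge b hj]
      have h3 : sub a.1 u [] = [] := rfl
      rw [h3, ← FreeGroup.one_eq_mk, map_one]
  apply MonoidHom.ext
  intro x
  obtain ⟨y, rfl⟩ := th_surj b x
  exact DFunLike.congr_fun h1 y

theorem iso_iff (a b : Cd) : Nonempty (PG a ≃* PG b) ↔
    ∃ u v : List Wd, Good a b u v ∧ Good b a v u := by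
  constructor
  · rintro ⟨e⟩
    obtain ⟨u, hu⟩ := exists_img a b e.toMonoidHom
    obtain ⟨v, hv⟩ := exists_img b a e.symm.toMonoidHom
    exact ⟨u, v, good_of_iso a b e hu hv, good_of_iso b a e.symm hv hu⟩
  · rintro ⟨u, v, h1, h2⟩
    obtain ⟨f, hf⟩ := hom_of_good a b h1
    obtain ⟨g, hg⟩ := hom_of_good b a h2
    exact ⟨MonoidHom.toMulEquiv f g (comp_of_good b a h2 g f hg hf) (comp_of_good a b h1 f g hf hg)⟩

/-- the finite check -/
theorem good_iff (a b : Cd) (u v : List Wd) : Good a b u v ↔ ∃ DB : List Dr,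
    (TB a b u v).map FreeGroup.reduce = DB.map (fun D => FreeGroup.reduce (dval (rel b) D)) := by
  unfold Good
  generalize TB a b u v = T
  have key : ∀ w : Wd, th b (FreeGroup.mk w) = 1 ↔
      ∃ D, FreeGroup.reduce w = FreeGroup.reduce (dval (rel b) D) := by
    intro w
    rw [th_ker, mem_normalClosure_iff]
    constructor
    · rintro ⟨D, hD⟩
      exact ⟨D, FreeGroup.reduce.sound hD⟩
    · rintro ⟨D, hD⟩
      exact ⟨D, FreeGroup.reduce.exact hD⟩
  constructor
  · intro h
    induction T with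
    | nil => exact ⟨[], rfl⟩
    | cons w T ih =>
      obtain ⟨DB, hDB⟩ := ih (fun w' hw' => h w' (List.mem_cons_of_mem _ hw'))
      obtain ⟨D, hD⟩ := (key w).1 (h w List.mem_cons_self)
      refine ⟨D :: DB, ?_⟩
      rw [List.map_cons, List.map_cons, hD, hDB]
  · rintro ⟨DB, hDB⟩ w hw
    have h1 : FreeGroup.reduce w ∈ T.map FreeGroup.reduce := List.mem_map.2 ⟨w, hw, rfl⟩
    rw [hDB] at h1
    obtain ⟨D, -, hD⟩ := List.mem_map.1 h1
    exact (key w).2 ⟨D, hD.symm⟩

/-! ### computability -/

theorem winv_primrec : Primrec winv := by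
  refine Primrec.list_reverse.comp (Primrec.list_map Primrec.id ?_)
  exact ((Primrec.fst.comp Primrec.snd).pair (Primrec.not.comp (Primrec.snd.comp Primrec.snd))).to₂

theorem reduce_primrec : Primrec (FreeGroup.reduce (α := ℕ)) := by
  have h : (FreeGroup.reduce (α := ℕ)) = fun L => L.foldr (fun hd1 ih =>
      List.casesOn ih [hd1] fun hd2 tl2 =>
        if hd1.1 = hd2.1 ∧ hd1.2 = not hd2.2 then tl2 else hd1 :: hd2 :: tl2) [] := by
    funext L
    induction L with
    | nil => rfl
    | cons x xs ih =>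
      rw [List.foldr_cons, ← ih]
      rfl
  rw [h]
  have hf : Primrec (fun a : Wd × ((ℕ × Bool) × Wd) => a.2.2) := Primrec.snd.comp Primrec.snd
  have hg : Primrec (fun a : Wd × ((ℕ × Bool) × Wd) => [a.2.1]) :=
    Primrec.list_cons.comp (Primrec.fst.comp Primrec.snd) (Primrec.const [])
  have hh : Primrec₂ (fun (a : Wd × ((ℕ × Bool) × Wd)) (b : (ℕ × Bool) × Wd) =>
      if a.2.1.1 = b.1.1 ∧ a.2.1.2 = (!b.1.2) then b.2 else a.2.1 :: b.1 :: b.2) := by
    refine Primrec.ite ?_ ?_ ?_
    · refine PrimrecPred.and ?_ ?_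
      · exact Primrec.eq.comp
          (Primrec.fst.comp (Primrec.fst.comp (Primrec.snd.comp Primrec.fst)))
          (Primrec.fst.comp (Primrec.fst.comp Primrec.snd))
      · exact Primrec.eq.comp
          (Primrec.snd.comp (Primrec.fst.comp (Primrec.snd.comp Primrec.fst)))
          (Primrec.not.comp (Primrec.snd.comp (Primrec.fst.comp Primrec.snd)))
    · exact Primrec.snd.comp Primrec.snd
    · exact Primrec.list_cons.comp (Primrec.fst.comp (Primrec.snd.comp Primrec.fst))
        (Primrec.list_cons.comp (Primrec.fst.comp Primrec.snd) (Primrec.snd.comp Primrec.snd))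
  have hcase := Primrec.list_casesOn hf hg hh
  have hh' : Primrec₂ (fun (_a : Wd) (b : (ℕ × Bool) × Wd) =>
      (List.casesOn b.2 [b.1] fun hd2 tl2 =>
        if b.1.1 = hd2.1 ∧ b.1.2 = not hd2.2 then tl2 else b.1 :: hd2 :: tl2 : Wd)) := hcase
  exact Primrec.list_foldr Primrec.id (Primrec.const []) hh'

theorem img_primrec : Primrec (fun p : (ℕ × List Wd) × ℕ => img p.1.1 p.1.2 p.2) := by
  unfold img
  refine Primrec.ite ?_ ?_ (Primrec.const [])
  · exact Primrec.nat_lt.comp Primrec.snd (Primrec.fst.comp Primrec.fst)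
  · have h : Primrec₂ (fun (l : List Wd) (n : ℕ) => l.getD n []) := Primrec.list_getD []
    exact h.comp (Primrec.snd.comp Primrec.fst) Primrec.snd

theorem sub_primrec : Primrec (fun p : (ℕ × List Wd) × Wd => sub p.1.1 p.1.2 p.2) := by
  unfold sub
  refine Primrec.list_flatMap Primrec.snd ?_
  have d : Primrec (fun p : ((ℕ × List Wd) × Wd) × (ℕ × Bool) => img p.1.1.1 p.1.1.2 p.2.1) :=
    img_primrec.comp ((Primrec.fst.comp Primrec.fst).pair (Primrec.fst.comp Primrec.snd))
  exact Primrec.cond (Primrec.snd.comp Primrec.snd) d (winv_primrec.comp d)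

theorem rel_primrec : Primrec (fun p : Cd × ℕ => rel p.1 p.2) := by
  unfold rel
  refine Primrec.option_getD.comp ?_ ?_
  · exact Primrec.list_getElem?.comp (Primrec.snd.comp Primrec.fst) Primrec.snd
  · refine Primrec.list_cons.comp (Primrec.pair ?_ (Primrec.const true)) (Primrec.const [])
    exact Primrec.nat_add.comp (Primrec.fst.comp Primrec.fst)
      (Primrec.nat_sub.comp Primrec.snd (Primrec.list_length.comp (Primrec.snd.comp Primrec.fst)))

theorem dval_primrec : Primrec (fun p : Cd × Dr => dval (rel p.1) p.2) := by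
  unfold dval
  refine Primrec.list_flatMap Primrec.snd ?_
  have d : Primrec (fun p : (Cd × Dr) × (Wd × (ℕ × Bool)) => p.2) := Primrec.snd
  have h1 := Primrec.fst.comp d
  have h2 : Primrec (fun p : (Cd × Dr) × (Wd × (ℕ × Bool)) => rel p.1.1 p.2.2.1) :=
    rel_primrec.comp ((Primrec.fst.comp Primrec.fst).pair
      (Primrec.fst.comp (Primrec.snd.comp d)))
  have h3 := Primrec.snd.comp (Primrec.snd.comp d)
  exact Primrec.list_append.comp h1 (Primrec.list_append.comp
    (Primrec.cond h3 h2 (winv_primrec.comp h2)) (winv_primrec.comp h1))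

theorem TB_primrec : Primrec (fun p : (Cd × Cd) × (List Wd × List Wd) =>
    TB p.1.1 p.1.2 p.2.1 p.2.2) := by
  have e1 : Primrec (fun p : (Cd × Cd) × (List Wd × List Wd) => p.1) := Primrec.fst
  have e2 : Primrec (fun p : (Cd × Cd) × (List Wd × List Wd) => p.2) := Primrec.snd
  have e3 : Primrec (fun p : (Cd × Cd) × (List Wd × List Wd) => p.1.1) := Primrec.fst.comp e1
  have e4 : Primrec (fun p : (Cd × Cd) × (List Wd × List Wd) => p.1.2) := Primrec.snd.comp e1
  have e5 : Primrec (fun p : (Cd × Cd) × (List Wd × List Wd) => p.2.1) := Primrec.fst.comp e2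
  have e6 : Primrec (fun p : (Cd × Cd) × (List Wd × List Wd) => p.2.2) := Primrec.snd.comp e2
  have f1 : Primrec (fun p : (Cd × Cd) × (List Wd × List Wd) => (p.1.1.1, p.2.1)) :=
    (Primrec.fst.comp e3).pair e5
  have f2 : Primrec (fun p : (Cd × Cd) × (List Wd × List Wd) => (p.1.2.1, p.2.2)) :=
    (Primrec.fst.comp e4).pair e6
  have g1 : Primrec₂ (fun (p : (Cd × Cd) × (List Wd × List Wd)) (w : Wd) =>
      sub p.1.1.1 p.2.1 w) := by
    have h := sub_primrec.comp ((f1.comp Primrec.fst).pair Primrec.snd)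
    exact h
  have g2 : Primrec (fun p : (Cd × Cd) × (List Wd × List Wd) => p.1.1.2) := Primrec.snd.comp e3
  have g3 : Primrec (fun p : (Cd × Cd) × (List Wd × List Wd) => p.1.1.2.map (sub p.1.1.1 p.2.1)) :=
    Primrec.list_map g2 g1
  have h1 : Primrec (fun q : ((Cd × Cd) × (List Wd × List Wd)) × ℕ =>
      img q.1.1.2.1 q.1.2.2 q.2) := by
    have h := img_primrec.comp ((f2.comp Primrec.fst).pair Primrec.snd)
    exact h
  have h2 : Primrec (fun q : ((Cd × Cd) × (List Wd × List Wd)) × ℕ =>
      sub q.1.1.1.1 q.1.2.1 (img q.1.1.2.1 q.1.2.2 q.2)) := by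
    have h := sub_primrec.comp ((f1.comp Primrec.fst).pair h1)
    exact h
  have h3 : Primrec (fun q : ((Cd × Cd) × (List Wd × List Wd)) × ℕ => [((q.2, false) : ℕ × Bool)]) :=
    Primrec.list_cons.comp (Primrec.snd.pair (Primrec.const false)) (Primrec.const [])
  have h4 : Primrec₂ (fun (p : (Cd × Cd) × (List Wd × List Wd)) (j : ℕ) =>
      sub p.1.1.1 p.2.1 (img p.1.2.1 p.2.2 j) ++ [(j, false)]) :=
    Primrec.list_append.comp h2 h3
  have h5 : Primrec (fun p : (Cd × Cd) × (List Wd × List Wd) => List.range p.1.2.1) :=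
    Primrec.list_range.comp (Primrec.fst.comp e4)
  have h6 : Primrec (fun p : (Cd × Cd) × (List Wd × List Wd) => (List.range p.1.2.1).map
      (fun j => sub p.1.1.1 p.2.1 (img p.1.2.1 p.2.2 j) ++ [(j, false)])) := Primrec.list_map h5 h4
  have h7 : Primrec (fun p : (Cd × Cd) × (List Wd × List Wd) =>
      p.1.1.2.map (sub p.1.1.1 p.2.1) ++ (List.range p.1.2.1).map
      (fun j => sub p.1.1.1 p.2.1 (img p.1.2.1 p.2.2 j) ++ [(j, false)])) :=
    Primrec.list_append.comp g3 h6
  exact h7

/-- the check of one half -/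
def chk (a b : Cd) (u v : List Wd) (DB : List Dr) : Bool :=
  decide ((TB a b u v).map FreeGroup.reduce = DB.map (fun D => FreeGroup.reduce (dval (rel b) D)))

theorem chk_left : Primrec (fun p : ((Cd × Cd) × (List Wd × List Wd)) × List Dr =>
    (TB p.1.1.1 p.1.1.2 p.1.2.1 p.1.2.2).map FreeGroup.reduce) := by
  have h : Primrec₂ (fun (_ : ((Cd × Cd) × (List Wd × List Wd)) × List Dr) (w : Wd) =>
      FreeGroup.reduce w) := by
    have h := reduce_primrec.comp
      (Primrec.snd (α := ((Cd × Cd) × (List Wd × List Wd)) × List Dr) (β := Wd))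
    exact h
  have h2 : Primrec (fun p : ((Cd × Cd) × (List Wd × List Wd)) × List Dr =>
      TB p.1.1.1 p.1.1.2 p.1.2.1 p.1.2.2) := by
    have h := TB_primrec.comp (Primrec.fst (α := (Cd × Cd) × (List Wd × List Wd)) (β := List Dr))
    exact h
  exact Primrec.list_map h2 h

theorem chk_right : Primrec (fun p : ((Cd × Cd) × (List Wd × List Wd)) × List Dr =>
    p.2.map (fun D => FreeGroup.reduce (dval (rel p.1.1.2) D))) := by
  have h0 : Primrec (fun q : (((Cd × Cd) × (List Wd × List Wd)) × List Dr) × Dr =>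
      (q.1.1.1.2, q.2)) :=
    (Primrec.snd.comp (Primrec.fst.comp (Primrec.fst.comp Primrec.fst))).pair Primrec.snd
  have h1 : Primrec (fun q : (((Cd × Cd) × (List Wd × List Wd)) × List Dr) × Dr =>
      dval (rel q.1.1.1.2) q.2) := by
    have h := dval_primrec.comp h0
    exact h
  have h : Primrec₂ (fun (p : ((Cd × Cd) × (List Wd × List Wd)) × List Dr) (D : Dr) =>
      FreeGroup.reduce (dval (rel p.1.1.2) D)) := by
    have h := reduce_primrec.comp h1
    exact h
  exact Primrec.list_map Primrec.snd h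

theorem chk_primrec : Primrec (fun p : ((Cd × Cd) × (List Wd × List Wd)) × List Dr =>
    chk p.1.1.1 p.1.1.2 p.1.2.1 p.1.2.2 p.2) := by
  have h : PrimrecPred (fun p : ((Cd × Cd) × (List Wd × List Wd)) × List Dr =>
    (TB p.1.1.1 p.1.1.2 p.1.2.1 p.1.2.2).map FreeGroup.reduce =
      p.2.map (fun D => FreeGroup.reduce (dval (rel p.1.1.2) D))) :=
    Primrec.eq.comp chk_left chk_right
  exact h.decide

theorem chk_iff (a b : Cd) (u v : List Wd) : Good a b u v ↔ ∃ DB : List Dr,
    chk a b u v DB = true := by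
  rw [good_iff]
  unfold chk
  simp only [decide_eq_true_eq]

attribute [irreducible] chk

abbrev Wt : Type := (List Wd × List Wd) × (List Dr × List Dr)

def Chk (a b : Cd) (x : Wt) : Bool :=
  chk a b x.1.1 x.1.2 x.2.1 && chk b a x.1.2 x.1.1 x.2.2

theorem Chk_primrec : Primrec (fun q : (Cd × Cd) × Wt => Chk q.1.1 q.1.2 q.2) := by
  have a1 : Primrec (fun q : (Cd × Cd) × Wt => q.1) := Primrec.fst
  have a2 : Primrec (fun q : (Cd × Cd) × Wt => q.2) := Primrec.snd
  have b1 : Primrec (fun q : (Cd × Cd) × Wt => q.2.1) := Primrec.fst.comp a2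
  have b2 : Primrec (fun q : (Cd × Cd) × Wt => q.2.2) := Primrec.snd.comp a2
  have b3 : Primrec (fun q : (Cd × Cd) × Wt => q.2.2.1) := Primrec.fst.comp b2
  have b4 : Primrec (fun q : (Cd × Cd) × Wt => q.2.2.2) := Primrec.snd.comp b2
  have c1 : Primrec (fun q : (Cd × Cd) × Wt => (q.1.2, q.1.1)) :=
    (Primrec.snd.comp a1).pair (Primrec.fst.comp a1)
  have c2 : Primrec (fun q : (Cd × Cd) × Wt => (q.2.1.2, q.2.1.1)) :=
    (Primrec.snd.comp b1).pair (Primrec.fst.comp b1)
  have d1 : Primrec (fun q : (Cd × Cd) × Wt => ((q.1, q.2.1), q.2.2.1)) := (a1.pair b1).pair b3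
  have d2 : Primrec (fun q : (Cd × Cd) × Wt => (((q.1.2, q.1.1), (q.2.1.2, q.2.1.1)), q.2.2.2)) :=
    (c1.pair c2).pair b4
  have h1 : Primrec (fun q : (Cd × Cd) × Wt => chk q.1.1 q.1.2 q.2.1.1 q.2.1.2 q.2.2.1) := by
    have h := chk_primrec.comp d1
    exact h
  have h2 : Primrec (fun q : (Cd × Cd) × Wt => chk q.1.2 q.1.1 q.2.1.2 q.2.1.1 q.2.2.2) := by
    have h := chk_primrec.comp d2
    exact h
  exact Primrec.and.comp h1 h2

theorem iso_iff_chk (a b : Cd) : Nonempty (PG a ≃* PG b) ↔ ∃ x : Wt, Chk a b x = true := by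
  rw [iso_iff]
  constructor
  · rintro ⟨u, v, h1, h2⟩
    obtain ⟨DB, hB⟩ := (chk_iff a b u v).1 h1
    obtain ⟨DA, hA⟩ := (chk_iff b a v u).1 h2
    refine ⟨((u, v), (DB, DA)), ?_⟩
    unfold Chk
    rw [Bool.and_eq_true]
    exact ⟨hB, hA⟩
  · rintro ⟨⟨⟨u, v⟩, ⟨DB, DA⟩⟩, h⟩
    unfold Chk at h
    rw [Bool.and_eq_true] at h
    exact ⟨u, v, (chk_iff a b u v).2 ⟨DB, h.1⟩, (chk_iff b a v u).2 ⟨DA, h.2⟩⟩

attribute [irreducible] Chk

/-- the check applied to a decoded witness -/
def RR (p : Cd × Cd) (n : ℕ) : Bool :=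
  ((Encodable.decode n : Option Wt).map (fun x => Chk p.1 p.2 x)).getD false

theorem RR_primrec : Primrec₂ RR := by
  unfold RR
  have h0 : Primrec (fun q : ((Cd × Cd) × ℕ) × Wt => (q.1.1, q.2)) :=
    (Primrec.fst.comp Primrec.fst).pair Primrec.snd
  have h1 : Primrec₂ (fun (q : (Cd × Cd) × ℕ) (x : Wt) => Chk q.1.1 q.1.2 x) := by
    have h := Chk_primrec.comp h0
    exact h
  have h2 : Primrec (fun q : (Cd × Cd) × ℕ => (Encodable.decode q.2 : Option Wt)) :=
    Primrec.decode.comp Primrec.snd
  exact Primrec.option_getD.comp (Primrec.option_map h2 h1) (Primrec.const false)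

theorem re : StmRE := by
  unfold StmRE
  refine REPred.of_eq (Pool.Agent.H715R3.Medv.rePred_exists RR_primrec.to_comp) ?_
  rintro ⟨a, b⟩
  rw [iso_iff_chk]
  constructor
  · rintro ⟨n, hn⟩
    unfold RR at hn
    cases hD : (Encodable.decode n : Option Wt) with
    | none => rw [hD] at hn; simp at hn
    | some x =>
      rw [hD] at hn
      simp only [Option.map_some, Option.getD_some] at hn
      exact ⟨x, hn⟩
  · rintro ⟨x, hx⟩
    refine ⟨Encodable.encode x, ?_⟩
    unfold RR
    simp only [Encodable.encodek, Option.map_some, Option.getD_some]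
    exact hx

end Pool.Agent.Helper739_ISO.RE
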